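import Pool.Agent.SD81.Block
import Pool.Agent.H72.KarpS.Ratio

/-!
The upper bound: the algorithm with groups of size about `n ^ β`.
-/

set_option autoImplicit false

namespace Pool.Agent.SD81

open Finset Pool.Agent.H85.Online Pool.Agent.H72.Karp Pool.Agent.H72.KarpS Filter
  Pool.Agent.SB81

variable {p : ℝ}

/-- the induced subgraph on an injective image is a random graph -/
theorem Prob_comap (h0 : 0 < p) (h1 : p < 1) {m n : ℕ} (f : Fin m ↪ Fin n)
    (Q : SimpleGraph (Fin m) → Prop) :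
    Prob p (fun G : SimpleGraph (Fin n) => Q (G.comap f)) = Prob p Q := by
  classical
  rw [Prob_eq, Prob_eq, EG_eq, EG_eq]
  have h := EE_comp (p := p) h0 h1 (pmap_injective f)
    (fun ω : Prs (Fin m) → Bool => if Q (gr ω) then (1 : ℝ) else 0)
  rw [← h]
  refine congrArg (EE p) (funext fun ω => ?_)
  rw [gr_comp]

theorem Prob_forall_fail (h0 : 0 < p) (h1 : p < 1) {n t : ℕ}
    (E : Fin t → SimpleGraph (Fin n) → Prop) {b : ℝ} (hb : ∀ i, Prob p (fun G => ¬ E i G) ≤ b) :
    Prob p (fun G => ¬ ∀ i, E i G) ≤ t * b := by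
  have h := Prob_exists (p := p) h0 h1 (univ : Finset (Fin t)) (fun i G => ¬ E i G)
  refine (Prob_mono h0 h1 fun G hG => ?_).trans (h.trans ((sum_le_sum fun i _ => hb i).trans ?_))
  · push Not at hG
    obtain ⟨i, hi⟩ := hG
    exact ⟨i, mem_univ _, hi⟩
  · rw [sum_const, card_univ, Fintype.card_fin, nsmul_eq_mul]

/-- the algorithm with groups of size `g`, finite form -/
theorem group_bound (h0 : 0 < p) (h1 : p < 1) {n g : ℕ} (hg : 0 < g) {x b : ℝ}
    (hb : Prob p (fun H : SimpleGraph (Fin g) =>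
      ¬ (H.chromaticNumber.toNat : ℝ) ≤ x) ≤ b) :
    Prob p (fun G : SimpleGraph (Fin n) =>
      ¬ (((univ.image (optcol (plus g G))).card : ℕ) : ℝ)
        ≤ (n / g : ℕ) * x + (n % g : ℕ)) ≤ (n / g : ℕ) * b := by
  refine le_trans (Prob_mono h0 h1 fun G hG => ?_) (Prob_forall_fail h0 h1
    (fun (i : Fin (n / g)) (G : SimpleGraph (Fin n)) =>
      ((G.comap (grp i)).chromaticNumber.toNat : ℝ) ≤ x) (b := b) fun i => ?_)
  · intro hall
    apply hG
    have h2 := plus_num hg G
    have h3 : (((univ.image (optcol (plus g G))).card : ℕ) : ℝ)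
        ≤ ((∑ i : Fin (n / g), (G.comap (grp i)).chromaticNumber.toNat + n % g : ℕ) : ℝ) := by
      exact_mod_cast h2
    refine h3.trans ?_
    push_cast
    refine add_le_add ?_ le_rfl
    refine (sum_le_sum fun i _ => hall i).trans (le_of_eq ?_)
    rw [sum_const, card_univ, Fintype.card_fin, nsmul_eq_mul]
  · rw [Prob_comap h0 h1 (grp i) (fun H => ¬ (H.chromaticNumber.toNat : ℝ) ≤ x)]
    exact hb

theorem upper_aux (h0 : 0 < p) (h1 : p < 1) {β ε : ℝ} (hβ : 0 < β) (hβ1 : β ≤ 1) (hε : 0 < ε)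
    (hε1 : ε ≤ 1) {a : ℝ} (ha : 0 ≤ a) : ∀ᶠ n : ℕ in atTop, ∃ g : ℕ, 0 < g ∧
      (g : ℝ) ≤ (n : ℝ) ^ β ∧ Prob p (fun G : SimpleGraph (Fin n) =>
        ¬ (((univ.image (optcol (plus g G))).card : ℕ) : ℝ)
          ≤ (1 + ε) * (n / (2 * β * LL p n))) ≤ (n : ℝ) ^ (-a) := by
  have hlam := neg_log_pos h0 h1
  set lam : ℝ := -Real.log (1 - p) with hlamdef
  set a' : ℝ := (a + 2) / β with ha'def
  have ha' : 0 ≤ a' := by positivity
  have hchi := chi_upper (p := p) h0 h1 (δ := ε / 16) (by positivity) (a := a') ha'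
  have hgt : Tendsto (fun n : ℕ => ⌊(n : ℝ) ^ β⌋₊) atTop atTop :=
    tendsto_nat_floor_atTop.comp ((tendsto_rpow_atTop hβ).comp tendsto_natCast_atTop_atTop)
  have hpw : Tendsto (fun n : ℕ => (n : ℝ) ^ β) atTop atTop :=
    (tendsto_rpow_atTop hβ).comp tendsto_natCast_atTop_atTop
  -- the remainder
  have hrem : ∀ᶠ n : ℕ in atTop, ((n % ⌊(n : ℝ) ^ β⌋₊ : ℕ) : ℝ)
      ≤ ε / 4 * (n / (β * LL p n)) := by
    rcases eq_or_lt_of_le hβ1 with hb | hb
    · filter_upwards [eventually_ge_atTop 2] with n hn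
      have hnr : (1 : ℝ) < n := by exact_mod_cast hn
      rw [hb, Real.rpow_one, Nat.floor_natCast, Nat.mod_self, Nat.cast_zero]
      have : 0 < LL p n := by
        rw [LL_eq]
        exact div_pos (Real.log_pos hnr) hlam
      positivity
    · have hd : 0 < 1 - β := by linarith
      have hlog : ∀ᶠ n : ℕ in atTop, Real.log (n : ℝ) ≤ (ε / 4 / β * lam) * (n : ℝ) ^ (1 - β) := by
        have h := (isLittleO_log_rpow_atTop hd).bound (show 0 < ε / 4 / β * lam by positivity)
        filter_upwards [tendsto_natCast_atTop_atTop.eventually h] with n hn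
        refine (le_abs_self _).trans (hn.trans (le_of_eq ?_))
        rw [Real.norm_eq_abs, abs_of_nonneg (by positivity)]
      filter_upwards [eventually_ge_atTop 2, hlog, hgt.eventually_ge_atTop 1] with n hn hl hg1
      have hnr : (1 : ℝ) < n := by exact_mod_cast hn
      have hn0 : (0 : ℝ) < n := by linarith
      have hL : 0 < Real.log (n : ℝ) := Real.log_pos hnr
      have e1 : ((n % ⌊(n : ℝ) ^ β⌋₊ : ℕ) : ℝ) ≤ (n : ℝ) ^ β := by
        have e2 : n % ⌊(n : ℝ) ^ β⌋₊ ≤ ⌊(n : ℝ) ^ β⌋₊ := (Nat.mod_lt _ (by omega)).le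
        have e3 : ((n % ⌊(n : ℝ) ^ β⌋₊ : ℕ) : ℝ) ≤ ((⌊(n : ℝ) ^ β⌋₊ : ℕ) : ℝ) := by
          exact_mod_cast e2
        exact e3.trans (Nat.floor_le (by positivity))
      refine e1.trans ?_
      rw [LL_eq]
      have e4 : ε / 4 * (n / (β * (Real.log n / lam))) = (ε / 4 / β * lam) * n / Real.log n := by
        field_simp
      rw [e4, le_div_iff₀ hL]
      calc (n : ℝ) ^ β * Real.log n ≤ (n : ℝ) ^ β * ((ε / 4 / β * lam) * (n : ℝ) ^ (1 - β)) :=
            mul_le_mul_of_nonneg_left hl (by positivity)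
        _ = (ε / 4 / β * lam) * ((n : ℝ) ^ β * (n : ℝ) ^ (1 - β)) := by ring
        _ = (ε / 4 / β * lam) * n := by
            rw [← Real.rpow_add hn0]
            congr 1
            rw [show β + (1 - β) = 1 by ring, Real.rpow_one]
  -- the logarithm of the group size
  have hllg : ∀ᶠ n : ℕ in atTop, (1 - ε / 16) * (β * LL p n) ≤ LL p ⌊(n : ℝ) ^ β⌋₊ := by
    filter_upwards [hpw.eventually_ge_atTop 2, eventually_ge_atTop 2,
      log_nat_tendsto.eventually_ge_atTop (16 / ε / β * Real.log 2)] with n hn1 hn2 hn3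
    have hnr : (1 : ℝ) < n := by exact_mod_cast hn2
    have hn0 : (0 : ℝ) < n := by linarith
    rw [LL_eq, LL_eq]
    have e1 : (n : ℝ) ^ β / 2 ≤ ((⌊(n : ℝ) ^ β⌋₊ : ℕ) : ℝ) := by
      have := Nat.lt_floor_add_one ((n : ℝ) ^ β)
      linarith
    have e2 : Real.log ((n : ℝ) ^ β / 2) ≤ Real.log ((⌊(n : ℝ) ^ β⌋₊ : ℕ) : ℝ) :=
      Real.log_le_log (by positivity) e1
    rw [Real.log_div (by positivity) (by norm_num), Real.log_rpow hn0] at e2
    have e3 : Real.log 2 ≤ ε / 16 * (β * Real.log n) := by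
      rw [div_div, div_mul_eq_mul_div, div_le_iff₀ (by positivity)] at hn3
      linarith
    have e4 : (1 - ε / 16) * (β * (Real.log n / lam))
        = ((1 - ε / 16) * (β * Real.log n)) / lam := by ring
    rw [e4]
    refine div_le_div_of_nonneg_right ?_ hlam.le
    linarith
  filter_upwards [hgt.eventually hchi, hrem, hllg, hgt.eventually_ge_atTop 1,
    eventually_ge_atTop 2, hpw.eventually_ge_atTop 2,
    tendsto_natCast_atTop_atTop.eventually_ge_atTop ((2 : ℝ) ^ a')] with n g1 g2 g3 g4 g5 g6 g7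
  set g : ℕ := ⌊(n : ℝ) ^ β⌋₊ with hgdef
  have hnr : (1 : ℝ) < n := by exact_mod_cast g5
  have hn0 : (0 : ℝ) < n := by linarith
  have hg0 : 0 < g := g4
  have hgr : (g : ℝ) ≤ (n : ℝ) ^ β := Nat.floor_le (by positivity)
  have hgr0 : (0 : ℝ) < g := by exact_mod_cast hg0
  have hg2 : (n : ℝ) ^ β / 2 ≤ g := by
    have := Nat.lt_floor_add_one ((n : ℝ) ^ β)
    rw [← hgdef] at this
    linarith
  have hLn : 0 < LL p n := by
    rw [LL_eq]
    exact div_pos (Real.log_pos hnr) hlam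
  have hLg : 0 < LL p g := by
    refine lt_of_lt_of_le ?_ g3
    have : 0 < 1 - ε / 16 := by linarith
    positivity
  refine ⟨g, hg0, hgr, ?_⟩
  · have hb := group_bound (n := n) h0 h1 hg0 (x := (1 / 2 + ε / 16) * (g / LL p g)) g1
    have hcol : ((n / g : ℕ) : ℝ) * ((1 / 2 + ε / 16) * (g / LL p g)) + ((n % g : ℕ) : ℝ)
        ≤ (1 + ε) * (n / (2 * β * LL p n)) := by
      have e1 : ((n / g : ℕ) : ℝ) * g ≤ n := by
        have := Nat.div_mul_le_self n g
        exact_mod_cast this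
      have e2 : ((n / g : ℕ) : ℝ) * ((1 / 2 + ε / 16) * (g / LL p g))
          = (1 / 2 + ε / 16) * ((((n / g : ℕ) : ℝ) * g) / LL p g) := by ring
      rw [e2]
      have e3 : (((n / g : ℕ) : ℝ) * g) / LL p g ≤ n / ((1 - ε / 16) * (β * LL p n)) := by
        refine div_le_div₀ hn0.le e1 ?_ g3
        have : 0 < 1 - ε / 16 := by linarith
        positivity
      have e4 : (1 / 2 + ε / 16) * (n / ((1 - ε / 16) * (β * LL p n)))
          ≤ (1 / 2 + ε / 4) * (n / (β * LL p n)) := by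
        have f1 : 0 < 1 - ε / 16 := by linarith
        have f2 : (1 / 2 + ε / 16) * (n / ((1 - ε / 16) * (β * LL p n)))
            = ((1 / 2 + ε / 16) / (1 - ε / 16)) * (n / (β * LL p n)) := by
          field_simp
        rw [f2]
        refine mul_le_mul_of_nonneg_right ?_ (by positivity)
        rw [div_le_iff₀ f1]
        nlinarith
      have e5 : (1 / 2 + ε / 16) * ((((n / g : ℕ) : ℝ) * g) / LL p g)
          ≤ (1 / 2 + ε / 4) * (n / (β * LL p n)) :=
        (mul_le_mul_of_nonneg_left e3 (by positivity)).trans e4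
      calc (1 / 2 + ε / 16) * ((((n / g : ℕ) : ℝ) * g) / LL p g) + ((n % g : ℕ) : ℝ)
          ≤ (1 / 2 + ε / 4) * (n / (β * LL p n)) + ε / 4 * (n / (β * LL p n)) :=
            add_le_add e5 g2
        _ = (1 + ε) * (n / (2 * β * LL p n)) := by field_simp; ring
    refine (Prob_mono h0 h1 fun G hG hle => hG (hle.trans hcol)).trans (hb.trans ?_)
    have e1 : ((n / g : ℕ) : ℝ) ≤ n := by
      have := Nat.div_le_self n g
      exact_mod_cast this
    have e2 : (g : ℝ) ^ (-a') ≤ ((n : ℝ) ^ β / 2) ^ (-a') :=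
      Real.rpow_le_rpow_of_nonpos (by positivity) hg2 (by linarith)
    have e3 : ((n : ℝ) ^ β / 2) ^ (-a') = (n : ℝ) ^ (-(a + 2)) * (2 : ℝ) ^ a' := by
      rw [Real.div_rpow (by positivity) (by norm_num), ← Real.rpow_mul hn0.le,
        Real.rpow_neg (by norm_num : (0 : ℝ) ≤ 2), div_inv_eq_mul]
      congr 2
      rw [ha'def]
      field_simp
    calc ((n / g : ℕ) : ℝ) * (g : ℝ) ^ (-a')
        ≤ n * ((n : ℝ) ^ (-(a + 2)) * n) := by
          refine mul_le_mul e1 ?_ (by positivity) hn0.le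
          rw [e3] at e2
          exact e2.trans (mul_le_mul_of_nonneg_left g7 (by positivity))
      _ = (n : ℝ) ^ (-a) := by
          have : (n : ℝ) * ((n : ℝ) ^ (-(a + 2)) * n) = (n : ℝ) ^ (-(a + 2)) * (n : ℝ) ^ (2 : ℝ) := by
            rw [Real.rpow_two]; ring
          rw [this, ← Real.rpow_add hn0]
          congr 1
          ring

theorem ratio_upper (h0 : 0 < p) (h1 : p < 1) {β ρ : ℝ} (hβ : 0 < β) (hβ1 : β ≤ 1)
    (hρβ : 1 < ρ * β) (a : ℝ) : ∀ᶠ n : ℕ in atTop, ∀ l : List (Sym2 (Fin n)), IsOrder l →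
      ∃ (Q : Type) (_ : Fintype Q) (A : PassAlg n Q),
        (Fintype.card Q : ℝ) ≤ 2 ^ ((n : ℝ) ^ (1 + β)) ∧ (∀ G, A.Proper l G) ∧
          Prob p (fun G => ρ * G.chromaticNumber.toNat < (A.numColours l G : ℝ))
            ≤ (n : ℝ) ^ (-a) := by
  have hlam := neg_log_pos h0 h1
  set ε : ℝ := min 1 ((ρ * β - 1) / 4) with hεdef
  have hε : 0 < ε := lt_min one_pos (by linarith)
  have hε1 : ε ≤ 1 := min_le_left _ _
  have hε2 : ε ≤ (ρ * β - 1) / 4 := min_le_right _ _
  have hmax : 0 ≤ max a 0 + 1 := by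
    have := le_max_right a 0
    linarith
  filter_upwards [upper_aux h0 h1 hβ hβ1 hε hε1 hmax, alpha_bound' h0 h1 hε (max a 0 + 1),
    eventually_ge_atTop 2] with n hn hal hn2
  obtain ⟨g, hg0, hg, hP⟩ := hn
  intro l hl
  have hnr2 : (2 : ℝ) ≤ n := by exact_mod_cast hn2
  have hn0 : (0 : ℝ) < n := by linarith
  have hL : 0 < LL p n := by
    rw [LL_eq]
    exact div_pos (Real.log_pos (by linarith)) hlam
  refine ⟨gp n g → Bool, inferInstance, blockAlg n g, ?_, fun G => block_proper hl G, ?_⟩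
  · have e1 : Fintype.card (gp n g → Bool) = 2 ^ (gp n g).card := by
      rw [Fintype.card_fun, Fintype.card_bool, Fintype.card_coe]
    rw [e1]
    push_cast
    rw [← Real.rpow_natCast]
    refine Real.rpow_le_rpow_of_exponent_le (by norm_num) ?_
    have e2 : (((gp n g).card : ℕ) : ℝ) ≤ (n : ℝ) * g := by exact_mod_cast card_gp hg0
    rw [Real.rpow_add hn0, Real.rpow_one]
    exact e2.trans (mul_le_mul_of_nonneg_left hg hn0.le)
  · have hnum : ∀ G : SimpleGraph (Fin n), (blockAlg n g).numColours l G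
        = (univ.image (optcol (plus g G))).card := by
      intro G
      unfold PassAlg.numColours
      rw [block_colour hl]
    have h3 : Prob p (fun G : SimpleGraph (Fin n) =>
        ρ * G.chromaticNumber.toNat < ((blockAlg n g).numColours l G : ℝ))
        ≤ (n : ℝ) ^ (-(max a 0 + 1)) + (n : ℝ) ^ (-(max a 0 + 1)) := by
      refine le_trans (Prob_mono h0 h1 fun G hG => ?_)
        ((Prob_or h0 h1 _ _).trans (add_le_add hal hP))
      by_cases hc2 : ∀ I : Finset (Fin n), Indep G I → (I.card : ℝ) ≤ (2 + ε) * LL p n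
      · right
        rw [hnum] at hG
        rw [not_le]
        refine lt_of_le_of_lt ?_ hG
        have e1 := le_chi_mul G hc2
        have e2 : (n : ℝ) / LL p n ≤ (2 + ε) * G.chromaticNumber.toNat := by
          rw [div_le_iff₀ hL]
          linarith
        have e3 : (1 + ε) * (n / (2 * β * LL p n)) = ((1 + ε) / (2 * β)) * (n / LL p n) := by
          field_simp
        rw [e3]
        have e4 : (1 + ε) / (2 * β) * (2 + ε) ≤ ρ := by
          rw [div_mul_eq_mul_div, div_le_iff₀ (by positivity)]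
          nlinarith
        calc (1 + ε) / (2 * β) * (n / LL p n)
            ≤ (1 + ε) / (2 * β) * ((2 + ε) * G.chromaticNumber.toNat) :=
              mul_le_mul_of_nonneg_left e2 (by positivity)
          _ = ((1 + ε) / (2 * β) * (2 + ε)) * G.chromaticNumber.toNat := by ring
          _ ≤ ρ * G.chromaticNumber.toNat := mul_le_mul_of_nonneg_right e4 (Nat.cast_nonneg _)
      · exact Or.inl hc2
    refine h3.trans ?_
    have haa : a + 1 ≤ max a 0 + 1 := by
      have := le_max_left a 0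
      linarith
    have e1 : (n : ℝ) ^ (-(max a 0 + 1)) ≤ (n : ℝ) ^ (-(a + 1)) :=
      Real.rpow_le_rpow_of_exponent_le (by linarith) (by linarith)
    have e2 : (n : ℝ) ^ (-a) = (n : ℝ) ^ (-(a + 1)) * n := by
      have : (-a) = -(a + 1) + 1 := by ring
      rw [this, Real.rpow_add hn0, Real.rpow_one]
    have e3 : 0 ≤ (n : ℝ) ^ (-(a + 1)) := by positivity
    rw [e2]
    nlinarith

end Pool.Agent.SD81
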