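import Pool.Agent.SB81.Defs

/-!
Algorithms which need not be correct on all graphs.
-/

set_option autoImplicit false

namespace Pool.Agent.SB81

variable {n : ℕ} {Q : Type}

/-- The colouring which `A` returns for `G`, when the pairs come in the order `l`, is a proper
colouring of `G`. -/
def PassAlg.Proper (A : PassAlg n Q) (l : List (Sym2 (Fin n))) (G : SimpleGraph (Fin n)) : Prop :=
  ∀ u v : Fin n, G.Adj u v → A.colour (A.run l G) u ≠ A.colour (A.run l G) v

end Pool.Agent.SB81
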