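import Pool.Agent.SD81.Chain
import Pool.Agent.SD81.Model

/-!
The algorithm which stores the pairs inside groups of `g` consecutive vertices and colours every
group optimally, with its own colours.
-/

set_option autoImplicit false

namespace Pool.Agent.SD81

open Finset Pool.Agent.H85.Online Pool.Agent.SB81

variable {n : ℕ}

/-- the graph `G` with all pairs in different groups added -/
def plus (g : ℕ) (G : SimpleGraph (Fin n)) : SimpleGraph (Fin n) where
  Adj u v := u ≠ v ∧ ((u : ℕ) / g ≠ (v : ℕ) / g ∨ G.Adj u v)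
  symm := ⟨fun _ _ h => ⟨h.1.symm, h.2.imp (fun h => h.symm) (fun h => h.symm)⟩⟩
  loopless := ⟨fun _ h => h.1 rfl⟩

theorem exists_optcol (H : SimpleGraph (Fin n)) : ∃ c : Fin n → ℕ,
    (∀ u v, H.Adj u v → c u ≠ c v) ∧ (univ.image c).card ≤ H.chromaticNumber.toNat := by
  classical
  obtain ⟨C⟩ := H.colorable_chromaticNumber_of_fintype
  refine ⟨fun v => (C v : ℕ), fun u v huv he => C.valid huv (Fin.ext he), ?_⟩
  have h : univ.image (fun v => (C v : ℕ)) ⊆ range H.chromaticNumber.toNat := by
    intro x hx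
    obtain ⟨v, _, rfl⟩ := mem_image.1 hx
    exact mem_range.2 (C v).2
  exact (card_le_card h).trans (by rw [card_range])

/-- an optimal colouring -/
noncomputable def optcol (H : SimpleGraph (Fin n)) : Fin n → ℕ := (exists_optcol H).choose

theorem optcol_proper (H : SimpleGraph (Fin n)) {u v : Fin n} (h : H.Adj u v) :
    optcol H u ≠ optcol H v := (exists_optcol H).choose_spec.1 u v h

theorem optcol_card (H : SimpleGraph (Fin n)) :
    (univ.image (optcol H)).card ≤ H.chromaticNumber.toNat := (exists_optcol H).choose_spec.2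

open Classical in
/-- the pairs inside the groups -/
noncomputable def gp (n g : ℕ) : Finset (Sym2 (Fin n)) :=
  univ.filter fun e => ¬ e.IsDiag ∧ ∀ u ∈ e, ∀ v ∈ e, (u : ℕ) / g = (v : ℕ) / g

theorem mem_gp {g : ℕ} {u v : Fin n} : s(u, v) ∈ gp n g ↔ u ≠ v ∧ (u : ℕ) / g = (v : ℕ) / g := by
  classical
  unfold gp
  rw [mem_filter, Sym2.mk_isDiag_iff]
  constructor
  · rintro ⟨_, h1, h2⟩
    exact ⟨h1, h2 u (Sym2.mem_mk_left u v) v (Sym2.mem_mk_right u v)⟩
  · rintro ⟨h1, h2⟩
    refine ⟨mem_univ _, h1, fun x hx y hy => ?_⟩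
    rcases Sym2.mem_iff.1 hx with rfl | rfl <;> rcases Sym2.mem_iff.1 hy with rfl | rfl
    · rfl
    · exact h2
    · exact h2.symm
    · rfl

theorem card_gp {g : ℕ} (hg : 0 < g) : (gp n g).card ≤ n * g := by
  classical
  have h : n * g = (univ : Finset (Fin n × Fin g)).card := by
    rw [card_univ, Fintype.card_prod, Fintype.card_fin, Fintype.card_fin]
  set F : Finset (Fin n × Fin n) :=
    univ.filter fun x => (x.1 : ℕ) / g = (x.2 : ℕ) / g with hF
  have h1 : gp n g ⊆ F.image fun x => s(x.1, x.2) := by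
    intro e he
    induction e using Sym2.ind with
    | _ u v =>
    rw [mem_gp] at he
    exact mem_image.2 ⟨(u, v), mem_filter.2 ⟨mem_univ _, he.2⟩, rfl⟩
  refine (card_le_card h1).trans (card_image_le.trans ?_)
  rw [h]
  refine card_le_card_of_injOn (fun x => (x.1, ⟨(x.2 : ℕ) % g, Nat.mod_lt _ hg⟩))
    (fun _ _ => by simp) ?_
  rintro ⟨u, w⟩ hx ⟨u', w'⟩ hx' he
  rw [hF, mem_coe, mem_filter] at hx hx'
  simp only [Prod.mk.injEq, Fin.mk.injEq] at he
  obtain ⟨rfl, he⟩ := he
  have e1 := Nat.div_add_mod (w : ℕ) g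
  have e2 := Nat.div_add_mod (w' : ℕ) g
  have e3 : (w : ℕ) = w' := by
    rw [← e1, ← e2, ← hx.2, ← hx'.2, he]
  rw [Fin.ext e3]

/-- the graph stored in the memory -/
def ofState {g : ℕ} (q : gp n g → Bool) : SimpleGraph (Fin n) where
  Adj u v := u ≠ v ∧ ∃ h : s(u, v) ∈ gp n g, q ⟨s(u, v), h⟩ = true
  symm := ⟨fun u v h => by
    obtain ⟨h1, h2, h3⟩ := h
    refine ⟨h1.symm, by rw [Sym2.eq_swap]; exact h2, ?_⟩
    have h4 : (⟨s(v, u), by rw [Sym2.eq_swap]; exact h2⟩ : gp n g) = ⟨s(u, v), h2⟩ :=
      Subtype.ext Sym2.eq_swap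
    rw [h4]
    exact h3⟩
  loopless := ⟨fun u h => h.1 rfl⟩

open Classical in
/-- The algorithm which stores the pairs inside the groups. -/
noncomputable def blockAlg (n g : ℕ) : PassAlg n (gp n g → Bool) where
  start := fun _ => false
  step := fun q e b x => if x.1 = e then b else q x
  colour := fun q => optcol (plus g (ofState q))

open Classical in
theorem foldl_block {g : ℕ} (G : SimpleGraph (Fin n)) (x : gp n g) :
    ∀ (l : List (Sym2 (Fin n))) (q : gp n g → Bool),
      l.foldl (fun q e => (blockAlg n g).step q e (decide (e ∈ G.edgeSet))) q x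
        = if x.1 ∈ l then decide (x.1 ∈ G.edgeSet) else q x := by
  intro l
  induction l with
  | nil =>
    intro q
    rw [if_neg List.not_mem_nil]
    rfl
  | cons a l ih =>
    intro q
    rw [List.foldl_cons, ih]
    by_cases h1 : x.1 ∈ l
    · rw [if_pos h1, if_pos (List.mem_cons_of_mem _ h1)]
    · rw [if_neg h1]
      change (if x.1 = a then decide (a ∈ G.edgeSet) else q x) = _
      by_cases h2 : x.1 = a
      · rw [if_pos h2, if_pos (by rw [h2]; exact List.mem_cons_self), h2]
      · rw [if_neg h2, if_neg (by rw [List.mem_cons, not_or]; exact ⟨h2, h1⟩)]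

theorem block_colour {g : ℕ} {l : List (Sym2 (Fin n))} (hl : IsOrder l)
    (G : SimpleGraph (Fin n)) :
    (blockAlg n g).colour ((blockAlg n g).run l G) = optcol (plus g G) := by
  classical
  change optcol (plus g (ofState ((blockAlg n g).run l G))) = _
  congr 1
  ext u v
  change (u ≠ v ∧ ((u : ℕ) / g ≠ (v : ℕ) / g ∨ (ofState ((blockAlg n g).run l G)).Adj u v))
    ↔ (u ≠ v ∧ ((u : ℕ) / g ≠ (v : ℕ) / g ∨ G.Adj u v))
  refine and_congr_right fun hne => ?_
  by_cases hg : (u : ℕ) / g = (v : ℕ) / g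
  · have hmem : s(u, v) ∈ gp n g := mem_gp.2 ⟨hne, hg⟩
    have h1 : (blockAlg n g).run l G ⟨s(u, v), hmem⟩ = decide (s(u, v) ∈ G.edgeSet) := by
      unfold PassAlg.run
      rw [foldl_block, if_pos ((hl.2 _).2 (by rwa [Sym2.mk_isDiag_iff]))]
    have h2 : (ofState ((blockAlg n g).run l G)).Adj u v ↔ G.Adj u v := by
      change (u ≠ v ∧ ∃ h : s(u, v) ∈ gp n g,
        (blockAlg n g).run l G ⟨s(u, v), h⟩ = true) ↔ _
      constructor
      · rintro ⟨_, h3, h4⟩
        rw [h1] at h4
        exact (SimpleGraph.mem_edgeSet G).1 (of_decide_eq_true h4)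
      · intro h3
        refine ⟨hne, hmem, ?_⟩
        rw [h1]
        exact decide_eq_true ((SimpleGraph.mem_edgeSet G).2 h3)
    rw [h2]
  · simp [hg]

theorem block_proper {g : ℕ} {l : List (Sym2 (Fin n))} (hl : IsOrder l)
    (G : SimpleGraph (Fin n)) : (blockAlg n g).Proper l G := by
  intro u v huv
  rw [block_colour hl]
  exact optcol_proper _ ⟨huv.ne, Or.inr huv⟩

/-- the `i`-th group -/
def grp {n g : ℕ} (i : Fin (n / g)) : Fin g ↪ Fin n where
  toFun j := ⟨i * g + j, by
    have h1 : (i + 1 : ℕ) * g ≤ n / g * g := Nat.mul_le_mul_right g i.2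
    have h2 := Nat.div_mul_le_self n g
    have h3 := j.2
    have h4 : (i + 1 : ℕ) * g = i * g + g := by ring
    omega⟩
  inj' j j' h := by
    have := Fin.mk.inj h
    exact Fin.ext (by omega)

theorem plus_num {n g : ℕ} (hg : 0 < g) (G : SimpleGraph (Fin n)) :
    (univ.image (optcol (plus g G))).card
      ≤ ∑ i : Fin (n / g), (G.comap (grp i)).chromaticNumber.toNat + n % g := by
  classical
  refine (optcol_card _).trans ?_
  have hC : ∀ i : Fin (n / g), Nonempty ((G.comap (grp i)).Coloring
      (Fin (G.comap (grp i)).chromaticNumber.toNat)) := fun i =>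
    (G.comap (grp i)).colorable_chromaticNumber_of_fintype
  have C : ∀ i : Fin (n / g), (G.comap (grp i)).Coloring
      (Fin (G.comap (grp i)).chromaticNumber.toNat) := fun i => (hC i).some
  have hdm : ∀ v : Fin n, (v : ℕ) / g * g + (v : ℕ) % g = v := fun v => by
    have := Nat.div_add_mod (v : ℕ) g
    rw [mul_comm] at this
    exact this
  have hnd := Nat.div_add_mod n g
  have hrest : ∀ v : Fin n, ¬ (v : ℕ) / g < n / g → (v : ℕ) - g * (n / g) < n % g := by
    intro v hv
    have h1 : g * (n / g) ≤ v := by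
      have h2 := Nat.mul_le_mul_left g (not_lt.1 hv)
      have h3 := Nat.mul_div_le (v : ℕ) g
      omega
    have := v.2
    omega
  let f : Fin n → (Σ i : Fin (n / g), Fin (G.comap (grp i)).chromaticNumber.toNat) ⊕ Fin (n % g) :=
    fun v => if h : (v : ℕ) / g < n / g then
      Sum.inl ⟨⟨(v : ℕ) / g, h⟩, C ⟨(v : ℕ) / g, h⟩ ⟨(v : ℕ) % g, Nat.mod_lt _ hg⟩⟩
      else Sum.inr ⟨(v : ℕ) - g * (n / g), hrest v h⟩
  have hf : ∀ {u v : Fin n}, (plus g G).Adj u v → f u ≠ f v := by
    rintro u v ⟨hne, hadj⟩ he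
    by_cases hu : (u : ℕ) / g < n / g
    · by_cases hv : (v : ℕ) / g < n / g
      · simp only [f] at he
        rw [dif_pos hu, dif_pos hv, Sum.inl.injEq, Sigma.mk.injEq] at he
        obtain ⟨he1, he2⟩ := he
        have he1' : (u : ℕ) / g = (v : ℕ) / g := Fin.mk.inj he1
        rcases hadj with h | h
        · exact h he1'
        · have key : ∀ (i i' : Fin (n / g)) (j j' : Fin g), i = i' →
              (G.comap (grp i)).Adj j j' → ¬ HEq (C i j) (C i' j') := by
            rintro i i' j j' rfl hadj' hh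
            exact (C i).valid hadj' (eq_of_heq hh)
          refine key _ _ _ _ he1 ?_ he2
          rw [SimpleGraph.comap_adj]
          have e1 : grp ⟨(u : ℕ) / g, hu⟩ ⟨(u : ℕ) % g, Nat.mod_lt _ hg⟩ = u :=
            Fin.ext (hdm u)
          have e2 : grp ⟨(u : ℕ) / g, hu⟩ ⟨(v : ℕ) % g, Nat.mod_lt _ hg⟩ = v := by
            apply Fin.ext
            change (u : ℕ) / g * g + (v : ℕ) % g = v
            rw [he1']
            exact hdm v
          rw [e1, e2]
          exact h
      · simp only [f] at he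
        rw [dif_pos hu, dif_neg hv] at he
        exact absurd he (by simp)
    · by_cases hv : (v : ℕ) / g < n / g
      · simp only [f] at he
        rw [dif_neg hu, dif_pos hv] at he
        exact absurd he (by simp)
      · simp only [f] at he
        rw [dif_neg hu, dif_neg hv, Sum.inr.injEq, Fin.mk.injEq] at he
        have h1 : g * (n / g) ≤ u := by
          have h2 := Nat.mul_le_mul_left g (not_lt.1 hu)
          have h3 := Nat.mul_div_le (u : ℕ) g
          omega
        have h1' : g * (n / g) ≤ v := by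
          have h2 := Nat.mul_le_mul_left g (not_lt.1 hv)
          have h3 := Nat.mul_div_le (v : ℕ) g
          omega
        exact hne (Fin.ext (by omega))
  have hcol := (SimpleGraph.Coloring.mk f hf).colorable
  have h2 := hcol.chromaticNumber_le
  have h3 := ENat.toNat_le_of_le_natCast h2
  refine h3.trans (le_of_eq ?_)
  rw [Fintype.card_sum, Fintype.card_sigma, Fintype.card_fin]
  simp

end Pool.Agent.SD81
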