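import Pool.Agent.SD81.Grow

/-!
Chains of sets which grow along the known pairs, and the expectation of their weighted number.
-/

set_option autoImplicit false

namespace Pool.Agent.SD81

open Finset Pool.Agent.H85.Online

variable {n : ℕ} {p : ℝ}

/-- the pairs inside `X` -/
def prs (X : Finset (Fin n)) : Finset (Sym2 (Fin n)) := X.offDiag.image fun q => s(q.1, q.2)

theorem mem_prs {X : Finset (Fin n)} {u v : Fin n} :
    s(u, v) ∈ prs X ↔ u ≠ v ∧ u ∈ X ∧ v ∈ X := by
  unfold prs
  rw [mem_image]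
  constructor
  · rintro ⟨⟨a, b⟩, hab, he⟩
    have hab' := mem_offDiag.1 hab
    rcases Sym2.eq_iff.1 he with ⟨h1, h2⟩ | ⟨h1, h2⟩
    · simp only at h1 h2
      subst h1; subst h2
      exact ⟨hab'.2.2, hab'.1, hab'.2.1⟩
    · simp only at h1 h2
      subst h1; subst h2
      exact ⟨hab'.2.2.symm, hab'.2.1, hab'.1⟩
  · rintro ⟨h1, h2, h3⟩
    exact ⟨(u, v), mem_offDiag.2 ⟨h2, h3, h1⟩, rfl⟩

theorem card_prs (X : Finset (Fin n)) : (prs X).card = X.card.choose 2 :=
  Sym2.card_image_offDiag X

theorem prs_mono {X Y : Finset (Fin n)} (h : X ⊆ Y) : prs X ⊆ prs Y := by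
  intro e he
  induction e using Sym2.ind with
  | _ u v =>
  rw [mem_prs] at he ⊢
  exact ⟨he.1, h he.2.1, h he.2.2⟩

open Classical in
/-- the pairs inside `U` of phase `j` -/
noncomputable def newp (φ : Sym2 (Fin n) → ℕ) (j : ℕ) (U : Finset (Fin n)) :
    Finset (Sym2 (Fin n)) := (prs U).filter fun e => φ e = j

theorem mem_newp {φ : Sym2 (Fin n) → ℕ} {j : ℕ} {U : Finset (Fin n)} {e : Sym2 (Fin n)} :
    e ∈ newp φ j U ↔ e ∈ prs U ∧ φ e = j := by
  classical
  exact mem_filter

/-- the last set of the chain -/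
def hd : List (Finset (Fin n)) → Finset (Fin n)
  | [] => ∅
  | U :: _ => U

/-- Every set of the chain arises from the previous one along the graph `E j G`, where `j` is its
index, and the pairs of phase `j` inside the set with index `j` are no edges. -/
def Val (E : ℕ → SimpleGraph (Fin n) → SimpleGraph (Fin n)) (φ : Sym2 (Fin n) → ℕ)
    (D k s : ℕ) (G : SimpleGraph (Fin n)) : List (Finset (Fin n)) → Prop
  | [] => True
  | U :: l => (GrowTo (E (l.length + 1) G) D k (hd l) U ∧ U.card ≤ s) ∧
      (∀ e ∈ newp φ l.length (hd l), e ∉ G.edgeSet) ∧ Val E φ D k s G l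

/-- the number of pairs which are required to be no edges -/
noncomputable def qq (φ : Sym2 (Fin n) → ℕ) : List (Finset (Fin n)) → ℕ
  | [] => 0
  | _ :: l => qq φ l + (newp φ l.length (hd l)).card

variable {E : ℕ → SimpleGraph (Fin n) → SimpleGraph (Fin n)} {φ : Sym2 (Fin n) → ℕ} {D k s : ℕ}

/-- `E j` depends only on the pairs of the phases before `j` -/
def Adapted (E : ℕ → SimpleGraph (Fin n) → SimpleGraph (Fin n)) (φ : Sym2 (Fin n) → ℕ) : Prop :=
  ∀ (j : ℕ) (u v : Fin n), u ≠ v → j ≤ φ s(u, v) →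
    ∀ G : SimpleGraph (Fin n), E j (G ⊔ SimpleGraph.edge u v) = E j G

theorem notMem_sup_edge_iff {G : SimpleGraph (Fin n)} {u v : Fin n} (huv : u ≠ v)
    {e : Sym2 (Fin n)} (he : e ≠ s(u, v)) :
    e ∈ (G ⊔ SimpleGraph.edge u v).edgeSet ↔ e ∈ G.edgeSet := by
  rw [edgeSet_sup_edge G huv, Set.mem_insert_iff]
  exact ⟨fun h => h.resolve_left he, Or.inr⟩

theorem val_free (hE : Adapted E φ) {u v : Fin n} (huv : u ≠ v) (G : SimpleGraph (Fin n)) :
    ∀ l : List (Finset (Fin n)), l.length ≤ φ s(u, v) →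
      (Val E φ D k s (G ⊔ SimpleGraph.edge u v) l ↔ Val E φ D k s G l) := by
  intro l
  induction l with
  | nil => exact fun _ => Iff.rfl
  | cons U l ih =>
    intro hl
    rw [List.length_cons] at hl
    unfold Val
    rw [hE (l.length + 1) u v huv hl G, ih (by omega)]
    refine and_congr_right fun _ => and_congr_left fun _ => ?_
    refine forall_congr' fun e => forall_congr' fun he => not_congr ?_
    refine notMem_sup_edge_iff huv ?_
    rintro rfl
    have := (mem_newp.1 he).2
    omega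

open Classical in
/-- all lists with `j` sets -/
noncomputable def allc (n : ℕ) : ℕ → Finset (List (Finset (Fin n)))
  | 0 => {[]}
  | j + 1 => ((univ : Finset (Finset (Fin n))) ×ˢ allc n j).image fun x => x.1 :: x.2

theorem length_of_mem_allc {j : ℕ} {l : List (Finset (Fin n))} (h : l ∈ allc n j) :
    l.length = j := by
  classical
  induction j generalizing l with
  | zero =>
    rw [allc, mem_singleton] at h
    rw [h]
    rfl
  | succ j ih =>
    rw [allc, mem_image] at h
    obtain ⟨⟨U, l'⟩, h1, rfl⟩ := h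
    rw [List.length_cons, ih (mem_product.1 h1).2]

theorem mem_allc (l : List (Finset (Fin n))) : l ∈ allc n l.length := by
  classical
  induction l with
  | nil => exact mem_singleton_self _
  | cons U l ih =>
    rw [List.length_cons, allc, mem_image]
    exact ⟨(U, l), mem_product.2 ⟨mem_univ _, ih⟩, rfl⟩

theorem Prob_sum_le' (h0 : 0 < p) (h1 : p < 1) {ι : Type*} (F : Finset ι) (w : ι → ℝ)
    (A : ι → SimpleGraph (Fin n) → Prop) (B : SimpleGraph (Fin n) → Prop)
    [∀ i G, Decidable (A i G)] {C : ℝ}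
    (h : ∀ G, B G → ∑ i ∈ F, (if A i G then w i else 0) ≤ C) :
    ∑ i ∈ F, w i * Prob p (fun G => A i G ∧ B G) ≤ C * Prob p B := by
  classical
  have e1 : ∑ i ∈ F, w i * Prob p (fun G => A i G ∧ B G)
      = ∑ G : SimpleGraph (Fin n), (if B G then weight p G else 0)
        * ∑ i ∈ F, (if A i G then w i else 0) := by
    unfold Prob
    simp only [mul_sum]
    rw [sum_comm]
    refine sum_congr rfl fun G _ => sum_congr rfl fun i _ => ?_
    by_cases hA : A i G <;> by_cases hB : B G <;> simp [hA, hB, mul_comm]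
  rw [e1]
  unfold Prob
  rw [mul_sum]
  refine sum_le_sum fun G _ => ?_
  by_cases hB : B G
  · rw [if_pos hB, mul_comm]
    exact mul_le_mul_of_nonneg_right (h G hB) (weight_nonneg h0 h1 G)
  · rw [if_neg hB, zero_mul, mul_zero]

theorem sum_chain_le (h0 : 0 < p) (h1 : p < 1) (hE : Adapted E φ) (hsD : 1 ≤ s * D)
    (hn : 1 ≤ n) (j : ℕ) :
    ∑ l ∈ allc n j, (((2 * (s * D) : ℕ) : ℝ)⁻¹ ^ (hd l).card * (1 - p)⁻¹ ^ qq φ l)
        * Prob p (fun G => Val E φ D k s G l)
      ≤ ((s + 1) * (k + 1) * (n : ℝ) ^ k) ^ j := by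
  classical
  have hq0 : 0 < 1 - p := by linarith
  set x : ℝ := ((2 * (s * D) : ℕ) : ℝ) with hx
  set b : ℝ := (1 - p)⁻¹ with hb
  set Γ : ℝ := (s + 1) * (k + 1) * (n : ℝ) ^ k with hΓ
  have hx0 : 0 ≤ x := Nat.cast_nonneg _
  have hb0 : 0 ≤ b := by positivity
  have hΓ0 : 0 ≤ Γ := by positivity
  induction j with
  | zero =>
    rw [allc, sum_singleton, pow_zero]
    have : (fun G : SimpleGraph (Fin n) => Val E φ D k s G []) = fun _ => True := rfl
    rw [this, Prob_true h1]
    simp [hd, qq]
  | succ j ih =>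
    rw [allc, sum_image (by
      rintro ⟨U, l⟩ _ ⟨U', l'⟩ _ h
      simp only [List.cons.injEq] at h
      exact Prod.ext h.1 h.2), sum_product_right]
    calc ∑ l ∈ allc n j, ∑ U : Finset (Fin n),
          (x⁻¹ ^ (hd (U :: l)).card * b ^ qq φ (U :: l))
            * Prob p (fun G => Val E φ D k s G (U :: l))
        ≤ ∑ l ∈ allc n j, Γ * ((x⁻¹ ^ (hd l).card * b ^ qq φ l)
            * Prob p (fun G => Val E φ D k s G l)) := by
          refine sum_le_sum fun l hl => ?_
          have hlen := length_of_mem_allc hl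
          set F := newp φ l.length (hd l) with hF
          have hfree : Prob p (fun G : SimpleGraph (Fin n) => Val E φ D k s G l ∧
              ∀ e ∈ F, e ∉ G.edgeSet) = Prob p (fun G => Val E φ D k s G l)
                * (1 - p) ^ F.card := by
            rw [Prob_and_no_edges (fun G : SimpleGraph (Fin n) => Val E φ D k s G l) F, mul_comm]
            intro u v huv
            rw [hF, mem_newp, mem_prs] at huv
            refine ⟨huv.1.1, fun G => ?_⟩
            exact val_free hE huv.1.1 G l huv.2.ge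
          have hmain := Prob_sum_le' (p := p) h0 h1 (univ : Finset (Finset (Fin n)))
            (fun U => x⁻¹ ^ U.card)
            (fun U G => GrowTo (E (l.length + 1) G) D k (hd l) U ∧ U.card ≤ s)
            (fun G => Val E φ D k s G l ∧ ∀ e ∈ F, e ∉ G.edgeSet)
            (C := Γ * x⁻¹ ^ (hd l).card) (fun G _ => by
              have := sum_growTo_le (K := E (l.length + 1) G) (k := k) hsD hn (hd l)
              rw [← hx, ← hΓ] at this
              exact this)
          rw [hfree] at hmain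
          have hcalc : ∑ U : Finset (Fin n), (x⁻¹ ^ (hd (U :: l)).card * b ^ qq φ (U :: l))
              * Prob p (fun G => Val E φ D k s G (U :: l))
              = (b ^ qq φ l * b ^ F.card) * ∑ U : Finset (Fin n), x⁻¹ ^ U.card
                * Prob p (fun G => (GrowTo (E (l.length + 1) G) D k (hd l) U ∧ U.card ≤ s) ∧
                  (Val E φ D k s G l ∧ ∀ e ∈ F, e ∉ G.edgeSet)) := by
            rw [mul_sum]
            refine sum_congr rfl fun U _ => ?_
            have e1 : Prob p (fun G => Val E φ D k s G (U :: l))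
                = Prob p (fun G => (GrowTo (E (l.length + 1) G) D k (hd l) U ∧ U.card ≤ s) ∧
                  (Val E φ D k s G l ∧ ∀ e ∈ F, e ∉ G.edgeSet)) := by
              refine Prob_congr fun G => ⟨?_, ?_⟩
              · rintro ⟨a1, a2, a3⟩
                exact ⟨a1, a3, a2⟩
              · rintro ⟨a1, a2, a3⟩
                exact ⟨a1, a3, a2⟩
            rw [e1]
            have e2 : qq φ (U :: l) = qq φ l + F.card := rfl
            rw [e2, pow_add]
            change (x⁻¹ ^ U.card * _) * _ = _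
            ring
          rw [hcalc]
          have hbF : b ^ F.card * (1 - p) ^ F.card = 1 := by
            rw [← mul_pow, hb, inv_mul_cancel₀ hq0.ne', one_pow]
          calc (b ^ qq φ l * b ^ F.card) * ∑ U : Finset (Fin n), x⁻¹ ^ U.card
                * Prob p (fun G => (GrowTo (E (l.length + 1) G) D k (hd l) U ∧ U.card ≤ s) ∧
                  (Val E φ D k s G l ∧ ∀ e ∈ F, e ∉ G.edgeSet))
              ≤ (b ^ qq φ l * b ^ F.card) * (Γ * x⁻¹ ^ (hd l).card *
                (Prob p (fun G => Val E φ D k s G l) * (1 - p) ^ F.card)) :=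
                mul_le_mul_of_nonneg_left hmain (by positivity)
            _ = (b ^ F.card * (1 - p) ^ F.card) * (Γ * ((x⁻¹ ^ (hd l).card * b ^ qq φ l)
                * Prob p (fun G => Val E φ D k s G l))) := by ring
            _ = _ := by rw [hbF, one_mul]
      _ = Γ * ∑ l ∈ allc n j, (x⁻¹ ^ (hd l).card * b ^ qq φ l)
            * Prob p (fun G => Val E φ D k s G l) := by rw [mul_sum]
      _ ≤ Γ * Γ ^ j := mul_le_mul_of_nonneg_left ih hΓ0
      _ = _ := by ring

/-- the probability that there is a chain which requires many pairs -/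
theorem prob_chain_le (h0 : 0 < p) (h1 : p < 1) (hE : Adapted E φ) (hsD : 1 ≤ s * D)
    (hn : 1 ≤ n) (j q0 : ℕ) :
    Prob p (fun G => ∃ l : List (Finset (Fin n)), l.length = j ∧ (hd l).card ≤ s ∧
        q0 ≤ qq φ l ∧ Val E φ D k s G l)
      ≤ ((s + 1) * (k + 1) * (n : ℝ) ^ k) ^ j * ((2 * (s * D) : ℕ) : ℝ) ^ s
        * (1 - p) ^ q0 := by
  classical
  have hq0 : 0 < 1 - p := by linarith
  set x : ℝ := ((2 * (s * D) : ℕ) : ℝ) with hx
  have hx1 : 1 ≤ x := by
    rw [hx]
    exact_mod_cast (by omega : 1 ≤ 2 * (s * D))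
  have hx0 : 0 < x := by linarith
  set b : ℝ := (1 - p)⁻¹ with hb
  have hb1 : 1 ≤ b := by
    rw [hb]
    exact (one_le_inv₀ hq0).2 (by linarith)
  set B : Finset (List (Finset (Fin n))) :=
    (allc n j).filter fun l => (hd l).card ≤ s ∧ q0 ≤ qq φ l with hB
  have hmain := sum_chain_le (k := k) h0 h1 hE hsD hn j
  rw [← hx, ← hb] at hmain
  have hbx : 0 < x ^ s * (1 - p) ^ q0 := by positivity
  calc Prob p (fun G => ∃ l : List (Finset (Fin n)), l.length = j ∧ (hd l).card ≤ s ∧
        q0 ≤ qq φ l ∧ Val E φ D k s G l)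
      ≤ Prob p (fun G => ∃ l ∈ B, Val E φ D k s G l) := by
        refine Prob_mono h0 h1 fun G hG => ?_
        obtain ⟨l, h2, h3, h4, h5⟩ := hG
        exact ⟨l, mem_filter.2 ⟨h2 ▸ mem_allc l, h3, h4⟩, h5⟩
    _ ≤ ∑ l ∈ B, Prob p (fun G => Val E φ D k s G l) := Prob_exists h0 h1 _ _
    _ ≤ ∑ l ∈ B, (x ^ s * (1 - p) ^ q0) * ((x⁻¹ ^ (hd l).card * b ^ qq φ l)
        * Prob p (fun G => Val E φ D k s G l)) := by
        refine sum_le_sum fun l hl => ?_
        obtain ⟨_, h2, h3⟩ := mem_filter.1 hl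
        have hP := Prob_nonneg h0 h1 (fun G => Val E φ D k s G l)
        have e1 : 1 ≤ x ^ s * x⁻¹ ^ (hd l).card := by
          have h4 : x ^ s = x ^ (s - (hd l).card) * x ^ (hd l).card := by
            rw [← pow_add, Nat.sub_add_cancel h2]
          rw [h4, mul_assoc, ← mul_pow, mul_inv_cancel₀ hx0.ne', one_pow, mul_one]
          exact one_le_pow₀ hx1
        have e2 : 1 ≤ (1 - p) ^ q0 * b ^ qq φ l := by
          have h4 : b ^ qq φ l = b ^ (qq φ l - q0) * b ^ q0 := by
            rw [← pow_add, Nat.sub_add_cancel h3]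
          have h5 : (1 - p) ^ q0 * b ^ q0 = 1 := by
            rw [← mul_pow, hb, mul_inv_cancel₀ hq0.ne', one_pow]
          calc (1 : ℝ) ≤ b ^ (qq φ l - q0) := one_le_pow₀ hb1
            _ = b ^ (qq φ l - q0) * ((1 - p) ^ q0 * b ^ q0) := by rw [h5, mul_one]
            _ = _ := by rw [h4]; ring
        have e3 : 1 ≤ (x ^ s * x⁻¹ ^ (hd l).card) * ((1 - p) ^ q0 * b ^ qq φ l) :=
          one_le_mul_of_one_le_of_one_le e1 e2
        calc Prob p (fun G => Val E φ D k s G l)
            = 1 * Prob p (fun G => Val E φ D k s G l) := (one_mul _).symm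
          _ ≤ ((x ^ s * x⁻¹ ^ (hd l).card) * ((1 - p) ^ q0 * b ^ qq φ l))
              * Prob p (fun G => Val E φ D k s G l) := mul_le_mul_of_nonneg_right e3 hP
          _ = _ := by ring
    _ = (x ^ s * (1 - p) ^ q0) * ∑ l ∈ B, (x⁻¹ ^ (hd l).card * b ^ qq φ l)
        * Prob p (fun G => Val E φ D k s G l) := by rw [mul_sum]
    _ ≤ (x ^ s * (1 - p) ^ q0) * ∑ l ∈ allc n j, (x⁻¹ ^ (hd l).card * b ^ qq φ l)
        * Prob p (fun G => Val E φ D k s G l) := by
        refine mul_le_mul_of_nonneg_left ?_ hbx.le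
        refine sum_le_sum_of_subset_of_nonneg (filter_subset _ _) fun l _ _ => ?_
        have hP := Prob_nonneg h0 h1 (fun G => Val E φ D k s G l)
        have : 0 ≤ b := by linarith
        positivity
    _ ≤ (x ^ s * (1 - p) ^ q0) * ((s + 1) * (k + 1) * (n : ℝ) ^ k) ^ j :=
        mul_le_mul_of_nonneg_left hmain hbx.le
    _ = _ := by ring

end Pool.Agent.SD81
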