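import Pool.Agent.SD81.Chain

/-!
Every set whose revealed pairs are almost all known has a chain which requires almost all of its
pairs.
-/

set_option autoImplicit false

namespace Pool.Agent.SD81

open Finset Pool.Agent.H85.Online

variable {n : ℕ} {p : ℝ}

theorem Grow.add_nbrs {K : SimpleGraph (Fin n)} {D c r : ℕ} {U T : Finset (Fin n)}
    (hG : Grow K D c r U T) {v : Fin n} (hv : v ∈ T) (hD : (nbh K v).card ≤ D)
    (X : Finset (Fin n)) (hX : ∀ u ∈ X, K.Adj v u) (hd : Disjoint X T) :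
    Grow K D (c + X.card) r U (T ∪ X) := by
  classical
  induction X using Finset.induction_on with
  | empty => simpa using hG
  | insert a X ha ih =>
    rw [disjoint_insert_left] at hd
    have h := ih (fun u hu => hX u (mem_insert_of_mem hu)) hd.2
    rw [card_insert_of_notMem ha, ← add_assoc]
    refine ⟨T ∪ X, a, ?_, ?_, Or.inl ⟨v, mem_union_left _ hv, hD, hX a (mem_insert_self _ _), h⟩⟩
    · rw [mem_union, not_or]
      exact ⟨hd.1, ha⟩
    · rw [union_insert]

open Classical in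
theorem exists_ext (K : SimpleGraph (Fin n)) (D h : ℕ) {S U : Finset (Fin n)} (hU : U ⊆ S)
    (hdeg : ∀ v ∈ S, (nbh K v).card ≤ D) : ∃ T, T ⊆ S ∧
      (∃ c r, Grow K D c r U T ∧ r * h ≤ c) ∧ (∀ v ∈ S, v ∉ T → ∀ w ∈ T, ¬ K.Adj w v) ∧
      ∀ v ∈ S, v ∉ T → ((S \ T).filter fun u => K.Adj v u).card < h := by
  set F : Finset (Finset (Fin n)) :=
    S.powerset.filter fun T => ∃ c r, Grow K D c r U T ∧ r * h ≤ c with hF
  have hne : F.Nonempty :=
    ⟨U, mem_filter.2 ⟨mem_powerset.2 hU, 0, 0, ⟨rfl, rfl⟩, by omega⟩⟩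
  obtain ⟨T, hT, hmax⟩ := F.exists_max_image (fun T => T.card) hne
  obtain ⟨hTS, c, r, hG, hr⟩ := mem_filter.1 hT
  rw [mem_powerset] at hTS
  refine ⟨T, hTS, ⟨c, r, hG, hr⟩, ?_, ?_⟩
  · intro v hv hvT w hw hadj
    have h1 : insert v T ∈ F := by
      refine mem_filter.2 ⟨mem_powerset.2 (insert_subset hv hTS), c + 1, r,
        ⟨T, v, hvT, rfl, Or.inl ⟨w, hw, hdeg w (hTS hw), hadj, hG⟩⟩, by omega⟩
    have h2 := hmax _ h1
    rw [card_insert_of_notMem hvT] at h2
    omega
  · intro v hv hvT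
    by_contra hcon
    rw [not_lt] at hcon
    obtain ⟨X, hX, hXc⟩ := exists_subset_card_eq hcon
    have h1 : Grow K D (c + 1) (r + 1) U (insert v T) :=
      ⟨T, v, hvT, rfl, Or.inr ⟨r, rfl, hG⟩⟩
    have hXd : Disjoint X (insert v T) := by
      rw [disjoint_left]
      intro u hu hu2
      obtain ⟨h3, h4⟩ := mem_filter.1 (hX hu)
      rcases mem_insert.1 hu2 with rfl | h5
      · exact h4.ne rfl
      · exact (mem_sdiff.1 h3).2 h5
    have h2 := h1.add_nbrs (mem_insert_self _ _) (hdeg v hv) X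
      (fun u hu => (mem_filter.1 (hX hu)).2) hXd
    have h3 : insert v T ∪ X ∈ F := by
      refine mem_filter.2 ⟨mem_powerset.2 (union_subset (insert_subset hv hTS) ?_), _, _, h2, ?_⟩
      · intro u hu
        exact (mem_sdiff.1 (mem_filter.1 (hX hu)).1).1
      · rw [hXc]
        have : (r + 1) * h = r * h + h := by ring
        omega
    have h4 := hmax _ h3
    have h5 : (insert v T).card ≤ (insert v T ∪ X).card := card_le_card subset_union_left
    rw [card_insert_of_notMem hvT] at h5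
    omega

open Classical in
theorem unattached_le {K : SimpleGraph (Fin n)} {h e0 j : ℕ} {S T : Finset (Fin n)}
    {φ : Sym2 (Fin n) → ℕ} (hK : ∀ v ∈ S, v ∉ T → ∀ w ∈ T, ¬ K.Adj w v)
    (hc : ∀ v ∈ S, v ∉ T → ((S \ T).filter fun u => K.Adj v u).card < h)
    (hu : ((prs S).filter fun e => φ e < j ∧ e ∉ K.edgeSet).card ≤ e0) :
    ((prs S).filter fun e => φ e < j ∧ e ∉ prs T).card ≤ S.card * h + e0 := by
  have hsub : ((prs S).filter fun e => φ e < j ∧ e ∉ prs T) ⊆
      ((S \ T).biUnion fun v => ((S \ T).filter fun u => K.Adj v u).image fun u => s(v, u)) ∪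
        ((prs S).filter fun e => φ e < j ∧ e ∉ K.edgeSet) := by
    intro e he
    obtain ⟨h1, h2, h3⟩ := mem_filter.1 he
    by_cases h4 : e ∈ K.edgeSet
    · refine mem_union_left _ ?_
      induction e using Sym2.ind with
      | _ u v =>
      rw [SimpleGraph.mem_edgeSet] at h4
      rw [mem_prs] at h1 h3
      have huT : u ∉ T := by
        intro huT
        by_cases hvT : v ∈ T
        · exact h3 ⟨h1.1, huT, hvT⟩
        · exact hK v h1.2.2 hvT u huT h4
      have hvT : v ∉ T := by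
        intro hvT
        exact hK u h1.2.1 huT v hvT h4.symm
      exact mem_biUnion.2 ⟨u, mem_sdiff.2 ⟨h1.2.1, huT⟩, mem_image.2
        ⟨v, mem_filter.2 ⟨mem_sdiff.2 ⟨h1.2.2, hvT⟩, h4⟩, rfl⟩⟩
    · exact mem_union_right _ (mem_filter.2 ⟨h1, h2, h4⟩)
  refine (card_le_card hsub).trans ((card_union_le _ _).trans (add_le_add ?_ hu))
  refine (card_biUnion_le_card_mul _ _ h fun v hv => ?_).trans ?_
  · obtain ⟨h1, h2⟩ := mem_sdiff.1 hv
    exact card_image_le.trans (hc v h1 h2).le
  · exact Nat.mul_le_mul_right _ (card_le_card sdiff_subset)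

/-- the chain made of the sets `U j, …, U 1` -/
def lst (U : ℕ → Finset (Fin n)) : ℕ → List (Finset (Fin n))
  | 0 => []
  | j + 1 => U (j + 1) :: lst U j

theorem length_lst (U : ℕ → Finset (Fin n)) (j : ℕ) : (lst U j).length = j := by
  induction j with
  | zero => rfl
  | succ j ih => rw [lst, List.length_cons, ih]

theorem hd_lst {U : ℕ → Finset (Fin n)} (hU : U 0 = ∅) (j : ℕ) : hd (lst U j) = U j := by
  cases j with
  | zero => exact hU.symm
  | succ j => rfl

theorem qq_lst {U : ℕ → Finset (Fin n)} (hU : U 0 = ∅) (φ : Sym2 (Fin n) → ℕ) (j : ℕ) :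
    qq φ (lst U j) = ∑ i ∈ range j, (newp φ i (U i)).card := by
  induction j with
  | zero => rfl
  | succ j ih =>
    rw [sum_range_succ, ← ih, lst, qq, length_lst, hd_lst hU]

theorem val_lst {U : ℕ → Finset (Fin n)} (hU : U 0 = ∅)
    {E : ℕ → SimpleGraph (Fin n) → SimpleGraph (Fin n)} {φ : Sym2 (Fin n) → ℕ} {D k s : ℕ}
    {G : SimpleGraph (Fin n)} {S : Finset (Fin n)} (hS : S.card ≤ s)
    (hind : ∀ e ∈ prs S, e ∉ G.edgeSet) (hUS : ∀ j, U j ⊆ S) (j : ℕ)
    (hg : ∀ i < j, GrowTo (E (i + 1) G) D k (U i) (U (i + 1))) :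
    Val E φ D k s G (lst U j) := by
  induction j with
  | zero => trivial
  | succ j ih =>
    refine ⟨⟨?_, ?_⟩, ?_, ih fun i hi => hg i (by omega)⟩
    · rw [length_lst, hd_lst hU]
      exact hg j (by omega)
    · exact (card_le_card (hUS _)).trans hS
    · rw [length_lst, hd_lst hU]
      intro e he
      exact hind e (prs_mono (hUS j) (mem_newp.1 he).1)

/-- For every labelling of the vertices of a set `S` of size `s` at most `κ` pairs of `S` have
the phase before the label of one of their ends. -/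
def Spread (φ : Sym2 (Fin n) → ℕ) (s κ : ℕ) : Prop :=
  ∀ S : Finset (Fin n), S.card = s → ∀ f : Fin n → ℕ,
    {e ∈ (prs S : Set (Sym2 (Fin n))) | ∃ v ∈ e, f v = φ e + 1}.ncard ≤ κ

open Classical in
theorem exists_chain {E : ℕ → SimpleGraph (Fin n) → SimpleGraph (Fin n)}
    {φ : Sym2 (Fin n) → ℕ} {D s m h κ e0 : ℕ} (hh : 0 < h) {G : SimpleGraph (Fin n)}
    {S : Finset (Fin n)} (hS : S.card = s) (hφ : ∀ e ∈ prs S, φ e < m) (hsp : Spread φ s κ)
    (hdeg : ∀ j, j ≤ m → ∀ v ∈ S, (nbh (E j G) v).card ≤ D)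
    (hunk : ∀ j, j ≤ m →
      ((prs S).filter fun e => φ e < j ∧ e ∉ (E j G).edgeSet).card ≤ e0)
    (hind : ∀ e ∈ prs S, e ∉ G.edgeSet) :
    ∃ l : List (Finset (Fin n)), l.length = m ∧ (hd l).card ≤ s ∧
      s.choose 2 ≤ qq φ l + (κ + m * (s * h + e0)) ∧ Val E φ D (s / h) s G l := by
  have hstep : ∀ (j : ℕ) (A : Finset (Fin n)), ∃ T : Finset (Fin n), A ⊆ S → j < m →
      T ⊆ S ∧ (∃ c r, Grow (E (j + 1) G) D c r A T ∧ r * h ≤ c) ∧
      (∀ v ∈ S, v ∉ T → ∀ w ∈ T, ¬ (E (j + 1) G).Adj w v) ∧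
      ∀ v ∈ S, v ∉ T → ((S \ T).filter fun u => (E (j + 1) G).Adj v u).card < h := by
    intro j A
    by_cases hA : A ⊆ S
    · by_cases hj : j < m
      · obtain ⟨T, hT⟩ := exists_ext (E (j + 1) G) D h hA (hdeg (j + 1) hj)
        exact ⟨T, fun _ _ => hT⟩
      · exact ⟨∅, fun _ h => absurd h hj⟩
    · exact ⟨∅, fun h => absurd h hA⟩
  choose F hF using hstep
  set U : ℕ → Finset (Fin n) := fun j => Nat.rec ∅ (fun i A => if i < m then F i A else A) j
    with hUdef
  have hU0 : U 0 = ∅ := rfl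
  have hUs : ∀ j, j < m → U (j + 1) = F j (U j) := by
    intro j hj
    change (if j < m then F j (U j) else U j) = _
    rw [if_pos hj]
  have hUs' : ∀ j, ¬ j < m → U (j + 1) = U j := by
    intro j hj
    change (if j < m then F j (U j) else U j) = _
    rw [if_neg hj]
  have hUS : ∀ j, U j ⊆ S := by
    intro j
    induction j with
    | zero => exact empty_subset _
    | succ j ih =>
      by_cases hj : j < m
      · rw [hUs j hj]
        exact (hF j (U j) ih hj).1
      · rw [hUs' j hj]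
        exact ih
  have hmono : ∀ i j, i ≤ j → U i ⊆ U j := by
    intro i j hij
    induction j, hij using Nat.le_induction with
    | base => exact Subset.rfl
    | succ j _ ih =>
      refine ih.trans ?_
      by_cases hj : j < m
      · obtain ⟨c, r, hG, _⟩ := (hF j (U j) (hUS j) hj).2.1
        rw [hUs j hj]
        exact hG.subset
      · rw [hUs' j hj]
  refine ⟨lst U m, length_lst U m, ?_, ?_, ?_⟩
  · rw [hd_lst hU0, ← hS]
    exact card_le_card (hUS m)
  · have hcS : s.choose 2 = (prs S).card := by rw [card_prs, hS]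
    rw [qq_lst hU0, hcS]
    set bad : Finset (Sym2 (Fin n)) := (prs S).filter fun e => e ∉ prs (U (φ e)) with hbad
    set f : Fin n → ℕ := fun v => if hv : ∃ i, v ∈ U i then Nat.find hv else m + 1 with hf
    set B1 : Finset (Sym2 (Fin n)) := (prs S).filter fun e => ∃ v ∈ e, f v = φ e + 1 with hB1
    set N : ℕ → Finset (Sym2 (Fin n)) := fun j =>
      (prs S).filter fun e => φ e < j + 1 ∧ e ∉ prs (U (j + 1)) with hN
    have hB1c : B1.card ≤ κ := by
      have h1 := hsp S hS f
      have h2 : {e ∈ (prs S : Set (Sym2 (Fin n))) | ∃ v ∈ e, f v = φ e + 1} = (B1 : Set _) := by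
        ext e
        simp [hB1]
      rw [h2, Set.ncard_coe_finset] at h1
      exact h1
    have hNc : ∀ j < m, (N j).card ≤ s * h + e0 := by
      intro j hj
      have h1 := hF j (U j) (hUS j) hj
      have h2 := unattached_le (φ := φ) h1.2.2.1 h1.2.2.2 (hunk (j + 1) hj)
      rw [hS, ← hUs j hj] at h2
      exact h2
    have hfind : ∀ (v : Fin n) (i : ℕ), v ∉ U i → v ∈ U (i + 1) → f v = i + 1 := by
      intro v i h1 h2
      have hex : ∃ i, v ∈ U i := ⟨i + 1, h2⟩
      have h3 : f v = Nat.find hex := by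
        rw [hf]
        exact dif_pos hex
      rw [h3, Nat.find_eq_iff]
      refine ⟨h2, fun i' hi' h4 => h1 (hmono i' i (by omega) h4)⟩
    have hbadsub : bad ⊆ B1 ∪ (range m).biUnion N := by
      intro e he
      obtain ⟨h1, h2⟩ := mem_filter.1 he
      have h3 := hφ e h1
      by_cases h4 : e ∈ prs (U (φ e + 1))
      · refine mem_union_left _ (mem_filter.2 ⟨h1, ?_⟩)
        induction e using Sym2.ind with
        | _ u v =>
        rw [mem_prs] at h2 h4
        by_cases hu : u ∈ U (φ s(u, v))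
        · have hv : v ∉ U (φ s(u, v)) := fun hv => h2 ⟨h4.1, hu, hv⟩
          exact ⟨v, Sym2.mem_mk_right u v, hfind v _ hv h4.2.2⟩
        · exact ⟨u, Sym2.mem_mk_left u v, hfind u _ hu h4.2.1⟩
      · refine mem_union_right _ (mem_biUnion.2 ⟨φ e, mem_range.2 h3, mem_filter.2
          ⟨h1, Nat.lt_succ_self _, h4⟩⟩)
    have hbadc : bad.card ≤ κ + m * (s * h + e0) := by
      refine (card_le_card hbadsub).trans ((card_union_le _ _).trans (add_le_add hB1c ?_))
      refine (card_biUnion_le_card_mul _ _ _ fun j hj => hNc j (mem_range.1 hj)).trans ?_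
      rw [card_range]
    have hprs : prs S ⊆ (range m).biUnion (fun i => newp φ i (U i)) ∪ bad := by
      intro e he
      by_cases h1 : e ∈ prs (U (φ e))
      · exact mem_union_left _ (mem_biUnion.2 ⟨φ e, mem_range.2 (hφ e he),
          mem_newp.2 ⟨h1, rfl⟩⟩)
      · exact mem_union_right _ (mem_filter.2 ⟨he, h1⟩)
    calc (prs S).card ≤ ((range m).biUnion (fun i => newp φ i (U i)) ∪ bad).card :=
          card_le_card hprs
      _ ≤ ((range m).biUnion (fun i => newp φ i (U i))).card + bad.card := card_union_le _ _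
      _ ≤ _ := add_le_add card_biUnion_le hbadc
  · refine val_lst hU0 hS.le hind hUS m fun i hi => ?_
    obtain ⟨c, r, hG, hr⟩ := (hF i (U i) (hUS i) hi).2.1
    rw [hUs i hi]
    refine ⟨c, r, ?_, hG⟩
    have h1 := hG.card
    have h2 : (F i (U i)).card ≤ s := by
      rw [← hS, ← hUs i hi]
      exact card_le_card (hUS (i + 1))
    rw [Nat.le_div_iff_mul_le hh]
    omega

/-- The core estimate: the probability that there is an independent set with `s` vertices, all of
small degree in the graphs `E j G`, all but `e0` of whose pairs of the phases before `j` are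
edges of `E j G`. -/
theorem core (h0 : 0 < p) (h1 : p < 1) {E : ℕ → SimpleGraph (Fin n) → SimpleGraph (Fin n)}
    {φ : Sym2 (Fin n) → ℕ} {D s m h κ e0 : ℕ} (hE : Adapted E φ) (hsD : 1 ≤ s * D)
    (hn : 1 ≤ n) (hh : 0 < h) (hφ : ∀ e, ¬ e.IsDiag → φ e < m) (hsp : Spread φ s κ) :
    Prob p (fun G => ∃ S : Finset (Fin n), S.card = s ∧ (∀ e ∈ prs S, e ∉ G.edgeSet) ∧
        ∀ j, j ≤ m → (∀ v ∈ S, (nbh (E j G) v).card ≤ D) ∧
          {e ∈ (prs S : Set (Sym2 (Fin n))) | φ e < j ∧ e ∉ (E j G).edgeSet}.ncard ≤ e0)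
      ≤ ((s + 1) * ((s / h : ℕ) + 1) * (n : ℝ) ^ (s / h)) ^ m * ((2 * (s * D) : ℕ) : ℝ) ^ s
        * (1 - p) ^ (s.choose 2 - (κ + m * (s * h + e0))) := by
  classical
  refine le_trans (Prob_mono h0 h1 fun G hG => ?_) (prob_chain_le (k := s / h) h0 h1 hE hsD hn m
    (s.choose 2 - (κ + m * (s * h + e0))))
  obtain ⟨S, hS, hind, hj⟩ := hG
  obtain ⟨l, h2, h3, h4, h5⟩ := exists_chain (E := E) (φ := φ) (D := D) (m := m) (κ := κ)
    (e0 := e0) hh (G := G) hS (fun e he => hφ e (by
      induction e using Sym2.ind with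
      | _ u v =>
      rw [mem_prs] at he
      rw [Sym2.mk_isDiag_iff]
      exact he.1)) hsp (fun j hjm => (hj j hjm).1) (fun j hjm => by
        have h2 := (hj j hjm).2
        have h3 : {e ∈ (prs S : Set (Sym2 (Fin n))) | φ e < j ∧ e ∉ (E j G).edgeSet}
            = (((prs S).filter fun e => φ e < j ∧ e ∉ (E j G).edgeSet : Finset _) : Set _) := by
          ext e
          simp
        rw [h3, Set.ncard_coe_finset] at h2
        exact h2) hind
  exact ⟨l, h2, h3, by omega, h5⟩

end Pool.Agent.SD81
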