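import Pool.Agent.SD81.Split
import Pool.Agent.SD81.Struct

/-!
The phases of an order, and the number of colours on a graph outside the exceptional events.
-/

set_option autoImplicit false

namespace Pool.Agent.SD81

open Finset Pool.Agent.H85.Online Pool.Agent.SB81 Pool.Agent.H72.Karp

variable {n : ℕ} {Q : Type} {p : ℝ}

/-- the phase of a pair, when the order is cut into phases of length `B` -/
def ph (l : List (Sym2 (Fin n))) (B : ℕ) (e : Sym2 (Fin n)) : ℕ := l.idxOf e / B

theorem mem_Rt_iff {l : List (Sym2 (Fin n))} {B : ℕ} (hB : 0 < B) {j : ℕ} {e : Sym2 (Fin n)}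
    (he : e ∈ l) : e ∈ Rt l (j * B) ↔ ph l B e < j := by
  rw [mem_Rt, List.mem_take_iff_idxOf_lt he, ph, Nat.div_lt_iff_lt_mul hB]

theorem ph_lt {l : List (Sym2 (Fin n))} {B m : ℕ} (hB : 0 < B) (hm : l.length ≤ m * B)
    {e : Sym2 (Fin n)} (he : e ∈ l) : ph l B e < m := by
  rw [ph, Nat.div_lt_iff_lt_mul hB]
  exact (List.idxOf_lt_length_of_mem he).trans_le hm

theorem card_bad_le (K : SimpleGraph (Fin n)) (D : ℕ) :
    (univ.filter fun v => D < (nbh K v).card).card * D ≤ 2 * K.edgeSet.ncard := by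
  classical
  have h1 := K.sum_degrees_eq_twice_card_edges
  have h2 : K.edgeFinset.card = K.edgeSet.ncard := by
    rw [← SimpleGraph.coe_edgeFinset, Set.ncard_coe_finset]
  rw [← h2, ← h1]
  have h3 : ∀ v, K.degree v = (nbh K v).card := by
    intro v
    unfold SimpleGraph.degree
    congr 1
    ext u
    rw [SimpleGraph.mem_neighborFinset, mem_nbh]
  calc (univ.filter fun v => D < (nbh K v).card).card * D
      = ∑ v ∈ univ.filter fun v => D < (nbh K v).card, D := by
        rw [sum_const, smul_eq_mul]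
    _ ≤ ∑ v ∈ univ.filter fun v => D < (nbh K v).card, K.degree v := by
        refine sum_le_sum fun v hv => ?_
        rw [h3]
        exact (mem_filter.1 hv).2.le
    _ ≤ ∑ v, K.degree v := sum_le_sum_of_subset (filter_subset _ _)

theorem card_deg_le (F : Finset (Sym2 (Fin n))) (D : ℕ) :
    (univ.filter fun v => D < (nbh (SimpleGraph.fromEdgeSet (F : Set (Sym2 (Fin n)))) v).card).card
      * D ≤ 2 * F.card := by
  refine (card_bad_le _ D).trans (Nat.mul_le_mul_left 2 ?_)
  rw [SimpleGraph.edgeSet_fromEdgeSet, ← Set.ncard_coe_finset]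
  exact Set.ncard_le_ncard (fun e he => he.1) (Set.toFinite _)

theorem mem_fromEdgeSet {F : Finset (Sym2 (Fin n))} {u v : Fin n} (huv : u ≠ v) :
    s(u, v) ∈ (SimpleGraph.fromEdgeSet (F : Set (Sym2 (Fin n)))).edgeSet ↔ s(u, v) ∈ F := by
  rw [SimpleGraph.mem_edgeSet, SimpleGraph.fromEdgeSet_adj]
  simp [huv]

/-- the exceptional event of the core estimate -/
def Ex (E : ℕ → SimpleGraph (Fin n) → SimpleGraph (Fin n)) (φ : Sym2 (Fin n) → ℕ)
    (s m D e0 : ℕ) (G : SimpleGraph (Fin n)) : Prop :=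
  ∃ S : Finset (Fin n), S.card = s ∧ (∀ e ∈ prs S, e ∉ G.edgeSet) ∧
    ∀ j, j ≤ m → (∀ v ∈ S, (nbh (E j G) v).card ≤ D) ∧
      {e ∈ (prs S : Set (Sym2 (Fin n))) | φ e < j ∧ e ∉ (E j G).edgeSet}.ncard ≤ e0

theorem colours_ge {l : List (Sym2 (Fin n))} (hl : IsOrder l) {B : ℕ} (hB : 0 < B)
    {m D s r b0 e0 : ℕ} {G : SimpleGraph (Fin n)} {c : Fin n → ℕ}
    (hc : ∀ u v, G.Adj u v → c u ≠ c v) {F : ℕ → SimpleGraph (Fin n) → Finset (Sym2 (Fin n))}
    (h1 : ¬ Ex (fun j G => SimpleGraph.fromEdgeSet (F j G : Set (Sym2 (Fin n)))) (ph l B)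
      s m D e0 G)
    (h2 : ∀ j, j ≤ m → (mono (Rt l (j * B)) c \ F j G).card ≤ e0)
    (h3 : ∀ j, j ≤ m → (univ.filter fun v => D <
      (nbh (SimpleGraph.fromEdgeSet (F j G : Set (Sym2 (Fin n)))) v).card).card ≤ b0)
    (h4 : ∀ I : Finset (Fin n), Indep G I → I.card ≤ r) :
    n ≤ (univ.image c).card * s + (m + 1) * b0 * r := by
  classical
  set C := univ.image c with hC
  set cls : ℕ → Finset (Fin n) := fun i => univ.filter fun v => c v = i with hcls
  set bad : Finset (Fin n) := (range (m + 1)).biUnion fun j =>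
    univ.filter fun v => D <
      (nbh (SimpleGraph.fromEdgeSet (F j G : Set (Sym2 (Fin n)))) v).card with hbad
  have hbadc : bad.card ≤ (m + 1) * b0 := by
    refine (card_biUnion_le_card_mul _ _ b0 fun j hj => ?_).trans ?_
    · exact h3 j (by have := mem_range.1 hj; omega)
    · rw [card_range]
  have hindep : ∀ i, Indep G (cls i) := by
    intro i u hu v hv
    rw [mem_filter] at hu hv
    exact fun hadj => hc u v hadj (hu.2.trans hv.2.symm)
  have hkey : ∀ i, s ≤ (cls i).card → ∃ v ∈ bad, c v = i := by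
    intro i hi
    by_contra hcon
    push Not at hcon
    obtain ⟨S, hS, hSc⟩ := exists_subset_card_eq hi
    have hcol : ∀ u ∈ S, c u = i := fun u hu => (mem_filter.1 (hS hu)).2
    refine h1 ⟨S, hSc, ?_, fun j hj => ⟨?_, ?_⟩⟩
    · intro e he
      induction e using Sym2.ind with
      | _ u v =>
      rw [mem_prs] at he
      rw [SimpleGraph.mem_edgeSet]
      exact fun hadj => hc u v hadj ((hcol u he.2.1).trans (hcol v he.2.2).symm)
    · intro v hv
      by_contra hd
      refine hcon v ?_ (hcol v hv)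
      rw [hbad, mem_biUnion]
      exact ⟨j, mem_range.2 (by omega), mem_filter.2 ⟨mem_univ _, not_le.1 hd⟩⟩
    · refine le_trans ?_ (h2 j hj)
      rw [← Set.ncard_coe_finset]
      refine Set.ncard_le_ncard ?_ (Set.toFinite _)
      intro e he
      obtain ⟨he1, he2, he3⟩ := he
      induction e using Sym2.ind with
      | _ u v =>
      rw [mem_coe, mem_prs] at he1
      rw [mem_fromEdgeSet he1.1] at he3
      rw [mem_coe, mem_sdiff, mem_mono]
      refine ⟨⟨?_, (hcol u he1.2.1).trans (hcol v he1.2.2).symm⟩, he3⟩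
      rw [mem_Rt_iff hB ((hl.2 _).2 ?_)]
      · exact he2
      · rw [Sym2.mk_isDiag_iff]
        exact he1.1
  have hn : n = ∑ i ∈ C, (cls i).card := by
    have h := card_eq_sum_card_fiberwise (s := (univ : Finset (Fin n))) (t := C) (f := c)
      (fun v _ => mem_image_of_mem _ (mem_univ v))
    rw [card_univ, Fintype.card_fin] at h
    exact h
  have hlarge : (C.filter fun i => s ≤ (cls i).card).card ≤ (m + 1) * b0 := by
    refine le_trans ?_ hbadc
    refine le_trans (card_le_card (t := bad.image c) ?_) card_image_le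
    intro i hi
    obtain ⟨v, hv, hvi⟩ := hkey i (mem_filter.1 hi).2
    exact mem_image.2 ⟨v, hv, hvi⟩
  have h5 : ∑ i ∈ C, (cls i).card ≤ C.card * s + (m + 1) * b0 * r := by
    rw [← sum_filter_add_sum_filter_not C (fun i => s ≤ (cls i).card), add_comm]
    refine add_le_add ?_ ?_
    · calc ∑ i ∈ C.filter fun i => ¬ s ≤ (cls i).card, (cls i).card
          ≤ ∑ i ∈ C.filter fun i => ¬ s ≤ (cls i).card, s :=
            sum_le_sum fun i hi => (not_le.1 (mem_filter.1 hi).2).le
        _ = (C.filter fun i => ¬ s ≤ (cls i).card).card * s := by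
            rw [sum_const, smul_eq_mul]
        _ ≤ C.card * s := Nat.mul_le_mul_right _ (card_filter_le _ _)
    · calc ∑ i ∈ C.filter fun i => s ≤ (cls i).card, (cls i).card
          ≤ ∑ i ∈ C.filter fun i => s ≤ (cls i).card, r :=
            sum_le_sum fun i _ => h4 _ (hindep i)
        _ = (C.filter fun i => s ≤ (cls i).card).card * r := by
            rw [sum_const, smul_eq_mul]
        _ ≤ (m + 1) * b0 * r := Nat.mul_le_mul_right _ hlarge
  calc n = ∑ i ∈ C, (cls i).card := hn
    _ ≤ _ := h5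

/-- The finite form of the lower bound: an event outside of which the number of colours is large. -/
theorem finite_bound (h0 : 0 < p) (h1 : p < 1) {θ w : ℝ} (hθ : 1 - p < θ) (hθ1 : θ ≤ 1)
    (hw : 0 < w) (hw1 : w ≤ 1) [Fintype Q] (A : PassAlg n Q) {l : List (Sym2 (Fin n))}
    (hl : IsOrder l) {B m D s r b0 e0 h κ : ℕ} (hB : 0 < B) (hm : l.length ≤ m * B)
    (hn : 1 ≤ n) (hD : 1 ≤ D) (hs : 1 ≤ s) (hh : 0 < h) (hsp : Spread (ph l B) s κ)
    (hb0 : ∀ N : ℕ, (N : ℝ) * Real.log (θ / (1 - p)) ≤ Real.log (1 / w) → 2 * N / D ≤ b0) :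
    Prob p (fun G => (∀ u v, G.Adj u v → A.colour (A.run l G) u ≠ A.colour (A.run l G) v) ∧
        A.numColours l G * s + (m + 1) * b0 * r < n)
      ≤ (m + 1) * (θ ^ (e0 + 1) + Fintype.card Q * w)
        + (((s + 1) * ((s / h : ℕ) + 1) * (n : ℝ) ^ (s / h)) ^ m * ((2 * (s * D) : ℕ) : ℝ) ^ s
          * (1 - p) ^ (s.choose 2 - (κ + m * (s * h + e0)))
        + Prob p (fun G : SimpleGraph (Fin n) =>
            ¬ ∀ I : Finset (Fin n), Indep G I → I.card ≤ r)) := by
  classical
  have hex := fun j : ℕ => exists_known h0 h1 hθ hθ1 hw hw1 A hl (j * B)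
  choose F hF1 hF2 hF3 hF4 using hex
  set E : ℕ → SimpleGraph (Fin n) → SimpleGraph (Fin n) :=
    fun j G => SimpleGraph.fromEdgeSet (F j G : Set (Sym2 (Fin n))) with hE
  have hadapt : Adapted E (ph l B) := by
    intro j u v huv hj G
    have hmem : s(u, v) ∈ l := (hl.2 _).2 (by rwa [Sym2.mk_isDiag_iff])
    have hsame : Same (Rt l (j * B)) (G ⊔ SimpleGraph.edge u v) G := by
      intro e he
      refine notMem_sup_edge_iff huv ?_
      rintro rfl
      rw [mem_Rt_iff hB hmem] at he
      omega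
    rw [hE]
    dsimp only
    rw [hF3 j _ _ hsame]
  have hcore := core (p := p) (E := E) (φ := ph l B) (D := D) (s := s) (m := m) (h := h)
    (κ := κ) (e0 := e0) h0 h1 hadapt (Nat.mul_pos hs hD) hn hh
    (fun e he => ph_lt hB hm ((hl.2 e).2 he)) hsp
  have hP1 : Prob p (fun G => ∃ j ∈ range (m + 1),
      Non (mono (Rt l (j * B)) (A.colour (A.run l G))) G ∧
        e0 + 1 ≤ (mono (Rt l (j * B)) (A.colour (A.run l G)) \ F j G).card)
      ≤ (m + 1) * (θ ^ (e0 + 1) + Fintype.card Q * w) := by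
    refine (Prob_exists h0 h1 _ _).trans ((sum_le_sum fun j _ => hF4 j (e0 + 1)).trans ?_)
    rw [sum_const, card_range, nsmul_eq_mul]
    push_cast
    exact le_rfl
  refine le_trans (Prob_mono h0 h1 fun G hG => ?_) ((Prob_or h0 h1 _ _).trans (add_le_add hP1
    ((Prob_or h0 h1 _ _).trans (add_le_add hcore le_rfl))))
  obtain ⟨hproper, hnum⟩ := hG
  by_contra hcon
  rw [not_or, not_or] at hcon
  obtain ⟨c1, c2, c3⟩ := hcon
  rw [not_not] at c3
  have hnon : ∀ j, Non (mono (Rt l (j * B)) (A.colour (A.run l G))) G := by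
    intro j e he
    induction e using Sym2.ind with
    | _ u v =>
    rw [mem_mono] at he
    rw [SimpleGraph.mem_edgeSet]
    exact fun hadj => hproper u v hadj he.2
  have := colours_ge hl hB (m := m) (D := D) (s := s) (r := r) (b0 := b0) (e0 := e0) (G := G)
    (c := A.colour (A.run l G)) hproper (F := F) c2
    (fun j hj => by
      by_contra hgt
      exact c1 ⟨j, mem_range.2 (by omega), hnon j, by omega⟩)
    (fun j _ => by
      refine le_trans ?_ (hb0 (F j G).card (hF2 j G))
      rw [Nat.le_div_iff_mul_le hD]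
      exact card_deg_le (F j G) D) c3
  have hnum' : (univ.image (A.colour (A.run l G))).card * s + (m + 1) * b0 * r < n := hnum
  omega

end Pool.Agent.SD81
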