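import Pool.Agent.SD81.SpreadProb
import Pool.Agent.H72.KarpS.Ratio

/-!
The parameters, and the proportion of the orders without the spreading property.
-/

set_option autoImplicit false

namespace Pool.Agent.SD81

open Finset Filter Pool.Agent.SB81 Pool.Agent.H72.Karp

variable {p : ℝ}

/-- the size of the sets -/
noncomputable def sF (p x : ℝ) (n : ℕ) : ℕ := ⌈x * (Real.log n / -Real.log (1 - p))⌉₊

/-- the number of pairs with exceptional phases -/
noncomputable def kF (ρ : ℝ) (s : ℕ) : ℕ := ⌊ρ * (s : ℝ) ^ 2⌋₊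

/-- the length of the phases -/
noncomputable def bF (m n : ℕ) : ℕ := Fintype.card (Xp n) / m + 1

theorem bF_pos (m n : ℕ) : 0 < bF m n := Nat.succ_pos _

theorem card_Xp (n : ℕ) : Fintype.card (Xp n) = n.choose 2 := by
  have h := Sym2.card_subtype_not_diag (α := Fin n)
  rw [Fintype.card_fin] at h
  exact h

theorem le_mul_bF {m : ℕ} (hm : 0 < m) (n : ℕ) : Fintype.card (Xp n) ≤ m * bF m n := by
  unfold bF
  have h1 := Nat.div_add_mod (Fintype.card (Xp n)) m
  have h2 := Nat.mod_lt (Fintype.card (Xp n)) hm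
  rw [mul_add, mul_one]
  omega

theorem log_le_mul {δ : ℝ} (hδ : 0 < δ) : ∀ᶠ y : ℝ in atTop, Real.log y ≤ δ * y := by
  have h := Real.isLittleO_log_id_atTop.bound hδ
  filter_upwards [h, eventually_ge_atTop 1] with y hy hy1
  have e1 := le_trans (le_abs_self _) hy
  rwa [id, Real.norm_eq_abs, abs_of_nonneg (by linarith)] at e1

theorem sF_tendsto (h0 : 0 < p) (h1 : p < 1) {x : ℝ} (hx : 0 < x) :
    Tendsto (sF p x) atTop atTop := by
  have hlam := neg_log_pos h0 h1
  refine tendsto_nat_ceil_atTop.comp ?_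
  exact (log_nat_tendsto.atTop_div_const hlam).const_mul_atTop hx

theorem few_bad (h0 : 0 < p) (h1 : p < 1) {x ρ : ℝ} (hx : 0 < x) (hρ : 0 < ρ) (hρ1 : ρ ≤ 1)
    {m : ℕ} (hm8 : 8 < m)
    (hm : -Real.log (1 - p) / x + 2 ≤ ρ * Real.log (m / 8)) (a : ℝ) :
    ∀ᶠ n : ℕ in atTop,
      (({l : List (Sym2 (Fin n)) | IsOrder l ∧
        ¬ Spread (ph l (bF m n)) (sF p x n) (kF ρ (sF p x n))}.ncard : ℕ) : ℝ)
        ≤ (n : ℝ) ^ (-a) * (({l : List (Sym2 (Fin n)) | IsOrder l}.ncard : ℕ) : ℝ) := by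
  have hlam := neg_log_pos h0 h1
  set lam := -Real.log (1 - p) with hlamdef
  have hmr : (8 : ℝ) < m := by exact_mod_cast hm8
  have hs2 : ∀ᶠ n : ℕ in atTop, (sF p x n : ℝ) ^ 2 ≤ n / 8 := by
    have h := (isLittleO_log_rpow_atTop (show (0 : ℝ) < 1 / 2 by norm_num)).bound
      (show 0 < lam / (8 * (x + lam)) by positivity)
    filter_upwards [tendsto_natCast_atTop_atTop.eventually h, eventually_ge_atTop 2,
      log_nat_tendsto.eventually_ge_atTop 1] with n hn hn2 hn3
    have hnr : (2 : ℝ) ≤ n := by exact_mod_cast hn2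
    have hL : 0 < Real.log (n : ℝ) := lt_of_lt_of_le one_pos hn3
    rw [Real.norm_eq_abs, abs_of_pos hL, Real.norm_eq_abs, abs_of_nonneg (by positivity)] at hn
    have e1 : (sF p x n : ℝ) ≤ x * (Real.log n / lam) + 1 := (Nat.ceil_lt_add_one
      (by positivity)).le
    have e2 : x * (Real.log n / lam) + 1 ≤ (x + lam) / lam * Real.log n := by
      have : (x + lam) / lam * Real.log n = x * (Real.log n / lam) + Real.log n := by
        field_simp
      rw [this]
      linarith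
    have e3 : (x + lam) / lam * Real.log n ≤ (n : ℝ) ^ ((1 : ℝ) / 2) / 8 := by
      have := mul_le_mul_of_nonneg_left hn (show 0 ≤ (x + lam) / lam by positivity)
      have e4 : (x + lam) / lam * (lam / (8 * (x + lam)) * (n : ℝ) ^ ((1 : ℝ) / 2))
          = (n : ℝ) ^ ((1 : ℝ) / 2) / 8 := by
        field_simp
      linarith
    have e5 : (sF p x n : ℝ) ≤ (n : ℝ) ^ ((1 : ℝ) / 2) / 8 := by linarith
    have e6 : ((n : ℝ) ^ ((1 : ℝ) / 2)) ^ 2 = n := by
      rw [← Real.rpow_natCast, ← Real.rpow_mul (by linarith)]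
      norm_num
    calc (sF p x n : ℝ) ^ 2 ≤ ((n : ℝ) ^ ((1 : ℝ) / 2) / 8) ^ 2 :=
          pow_le_pow_left₀ (Nat.cast_nonneg _) e5 2
      _ = n / 64 := by rw [div_pow, e6]; norm_num
      _ ≤ n / 8 := by linarith
  filter_upwards [hs2, eventually_ge_atTop 4, eventually_ge_atTop (2 * m),
    ((sF_tendsto h0 h1 hx).eventually_ge_atTop 1),
    (tendsto_natCast_atTop_atTop.comp (sF_tendsto h0 h1 hx)).eventually_ge_atTop
      (Real.log (m + 2) + |a| * (lam / x))] with n g1 g2 g3 g4 g5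
  have hn4 : (4 : ℝ) ≤ n := by exact_mod_cast g2
  have hn0 : (0 : ℝ) < n := by linarith
  set s := sF p x n with hs
  set κ := kF ρ s with hκ
  set N := Fintype.card (Xp n) with hN
  set B := bF m n with hB
  have hs1 : (1 : ℝ) ≤ s := by exact_mod_cast g4
  have hbad := bad_orders_le (n := n) (s := s) (κ := κ) (bF_pos m n)
    (le_mul_bF (by omega) n)
  rw [← hN, ← hB] at hbad
  -- sizes
  have hNn : (n : ℝ) ≤ N := by
    have e1 : n ≤ N := by
      rw [hN, card_Xp, Nat.choose_two_right]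
      rw [Nat.le_div_iff_mul_le (by norm_num)]
      exact Nat.mul_le_mul_left _ (by omega)
    exact_mod_cast e1
  have hN0 : (0 : ℝ) < N := by linarith
  have hκr : (κ : ℝ) ≤ n / 8 := by
    have e1 : (κ : ℝ) ≤ ρ * (s : ℝ) ^ 2 := Nat.floor_le (by positivity)
    have e2 : ρ * (s : ℝ) ^ 2 ≤ 1 * (s : ℝ) ^ 2 := mul_le_mul_of_nonneg_right hρ1 (by positivity)
    linarith
  have hκN : κ + 1 ≤ N := by
    have : ((κ + 1 : ℕ) : ℝ) ≤ N := by
      push_cast
      linarith
    exact_mod_cast this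
  have hW : ((N : ℝ) / 2) ^ (κ + 1) ≤ (((N - (κ + 1)) ^ (κ + 1) : ℕ) : ℝ) := by
    rw [Nat.cast_pow, Nat.cast_sub hκN]
    refine pow_le_pow_left₀ (by positivity) ?_ _
    push_cast
    linarith
  have hBr : ((2 * B : ℕ) : ℝ) ≤ 4 * N / m := by
    have e1 : ((N / m : ℕ) : ℝ) ≤ N / m := Nat.cast_div_le
    have e2 : (1 : ℝ) ≤ N / m := by
      rw [le_div_iff₀ (by linarith), one_mul]
      have : ((2 * m : ℕ) : ℝ) ≤ n := by exact_mod_cast g3
      push_cast at this
      linarith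
    have e3 : 4 * (N : ℝ) / m = 4 * (N / m) := by ring
    rw [e3, hB]
    unfold bF
    push_cast
    rw [← hN]
    linarith
  have hall : (0 : ℝ) ≤ (({l : List (Sym2 (Fin n)) | IsOrder l}.ncard : ℕ) : ℝ) :=
    Nat.cast_nonneg _
  set all : ℝ := (({l : List (Sym2 (Fin n)) | IsOrder l}.ncard : ℕ) : ℝ) with halldef
  set bad : ℝ := (({l : List (Sym2 (Fin n)) | IsOrder l ∧
        ¬ Spread (ph l B) s κ}.ncard : ℕ) : ℝ) with hbaddef
  have hbad0 : 0 ≤ bad := Nat.cast_nonneg _
  have hbadr : bad * (((N - (κ + 1)) ^ (κ + 1) : ℕ) : ℝ)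
      ≤ ((n : ℝ) ^ s * ((m + 2) ^ s * 2 ^ (s.choose 2))) * (((2 * B : ℕ) : ℝ) ^ (κ + 1) * all) := by
    rw [halldef, hbaddef]
    exact_mod_cast hbad
  set C : ℝ := (n : ℝ) ^ s * ((m + 2) ^ s * 2 ^ (s.choose 2)) with hC
  have hC0 : 0 ≤ C := by positivity
  have hmain : bad ≤ (C * (8 / m) ^ (κ + 1)) * all := by
    have e1 : bad * ((N : ℝ) / 2) ^ (κ + 1) ≤ C * ((4 * N / m) ^ (κ + 1) * all) := by
      refine (mul_le_mul_of_nonneg_left hW hbad0).trans (hbadr.trans ?_)
      refine mul_le_mul_of_nonneg_left (mul_le_mul_of_nonneg_right ?_ hall) hC0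
      exact pow_le_pow_left₀ (Nat.cast_nonneg _) hBr _
    have e2 : (4 * (N : ℝ) / m) ^ (κ + 1) = (8 / m) ^ (κ + 1) * ((N : ℝ) / 2) ^ (κ + 1) := by
      rw [← mul_pow]
      congr 1
      ring
    rw [e2] at e1
    have e3 : 0 < ((N : ℝ) / 2) ^ (κ + 1) := by positivity
    refine le_of_mul_le_mul_right ?_ e3
    refine e1.trans (le_of_eq ?_)
    ring
  refine hmain.trans (mul_le_mul_of_nonneg_right ?_ hall)
  set X := Real.log (n : ℝ) with hX
  have hX0 : 0 < X := Real.log_pos (by linarith)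
  have hnX : (n : ℝ) = Real.exp X := by rw [hX, Real.exp_log hn0]
  have hsX : X ≤ lam / x * s := by
    have e1 : x * (X / lam) ≤ s := Nat.le_ceil _
    have e2 := mul_le_mul_of_nonneg_left e1 (show 0 ≤ lam / x by positivity)
    have e3 : lam / x * (x * (X / lam)) = X := by field_simp
    linarith
  have hκ1 : ρ * (s : ℝ) ^ 2 ≤ κ + 1 := (Nat.lt_floor_add_one _).le
  have hlogm : 0 < Real.log ((m : ℝ) / 8) := Real.log_pos (by
    rw [lt_div_iff₀ (by norm_num)]
    linarith)
  have hCe : C ≤ Real.exp (s * X + (s * Real.log (m + 2) + (s : ℝ) ^ 2 / 2)) := by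
    have e1 : (n : ℝ) ^ s = Real.exp (s * X) := by
      rw [Real.exp_nat_mul, ← hnX]
    have e2 : ((m : ℝ) + 2) ^ s = Real.exp (s * Real.log (m + 2)) := by
      rw [Real.exp_nat_mul, Real.exp_log (by positivity)]
    have e3 : (2 : ℝ) ^ (s.choose 2) ≤ Real.exp ((s : ℝ) ^ 2 / 2) := by
      have e4 : (2 : ℝ) ^ (s.choose 2) = Real.exp ((s.choose 2 : ℕ) * Real.log 2) := by
        rw [Real.exp_nat_mul, Real.exp_log (by norm_num)]
      rw [e4]
      apply Real.exp_le_exp.2
      rw [Nat.cast_choose_two]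
      have e5 := Real.log_two_lt_d9
      have e6 := Real.log_two_gt_d9
      have e7 : (s : ℝ) * (s - 1) / 2 * Real.log 2 ≤ (s : ℝ) * (s - 1) / 2 * 1 := by
        refine mul_le_mul_of_nonneg_left (by linarith) ?_
        have : 0 ≤ (s : ℝ) * (s - 1) := mul_nonneg (by linarith) (by linarith)
        linarith
      nlinarith
    rw [hC, e1, e2, Real.exp_add, Real.exp_add]
    refine mul_le_mul_of_nonneg_left (mul_le_mul_of_nonneg_left e3 (Real.exp_pos _).le)
      (Real.exp_pos _).le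
  have hPe : ((8 : ℝ) / m) ^ (κ + 1) = Real.exp (-((κ + 1) * Real.log (m / 8))) := by
    have e1 : (8 : ℝ) / m = Real.exp (-Real.log (m / 8)) := by
      rw [← Real.log_inv, Real.exp_log (by positivity), inv_div]
    rw [e1, ← Real.exp_nat_mul]
    congr 1
    push_cast
    ring
  calc C * (8 / m) ^ (κ + 1)
      ≤ Real.exp (s * X + (s * Real.log (m + 2) + (s : ℝ) ^ 2 / 2))
        * Real.exp (-((κ + 1) * Real.log (m / 8))) := by
        rw [hPe]
        exact mul_le_mul_of_nonneg_right hCe (Real.exp_pos _).le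
    _ = Real.exp (s * X + (s * Real.log (m + 2) + (s : ℝ) ^ 2 / 2)
        + -((κ + 1) * Real.log (m / 8))) := by rw [← Real.exp_add]
    _ ≤ Real.exp (X * (-a)) := by
        apply Real.exp_le_exp.2
        have f1 : (κ + 1) * Real.log (m / 8) ≥ (lam / x + 2) * (s : ℝ) ^ 2 := by
          calc (lam / x + 2) * (s : ℝ) ^ 2 ≤ (ρ * Real.log (m / 8)) * (s : ℝ) ^ 2 :=
                mul_le_mul_of_nonneg_right hm (by positivity)
            _ = (ρ * (s : ℝ) ^ 2) * Real.log (m / 8) := by ring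
            _ ≤ _ := mul_le_mul_of_nonneg_right hκ1 hlogm.le
        have f2 : s * X ≤ lam / x * (s : ℝ) ^ 2 := by
          have := mul_le_mul_of_nonneg_left hsX (show (0 : ℝ) ≤ s by linarith)
          calc s * X ≤ s * (lam / x * s) := this
            _ = _ := by ring
        have f3 : a * X ≤ |a| * (lam / x) * s := by
          calc a * X ≤ |a| * X := mul_le_mul_of_nonneg_right (le_abs_self a) hX0.le
            _ ≤ |a| * (lam / x * s) := mul_le_mul_of_nonneg_left hsX (abs_nonneg a)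
            _ = _ := by ring
        have f4 : (Real.log (m + 2) + |a| * (lam / x)) * s ≤ (s : ℝ) * s :=
          mul_le_mul_of_nonneg_right g5 (by linarith)
        nlinarith
    _ = (n : ℝ) ^ (-a) := by
        rw [Real.rpow_def_of_pos hn0]

end Pool.Agent.SD81
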