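import Pool.Agent.H85.Online.Prob

/-!
Sets which grow along the edges of a graph of bounded degree.
-/

set_option autoImplicit false

namespace Pool.Agent.SD81

open Finset

variable {n : ℕ}

theorem sum_biUnion_le {ι α : Type*} [DecidableEq α] (s : Finset ι) (t : ι → Finset α)
    (f : α → ℝ) (hf : ∀ x, 0 ≤ f x) : ∑ x ∈ s.biUnion t, f x ≤ ∑ i ∈ s, ∑ x ∈ t i, f x := by
  classical
  induction s using Finset.induction_on with
  | empty => simp
  | insert a s ha ih =>
    rw [biUnion_insert, sum_insert ha]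
    have h := sum_union_inter (s₁ := t a) (s₂ := s.biUnion t) (f := f)
    have h2 : 0 ≤ ∑ x ∈ t a ∩ s.biUnion t, f x := sum_nonneg fun x _ => hf x
    linarith

open Classical in
/-- the neighbours of `v` in `K` -/
noncomputable def nbh (K : SimpleGraph (Fin n)) (v : Fin n) : Finset (Fin n) :=
  univ.filter (fun u => K.Adj v u)

theorem mem_nbh {K : SimpleGraph (Fin n)} {u v : Fin n} : u ∈ nbh K v ↔ K.Adj v u := by
  classical
  unfold nbh
  rw [mem_filter]
  simp

/-- `T` arises from `U` by `c` steps. In `r` of them an arbitrary vertex is added, in the others a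
neighbour in `K` of a vertex of the set which has at most `D` neighbours in `K`. -/
def Grow (K : SimpleGraph (Fin n)) (D : ℕ) : ℕ → ℕ → Finset (Fin n) → Finset (Fin n) → Prop
  | 0, r, U, T => r = 0 ∧ T = U
  | c + 1, r, U, T => ∃ (T' : Finset (Fin n)) (v : Fin n), v ∉ T' ∧ T = insert v T' ∧
      ((∃ w ∈ T', (nbh K w).card ≤ D ∧ K.Adj w v ∧ Grow K D c r U T') ∨
        ∃ r', r = r' + 1 ∧ Grow K D c r' U T')

variable {K : SimpleGraph (Fin n)} {D : ℕ}

theorem Grow.card {c r : ℕ} {U T : Finset (Fin n)} (h : Grow K D c r U T) :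
    T.card = U.card + c := by
  induction c generalizing r T with
  | zero =>
    rw [h.2]
    rfl
  | succ c ih =>
    obtain ⟨T', v, hv, rfl, h⟩ := h
    rw [card_insert_of_notMem hv]
    rcases h with ⟨w, _, _, _, h⟩ | ⟨r', _, h⟩
    · rw [ih h]
      rfl
    · rw [ih h]
      rfl

theorem Grow.subset {c r : ℕ} {U T : Finset (Fin n)} (h : Grow K D c r U T) : U ⊆ T := by
  induction c generalizing r T with
  | zero => exact h.2 ▸ Subset.rfl
  | succ c ih =>
    obtain ⟨T', v, hv, rfl, h⟩ := h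
    rcases h with ⟨w, _, _, _, h⟩ | ⟨r', _, h⟩
    · exact (ih h).trans (subset_insert _ _)
    · exact (ih h).trans (subset_insert _ _)

open Classical in
/-- the sets with at most `s` elements which arise in `c` steps -/
noncomputable def grs (K : SimpleGraph (Fin n)) (D s c r : ℕ) (U : Finset (Fin n)) :
    Finset (Finset (Fin n)) :=
  univ.filter fun T => Grow K D c r U T ∧ T.card ≤ s

theorem mem_grs {s c r : ℕ} {U T : Finset (Fin n)} :
    T ∈ grs K D s c r U ↔ Grow K D c r U T ∧ T.card ≤ s := by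
  classical
  unfold grs
  rw [mem_filter]
  simp

theorem card_grs_le {s : ℕ} (hsD : 1 ≤ s * D) (U : Finset (Fin n)) (hn : 1 ≤ n) :
    ∀ c r : ℕ, (grs K D s c r U).card ≤ (2 * (s * D)) ^ c * n ^ r := by
  classical
  intro c
  induction c with
  | zero =>
    intro r
    have h1 : grs K D s 0 r U ⊆ {U} := by
      intro T hT
      rw [mem_singleton]
      exact (mem_grs.1 hT).1.2
    refine (card_le_card h1).trans ?_
    rw [card_singleton, pow_zero, one_mul]
    exact Nat.one_le_pow _ _ hn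
  | succ c ih =>
    intro r
    set A1 : Finset (Finset (Fin n)) := (grs K D s c r U).biUnion fun T' =>
      (T'.filter fun w => (nbh K w).card ≤ D).biUnion fun w =>
        (nbh K w).image fun v => insert v T' with hA1
    set A2 : Finset (Finset (Fin n)) := (grs K D s c (r - 1) U).biUnion fun T' =>
      univ.image fun v => insert v T' with hA2
    have hc1 : A1.card ≤ (grs K D s c r U).card * (s * D) := by
      refine card_biUnion_le_card_mul _ _ _ fun T' hT' => ?_
      refine (card_biUnion_le_card_mul _ _ D fun w hw => ?_).trans ?_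
      · exact card_image_le.trans (mem_filter.1 hw).2
      · exact Nat.mul_le_mul_right _ ((card_filter_le _ _).trans (mem_grs.1 hT').2)
    have hc2 : A2.card ≤ (grs K D s c (r - 1) U).card * n := by
      refine card_biUnion_le_card_mul _ _ _ fun T' _ => ?_
      refine card_image_le.trans ?_
      rw [card_univ, Fintype.card_fin]
    have hcase : grs K D s (c + 1) r U ⊆ A1 ∪ (if r = 0 then ∅ else A2) := by
      intro T hT
      obtain ⟨⟨T', v, hv, hTv, h⟩, hs⟩ := mem_grs.1 hT
      have hs' : T'.card ≤ s := by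
        rw [hTv, card_insert_of_notMem hv] at hs
        omega
      rcases h with ⟨w, hw, hD, hadj, h⟩ | ⟨r', hr, h⟩
      · refine mem_union_left _ (mem_biUnion.2 ⟨T', mem_grs.2 ⟨h, hs'⟩, mem_biUnion.2
          ⟨w, mem_filter.2 ⟨hw, hD⟩, mem_image.2 ⟨v, mem_nbh.2 hadj, hTv.symm⟩⟩⟩)
      · refine mem_union_right _ ?_
        rw [if_neg (by omega)]
        refine mem_biUnion.2 ⟨T', mem_grs.2 ⟨?_, hs'⟩, mem_image.2 ⟨v, mem_univ _, hTv.symm⟩⟩
        rw [hr]
        exact h
    refine (card_le_card hcase).trans ((card_union_le _ _).trans ?_)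
    have e1 := ih r
    by_cases hr : r = 0
    · rw [if_pos hr, card_empty, add_zero]
      calc A1.card ≤ (grs K D s c r U).card * (s * D) := hc1
        _ ≤ ((2 * (s * D)) ^ c * n ^ r) * (s * D) := Nat.mul_le_mul_right _ e1
        _ ≤ ((2 * (s * D)) ^ c * n ^ r) * (2 * (s * D)) :=
            Nat.mul_le_mul_left _ (by omega)
        _ = _ := by ring
    · rw [if_neg hr]
      obtain ⟨r', rfl⟩ := Nat.exists_eq_succ_of_ne_zero hr
      have e2 := ih r'
      simp only [Nat.succ_eq_add_one, Nat.add_sub_cancel] at hc1 hc2 e1 ⊢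
      calc A1.card + A2.card ≤ (grs K D s c (r' + 1) U).card * (s * D)
            + (grs K D s c r' U).card * n := add_le_add hc1 hc2
        _ ≤ ((2 * (s * D)) ^ c * n ^ (r' + 1)) * (s * D) + ((2 * (s * D)) ^ c * n ^ r') * n :=
            add_le_add (Nat.mul_le_mul_right _ e1) (Nat.mul_le_mul_right _ e2)
        _ = ((2 * (s * D)) ^ c * n ^ (r' + 1)) * (s * D + 1) := by ring
        _ ≤ ((2 * (s * D)) ^ c * n ^ (r' + 1)) * (2 * (s * D)) :=
            Nat.mul_le_mul_left _ (by omega)
        _ = _ := by ring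

/-- `T` arises from `U` with at most `k` arbitrary steps -/
def GrowTo (K : SimpleGraph (Fin n)) (D k : ℕ) (U T : Finset (Fin n)) : Prop :=
  ∃ c r, r ≤ k ∧ Grow K D c r U T

open Classical in
theorem sum_growTo_le {s k : ℕ} (hsD : 1 ≤ s * D) (hn : 1 ≤ n) (U : Finset (Fin n)) :
    ∑ T : Finset (Fin n), (if GrowTo K D k U T ∧ T.card ≤ s then
        ((2 * (s * D) : ℕ) : ℝ)⁻¹ ^ T.card else 0)
      ≤ (s + 1) * (k + 1) * (n : ℝ) ^ k * ((2 * (s * D) : ℕ) : ℝ)⁻¹ ^ U.card := by
  set x : ℝ := ((2 * (s * D) : ℕ) : ℝ) with hx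
  have hx1 : 1 ≤ x := by
    rw [hx]
    exact_mod_cast (by omega : 1 ≤ 2 * (s * D))
  have hx0 : 0 < x := by linarith
  have hn1 : (1 : ℝ) ≤ n := by exact_mod_cast hn
  rw [← sum_filter]
  have hsub : (univ.filter fun T : Finset (Fin n) => GrowTo K D k U T ∧ T.card ≤ s) ⊆
      (range (s + 1)).biUnion fun c => (range (k + 1)).biUnion fun r => grs K D s c r U := by
    intro T hT
    obtain ⟨⟨c, r, hr, h⟩, hs⟩ := (mem_filter.1 hT).2
    have hc := h.card
    exact mem_biUnion.2 ⟨c, mem_range.2 (by omega), mem_biUnion.2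
      ⟨r, mem_range.2 (by omega), mem_grs.2 ⟨h, hs⟩⟩⟩
  have hpos : ∀ T : Finset (Fin n), 0 ≤ x⁻¹ ^ T.card := fun T => by positivity
  calc ∑ T ∈ univ.filter fun T : Finset (Fin n) => GrowTo K D k U T ∧ T.card ≤ s, x⁻¹ ^ T.card
      ≤ ∑ T ∈ (range (s + 1)).biUnion fun c => (range (k + 1)).biUnion fun r =>
          grs K D s c r U, x⁻¹ ^ T.card :=
        sum_le_sum_of_subset_of_nonneg hsub fun T _ _ => hpos T
    _ ≤ ∑ c ∈ range (s + 1), ∑ T ∈ (range (k + 1)).biUnion fun r =>
          grs K D s c r U, x⁻¹ ^ T.card := sum_biUnion_le _ _ _ hpos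
    _ ≤ ∑ c ∈ range (s + 1), ∑ r ∈ range (k + 1), ∑ T ∈ grs K D s c r U, x⁻¹ ^ T.card :=
        sum_le_sum fun c _ => sum_biUnion_le _ _ _ hpos
    _ ≤ ∑ c ∈ range (s + 1), ∑ r ∈ range (k + 1), (n : ℝ) ^ k * x⁻¹ ^ U.card := by
        refine sum_le_sum fun c _ => sum_le_sum fun r hr => ?_
        have h1 : ∀ T ∈ grs K D s c r U, x⁻¹ ^ T.card = x⁻¹ ^ (U.card + c) := by
          intro T hT
          rw [(mem_grs.1 hT).1.card]
        rw [sum_congr rfl h1, sum_const, nsmul_eq_mul]
        have h2 : ((grs K D s c r U).card : ℝ) ≤ x ^ c * (n : ℝ) ^ r := by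
          rw [hx]
          exact_mod_cast card_grs_le hsD U hn c r
        have h3 : (n : ℝ) ^ r ≤ (n : ℝ) ^ k :=
          pow_le_pow_right₀ hn1 (by have := mem_range.1 hr; omega)
        calc ((grs K D s c r U).card : ℝ) * x⁻¹ ^ (U.card + c)
            ≤ (x ^ c * (n : ℝ) ^ k) * x⁻¹ ^ (U.card + c) := by
              refine mul_le_mul_of_nonneg_right ?_ (by positivity)
              exact h2.trans (mul_le_mul_of_nonneg_left h3 (by positivity))
          _ = (x * x⁻¹) ^ c * ((n : ℝ) ^ k * x⁻¹ ^ U.card) := by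
              rw [pow_add, mul_pow]
              ring
          _ = (n : ℝ) ^ k * x⁻¹ ^ U.card := by
              rw [mul_inv_cancel₀ hx0.ne', one_pow, one_mul]
    _ = _ := by
        rw [sum_const, sum_const, card_range, card_range, nsmul_eq_mul, nsmul_eq_mul]
        push_cast
        ring

end Pool.Agent.SD81
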