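import Pool.Agent.SD81.FewBad
import Pool.Agent.SD81.Model

/-!
The lower bound for the number of colours, for orders with the spreading property.
-/

set_option autoImplicit false

namespace Pool.Agent.SD81

open Finset Filter Pool.Agent.SB81 Pool.Agent.H72.Karp Pool.Agent.H72.KarpS
  Pool.Agent.H85.Online

variable {p : ℝ}

theorem sq_le_exp {C ε1 : ℝ} (hε1 : 0 < ε1) :
    ∀ᶠ n : ℕ in atTop, C * Real.log n ^ 2 ≤ Real.exp (ε1 * Real.log n) := by
  have h := (Real.tendsto_exp_div_pow_atTop 2).comp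
    (log_nat_tendsto.const_mul_atTop hε1)
  filter_upwards [h.eventually_ge_atTop (C / ε1 ^ 2), log_nat_tendsto.eventually_ge_atTop 1]
    with n hn hn1
  have hX : 0 < Real.log (n : ℝ) := lt_of_lt_of_le one_pos hn1
  have hn' : C / ε1 ^ 2 ≤ Real.exp (ε1 * Real.log n) / (ε1 * Real.log n) ^ 2 := hn
  rw [le_div_iff₀ (by positivity)] at hn'
  have e1 : C / ε1 ^ 2 * (ε1 * Real.log n) ^ 2 = C * Real.log n ^ 2 := by
    field_simp
  linarith

theorem cast_sub_ge (a b : ℕ) : (a : ℝ) - b ≤ ((a - b : ℕ) : ℝ) := by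
  rcases le_total b a with h | h
  · rw [Nat.cast_sub h]
  · rw [Nat.sub_eq_zero_of_le h]
    have : (a : ℝ) ≤ b := by exact_mod_cast h
    push_cast
    linarith

/-- the exponent of the core estimate -/
theorem core_exponent {β ε lam X s e0 κ : ℝ} {m h : ℕ} {a C1 C2 : ℝ} (hlam : 0 < lam)
    (hX : 0 < X) (hs : 0 < s) (hβ0 : 0 ≤ β) (hβ1 : β ≤ 1) (hε : 0 < ε) (hε1 : ε ≤ 1)
    (hxs : (2 * β + ε) * X ≤ lam * s) (hκ : κ ≤ ε / 64 * s ^ 2) (hmh : (m : ℝ) ≤ ε / 16 * h)
    (hh : 0 < h) (hC1 : C1 = 2 * m + lam / 2 + lam * (m * h))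
    (hC2 : lam * (m * e0) ≤ C2 * X) (g1 : C1 ≤ 5 * ε / 32 * X)
    (g2 : C2 + (a + 3) ≤ 5 * ε / 32 * s) :
    m * (2 * s + s / h * X) + s * ((β + 5 * ε / 64) * X)
      - lam * (s * (s - 1) / 2 - (κ + m * (s * h + e0))) ≤ -((a + 3) * X) := by
  have hh0 : (0 : ℝ) < h := by exact_mod_cast hh
  have e1 : m * (s / h * X) ≤ ε / 16 * (s * X) := by
    have : m * (s / h * X) = (m / h) * (s * X) := by field_simp
    rw [this]
    refine mul_le_mul_of_nonneg_right ?_ (by positivity)
    rw [div_le_iff₀ hh0]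
    exact hmh
  have e2 : (1 / 2 - ε / 64) * ((2 * β + ε) * X) * s ≤ (1 / 2 - ε / 64) * (lam * s) * s := by
    refine mul_le_mul_of_nonneg_right (mul_le_mul_of_nonneg_left hxs (by linarith)) hs.le
  have e3 : (β + ε / 2 - 3 * ε / 64) * (X * s) ≤ (1 / 2 - ε / 64) * ((2 * β + ε) * X) * s := by
    have : (β + ε / 2 - 3 * ε / 64) ≤ (1 / 2 - ε / 64) * (2 * β + ε) := by nlinarith
    calc (β + ε / 2 - 3 * ε / 64) * (X * s) ≤ ((1 / 2 - ε / 64) * (2 * β + ε)) * (X * s) :=
          mul_le_mul_of_nonneg_right this (by positivity)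
      _ = _ := by ring
  have e4 : lam * κ ≤ lam * (ε / 64 * s ^ 2) := mul_le_mul_of_nonneg_left hκ hlam.le
  have e5 : C1 * s ≤ 5 * ε / 32 * X * s := mul_le_mul_of_nonneg_right g1 hs.le
  have e6 : (C2 + (a + 3)) * X ≤ 5 * ε / 32 * s * X := mul_le_mul_of_nonneg_right g2 hX.le
  rw [hC1] at e5
  nlinarith

theorem lower_good (h0 : 0 < p) (h1 : p < 1) {β ε : ℝ} (hβ0 : 0 ≤ β) (hβ1 : β ≤ 1)
    (hε : 0 < ε) (hε1 : ε ≤ 1) {a : ℝ} (ha : 0 ≤ a) {m : ℕ} (hm : 1 ≤ m) :
    ∀ᶠ n : ℕ in atTop, ∀ l : List (Sym2 (Fin n)), IsOrder l →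
      Spread (ph l (bF m n)) (sF p (2 * β + ε) n) (kF (ε / 64) (sF p (2 * β + ε) n)) →
      ∀ (Q : Type) [Fintype Q], (Fintype.card Q : ℝ) ≤ 2 ^ ((n : ℝ) ^ (1 + β)) →
        ∀ A : PassAlg n Q,
          Prob p (fun G => A.Proper l G ∧ (A.numColours l G : ℝ)
            * ((2 * β + 2 * ε) * LL p n) < (1 - ε) * n) ≤ (n : ℝ) ^ (-a) := by
  have hlam := neg_log_pos h0 h1
  set lam := -Real.log (1 - p) with hlamdef
  have hq0 : 0 < 1 - p := by linarith
  have hx : 0 < 2 * β + ε := by linarith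
  set h : ℕ := ⌈16 * m / ε⌉₊ with hh
  have hmr : (1 : ℝ) ≤ m := by exact_mod_cast hm
  have hh1 : 16 * m / ε ≤ h := Nat.le_ceil _
  have hmh : (m : ℝ) ≤ ε / 16 * h := by
    rw [div_le_iff₀ hε] at hh1
    linarith
  have hh0 : 0 < h := by
    have : (0 : ℝ) < h := lt_of_lt_of_le (by positivity) hh1
    exact_mod_cast this
  set C1 : ℝ := 2 * m + lam / 2 + lam * (m * h) with hC1
  set C2 : ℝ := lam * (m * (2 / lam * (a + 3) + 1)) with hC2
  set C4 : ℝ := (m + 1) * (16 / lam) * (3 / lam) / ε with hC4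
  set C5 : ℝ := 2 * ((2 * β + ε) / lam + 1) with hC5
  have hC5pos : 0 < C5 := by positivity
  filter_upwards [eventually_ge_atTop 4, eventually_ge_atTop (2 * (m + 1)),
    log_nat_tendsto.eventually_ge_atTop 1, log_nat_tendsto.eventually_ge_atTop (lam / ε),
    alpha_bound' h0 h1 one_pos (a + 3), sq_le_exp (C := C4) (show 0 < ε / 16 by positivity),
    log_nat_tendsto.eventually_ge_atTop (Real.log 2 / (ε / 16)),
    tendsto_natCast_atTop_atTop.eventually (log_le_mul (show 0 < 1 / (a + 3) by positivity)),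
    log_nat_tendsto.eventually_ge_atTop (C1 / (5 * ε / 32)),
    (tendsto_natCast_atTop_atTop.comp (sF_tendsto h0 h1 hx)).eventually_ge_atTop
      ((C2 + (a + 3)) / (5 * ε / 32)),
    sq_le_exp (C := C5) (show 0 < ε / 64 by positivity),
    (sF_tendsto h0 h1 hx).eventually_ge_atTop 1]
    with n g1 g2 g3 g4 g5 g6 g7 g8 g9 g10 g11 g12
  intro l hl hsp Q _ hQ A
  set X := Real.log (n : ℝ) with hX
  have hX0 : 0 < X := lt_of_lt_of_le one_pos g3
  have hn4 : (4 : ℝ) ≤ n := by exact_mod_cast g1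
  have hn0 : (0 : ℝ) < n := by linarith
  have hnX : (n : ℝ) = Real.exp X := by rw [hX, Real.exp_log hn0]
  have hLL : LL p n = X / lam := LL_eq n
  have hnb : (n : ℝ) ^ (1 + β) = Real.exp ((1 + β) * X) := by
    rw [Real.rpow_def_of_pos hn0]
    congr 1
    rw [← hX]
    ring
  have hnb1 : (n : ℝ) ≤ (n : ℝ) ^ (1 + β) := by
    conv_lhs => rw [← Real.rpow_one (n : ℝ)]
    exact Real.rpow_le_rpow_of_exponent_le (by linarith) (by linarith)
  have hnb0 : 0 < (n : ℝ) ^ (1 + β) := by positivity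
  set s : ℕ := sF p (2 * β + ε) n with hs
  set κ : ℕ := kF (ε / 64) s with hκ
  set D : ℕ := ⌊Real.exp ((β + ε / 16) * X)⌋₊ with hD
  set θ : ℝ := Real.exp (-(lam / 2)) with hθ
  set w : ℝ := Real.exp (-(2 * (n : ℝ) ^ (1 + β))) with hw
  set e0 : ℕ := ⌈2 / lam * (a + 3) * X⌉₊ with he0
  set r : ℕ := ⌊(2 + 1) * LL p n⌋₊ with hr
  set b0 : ℕ := ⌊8 / lam * (n : ℝ) ^ (1 + β) / D⌋₊ with hb0
  -- the sizes
  have hs1 : (2 * β + ε) * (X / lam) ≤ s := Nat.le_ceil _
  have hs2 : (s : ℝ) < (2 * β + ε) * (X / lam) + 1 := Nat.ceil_lt_add_one (by positivity)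
  have hsr : (1 : ℝ) ≤ s := by exact_mod_cast g12
  have hexp2 : 2 ≤ Real.exp ((β + ε / 16) * X) := by
    have e1 : Real.log 2 ≤ (β + ε / 16) * X := by
      have e2 : Real.log 2 ≤ ε / 16 * X := by
        rw [div_le_iff₀ (by positivity)] at g7
        linarith
      have e3 : 0 ≤ β * X := by positivity
      linarith
    calc (2 : ℝ) = Real.exp (Real.log 2) := (Real.exp_log (by norm_num)).symm
      _ ≤ _ := Real.exp_le_exp.2 e1
  have hD1 : Real.exp ((β + ε / 16) * X) / 2 ≤ D := by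
    have e1 : Real.exp ((β + ε / 16) * X) < D + 1 := Nat.lt_floor_add_one _
    linarith
  have hD2 : (D : ℝ) ≤ Real.exp ((β + ε / 16) * X) := Nat.floor_le (Real.exp_pos _).le
  have hDr : (0 : ℝ) < D := by linarith
  have hDpos : 0 < D := by exact_mod_cast hDr
  -- the parameters of the division
  have hθ1 : θ ≤ 1 := Real.exp_le_one_iff.2 (by linarith)
  have hqe : 1 - p = Real.exp (-lam) := by
    rw [hlamdef, neg_neg, Real.exp_log hq0]
  have hθq : 1 - p < θ := by
    rw [hqe, hθ]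
    exact Real.exp_lt_exp.2 (by linarith)
  have hlogθ : Real.log (θ / (1 - p)) = lam / 2 := by
    rw [Real.log_div (Real.exp_pos _).ne' hq0.ne', Real.log_exp, hlamdef]
    ring
  have hw0 : 0 < w := Real.exp_pos _
  have hw1 : w ≤ 1 := Real.exp_le_one_iff.2 (by linarith)
  have hlogw : Real.log (1 / w) = 2 * (n : ℝ) ^ (1 + β) := by
    rw [one_div, Real.log_inv, hw, Real.log_exp]
    ring
  have hfin := finite_bound (Q := Q) (p := p) h0 h1 hθq hθ1 hw0 hw1 A hl (B := bF m n) (m := m)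
    (D := D) (s := s) (r := r) (b0 := b0) (e0 := e0) (h := h) (κ := κ) (bF_pos m n) (by
      rw [card_order hl]
      exact le_mul_bF (by omega) n) (by omega) hDpos g12 hh0 hsp (by
      intro N hN
      rw [hlogθ, hlogw] at hN
      refine Nat.le_floor ?_
      refine (Nat.cast_div_le).trans ?_
      refine div_le_div_of_nonneg_right ?_ hDr.le
      push_cast
      have e1 : 8 / lam * (n : ℝ) ^ (1 + β) = 4 / lam * (2 * (n : ℝ) ^ (1 + β)) := by ring
      rw [e1]
      have e2 := mul_le_mul_of_nonneg_left hN (show 0 ≤ 4 / lam by positivity)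
      have e3 : 4 / lam * ((N : ℝ) * (lam / 2)) = 2 * N := by
        field_simp
        ring
      linarith)
  -- the terms
  have hna3 : (n : ℝ) ^ (-(a + 3)) = Real.exp (-((a + 3) * X)) := by
    rw [Real.rpow_def_of_pos hn0]
    congr 1
    rw [← hX]
    ring
  have T1 : ((m : ℝ) + 1) * (θ ^ (e0 + 1) + Fintype.card Q * w) ≤ (n : ℝ) ^ (-(a + 1)) := by
    have e1 : θ ^ (e0 + 1) ≤ (n : ℝ) ^ (-(a + 3)) := by
      have f1 : θ ^ (e0 + 1) ≤ θ ^ e0 :=
        pow_le_pow_of_le_one (Real.exp_pos _).le hθ1 (Nat.le_succ _)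
      refine f1.trans ?_
      rw [hθ, ← Real.exp_nat_mul, hna3]
      apply Real.exp_le_exp.2
      have f2 : 2 / lam * (a + 3) * X ≤ e0 := Nat.le_ceil _
      have f3 := mul_le_mul_of_nonneg_right f2 (show 0 ≤ lam / 2 by positivity)
      have f4 : 2 / lam * (a + 3) * X * (lam / 2) = (a + 3) * X := by field_simp
      linarith
    have e2 : (Fintype.card Q : ℝ) * w ≤ (n : ℝ) ^ (-(a + 3)) := by
      have f1 : (2 : ℝ) ^ ((n : ℝ) ^ (1 + β)) ≤ Real.exp ((n : ℝ) ^ (1 + β)) := by
        rw [Real.rpow_def_of_pos (by norm_num)]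
        apply Real.exp_le_exp.2
        have : Real.log 2 ≤ 1 := by
          have := Real.log_two_lt_d9
          linarith
        have h2 := mul_le_mul_of_nonneg_right this hnb0.le
        rw [one_mul] at h2
        exact h2
      calc (Fintype.card Q : ℝ) * w ≤ Real.exp ((n : ℝ) ^ (1 + β)) * w :=
            mul_le_mul_of_nonneg_right (hQ.trans f1) hw0.le
        _ = Real.exp ((n : ℝ) ^ (1 + β) + -(2 * (n : ℝ) ^ (1 + β))) := by
            rw [hw, ← Real.exp_add]
        _ ≤ _ := by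
            rw [hna3]
            apply Real.exp_le_exp.2
            have f2 := mul_le_mul_of_nonneg_left g8 (show 0 ≤ a + 3 by linarith)
            have f3 : (a + 3) * (1 / (a + 3) * (n : ℝ)) = n := by field_simp
            linarith
    have e3 : ((m : ℝ) + 1) * (θ ^ (e0 + 1) + Fintype.card Q * w)
        ≤ ((m : ℝ) + 1) * (2 * (n : ℝ) ^ (-(a + 3))) :=
      mul_le_mul_of_nonneg_left (by linarith) (by positivity)
    have e4 : (n : ℝ) ^ (-(a + 1)) = (n : ℝ) ^ (-(a + 3)) * n * n := by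
      have : (-(a + 1)) = -(a + 3) + 1 + 1 := by ring
      rw [this, Real.rpow_add hn0, Real.rpow_add hn0, Real.rpow_one]
    have e5 : 0 < (n : ℝ) ^ (-(a + 3)) := by positivity
    have e6 : 2 * ((m : ℝ) + 1) ≤ n * n := by
      have : ((2 * (m + 1) : ℕ) : ℝ) ≤ n := by exact_mod_cast g2
      push_cast at this
      have h2 := mul_le_mul_of_nonneg_right hn4 hn0.le
      linarith
    rw [e4]
    calc ((m : ℝ) + 1) * (θ ^ (e0 + 1) + Fintype.card Q * w) ≤ _ := e3
      _ = (n : ℝ) ^ (-(a + 3)) * (2 * ((m : ℝ) + 1)) := by ring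
      _ ≤ (n : ℝ) ^ (-(a + 3)) * (n * n) := mul_le_mul_of_nonneg_left e6 e5.le
      _ = _ := by ring
  have T2 : (((s : ℝ) + 1) * ((s / h : ℕ) + 1) * (n : ℝ) ^ (s / h)) ^ m
      * ((2 * (s * D) : ℕ) : ℝ) ^ s
          * (1 - p) ^ (s.choose 2 - (κ + m * (s * h + e0))) ≤ (n : ℝ) ^ (-(a + 3)) := by
    have f1 : ((s : ℝ) + 1) * ((s / h : ℕ) + 1) * (n : ℝ) ^ (s / h)
        ≤ Real.exp (2 * s + s / h * X) := by
      have k1 : (s : ℝ) + 1 ≤ Real.exp s := Real.add_one_le_exp _
      have k2 : ((s / h : ℕ) : ℝ) + 1 ≤ Real.exp s := by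
        refine le_trans ?_ k1
        have : s / h ≤ s := Nat.div_le_self _ _
        have : ((s / h : ℕ) : ℝ) ≤ s := by exact_mod_cast this
        linarith
      have k3 : (n : ℝ) ^ (s / h) ≤ Real.exp (s / h * X) := by
        have k4 : (n : ℝ) ^ (s / h) = Real.exp ((s / h : ℕ) * X) := by
          rw [Real.exp_nat_mul, ← hnX]
        rw [k4]
        exact Real.exp_le_exp.2 (mul_le_mul_of_nonneg_right Nat.cast_div_le hX0.le)
      calc ((s : ℝ) + 1) * ((s / h : ℕ) + 1) * (n : ℝ) ^ (s / h)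
          ≤ Real.exp s * Real.exp s * Real.exp (s / h * X) :=
            mul_le_mul (mul_le_mul k1 k2 (by positivity) (by positivity)) k3 (by positivity)
              (by positivity)
        _ = _ := by
            rw [← Real.exp_add, ← Real.exp_add]
            congr 1
            ring
    have f2 : ((2 * (s * D) : ℕ) : ℝ) ≤ Real.exp ((β + 5 * ε / 64) * X) := by
      have k1 : (2 : ℝ) * s ≤ Real.exp (ε / 64 * X) := by
        refine le_trans ?_ g11
        have k2 : (s : ℝ) ≤ ((2 * β + ε) / lam + 1) * X := by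
          have k3 : ((2 * β + ε) / lam + 1) * X = (2 * β + ε) * (X / lam) + X := by ring
          rw [k3]
          linarith
        have k4 : ((2 * β + ε) / lam + 1) * X ≤ ((2 * β + ε) / lam + 1) * X ^ 2 := by
          refine mul_le_mul_of_nonneg_left ?_ (by positivity)
          exact le_self_pow₀ g3 two_ne_zero
        rw [hC5]
        linarith
      push_cast
      calc 2 * ((s : ℝ) * D) = (2 * s) * D := by ring
        _ ≤ Real.exp (ε / 64 * X) * Real.exp ((β + ε / 16) * X) :=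
            mul_le_mul k1 hD2 hDr.le (Real.exp_pos _).le
        _ = _ := by
            rw [← Real.exp_add]
            congr 1
            ring
    have f3 : (1 - p) ^ (s.choose 2 - (κ + m * (s * h + e0)))
        ≤ Real.exp (-(lam * ((s : ℝ) * (s - 1) / 2 - (κ + m * (s * h + e0))))) := by
      rw [hqe, ← Real.exp_nat_mul]
      apply Real.exp_le_exp.2
      have k1 := cast_sub_ge (s.choose 2) (κ + m * (s * h + e0))
      rw [Nat.cast_choose_two] at k1
      push_cast at k1
      have k2 := mul_le_mul_of_nonneg_left k1 hlam.le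
      linarith
    have hκr : (κ : ℝ) ≤ ε / 64 * (s : ℝ) ^ 2 := Nat.floor_le (by positivity)
    have hexpo := core_exponent (β := β) (ε := ε) (lam := lam) (X := X) (s := s) (e0 := e0)
      (κ := κ) (m := m) (h := h) (a := a) (C1 := C1) (C2 := C2) hlam hX0 (by linarith) hβ0 hβ1
      hε hε1 (by
        have k1 := mul_le_mul_of_nonneg_left hs1 hlam.le
        have k2 : lam * ((2 * β + ε) * (X / lam)) = (2 * β + ε) * X := by field_simp
        linarith) hκr hmh hh0 hC1 (by
        have k1 : (e0 : ℝ) < 2 / lam * (a + 3) * X + 1 := Nat.ceil_lt_add_one (by positivity)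
        have k2 : (e0 : ℝ) ≤ (2 / lam * (a + 3) + 1) * X := by
          have : (2 / lam * (a + 3) + 1) * X = 2 / lam * (a + 3) * X + X := by ring
          rw [this]
          linarith
        rw [hC2]
        calc lam * (m * (e0 : ℝ)) ≤ lam * (m * ((2 / lam * (a + 3) + 1) * X)) :=
              mul_le_mul_of_nonneg_left (mul_le_mul_of_nonneg_left k2 (by positivity)) hlam.le
          _ = _ := by ring) (by
        rw [div_le_iff₀ (by positivity)] at g9
        linarith) (by
        have g10' : (C2 + (a + 3)) / (5 * ε / 32) ≤ (s : ℝ) := g10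
        rw [div_le_iff₀ (by positivity)] at g10'
        linarith)
    calc (((s : ℝ) + 1) * ((s / h : ℕ) + 1) * (n : ℝ) ^ (s / h)) ^ m
        * ((2 * (s * D) : ℕ) : ℝ) ^ s * (1 - p) ^ (s.choose 2 - (κ + m * (s * h + e0)))
        ≤ (Real.exp (2 * s + s / h * X)) ^ m * (Real.exp ((β + 5 * ε / 64) * X)) ^ s
          * Real.exp (-(lam * ((s : ℝ) * (s - 1) / 2 - (κ + m * (s * h + e0))))) := by
          refine mul_le_mul (mul_le_mul (pow_le_pow_left₀ (by positivity) f1 _)
            (pow_le_pow_left₀ (Nat.cast_nonneg _) f2 _) (by positivity) (by positivity)) f3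
            (by positivity) (by positivity)
      _ = Real.exp (m * (2 * s + s / h * X) + s * ((β + 5 * ε / 64) * X)
          - lam * ((s : ℝ) * (s - 1) / 2 - (κ + m * (s * h + e0)))) := by
          rw [← Real.exp_nat_mul, ← Real.exp_nat_mul, ← Real.exp_add, ← Real.exp_add]
          congr 1
      _ ≤ _ := by
          rw [hna3]
          exact Real.exp_le_exp.2 hexpo
  have T3 : Prob p (fun G : SimpleGraph (Fin n) =>
      ¬ ∀ I : Finset (Fin n), Indep G I → I.card ≤ r) ≤ (n : ℝ) ^ (-(a + 3)) := by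
    refine (Prob_mono h0 h1 fun G hG hcon => hG fun I hI => ?_).trans g5
    exact Nat.le_floor (hcon I hI)
  -- conclusion
  have hmain : Prob p (fun G => A.Proper l G ∧ (A.numColours l G : ℝ)
      * ((2 * β + 2 * ε) * LL p n) < (1 - ε) * n)
      ≤ (n : ℝ) ^ (-(a + 1)) + ((n : ℝ) ^ (-(a + 3)) + (n : ℝ) ^ (-(a + 3))) := by
    refine le_trans (Prob_mono h0 h1 fun G hG => ?_)
      (hfin.trans (add_le_add T1 (add_le_add T2 T3)))
    refine ⟨hG.1, ?_⟩
    have hnum := hG.2
    have hnum0 : (0 : ℝ) ≤ (A.numColours l G : ℝ) := Nat.cast_nonneg _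
    have hs3 : (s : ℝ) ≤ (2 * β + 2 * ε) * LL p n := by
      have e1 : 1 ≤ ε * (X / lam) := by
        rw [div_le_iff₀ hε] at g4
        have e2 : ε * (X / lam) = X * ε / lam := by ring
        rw [e2, one_le_div hlam]
        exact g4
      rw [hLL]
      linarith
    have hr1 : (r : ℝ) ≤ 3 / lam * X := by
      rw [hr]
      refine (Nat.floor_le ?_).trans (le_of_eq ?_)
      · rw [hLL]
        positivity
      · rw [hLL]
        ring
    have hb0r : (b0 : ℝ) ≤ 16 / lam * Real.exp ((1 - ε / 16) * X) := by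
      have e1 : (b0 : ℝ) ≤ 8 / lam * (n : ℝ) ^ (1 + β) / D := Nat.floor_le (by positivity)
      refine e1.trans ?_
      rw [div_le_iff₀ hDr]
      have e2 : 16 / lam * Real.exp ((1 - ε / 16) * X) * (Real.exp ((β + ε / 16) * X) / 2)
          ≤ 16 / lam * Real.exp ((1 - ε / 16) * X) * D :=
        mul_le_mul_of_nonneg_left hD1 (by positivity)
      refine le_trans (le_of_eq ?_) e2
      have e3 : Real.exp ((1 + β) * X)
          = Real.exp ((1 - ε / 16) * X) * Real.exp ((β + ε / 16) * X) := by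
        rw [← Real.exp_add]
        congr 1
        ring
      rw [hnb, e3]
      ring
    have herr : ((m : ℝ) + 1) * b0 * r ≤ ε * n := by
      have e1 : ((m : ℝ) + 1) * b0 * r ≤ ((m : ℝ) + 1)
          * (16 / lam * Real.exp ((1 - ε / 16) * X)) * (3 / lam * X) :=
        mul_le_mul (mul_le_mul_of_nonneg_left hb0r (by positivity)) hr1 (Nat.cast_nonneg _)
          (by positivity)
      have e2 : ((m : ℝ) + 1) * (16 / lam * Real.exp ((1 - ε / 16) * X)) * (3 / lam * X)
          = ε * ((C4 * X) * Real.exp ((1 - ε / 16) * X)) := by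
        rw [hC4]
        field_simp
      have e3 : C4 * X ≤ Real.exp (ε / 16 * X) := by
        refine le_trans ?_ g6
        refine mul_le_mul_of_nonneg_left ?_ (by positivity)
        exact le_self_pow₀ g3 two_ne_zero
      have e4 : Real.exp (ε / 16 * X) * Real.exp ((1 - ε / 16) * X) = n := by
        rw [← Real.exp_add, hnX]
        congr 1
        ring
      have e5 : (C4 * X) * Real.exp ((1 - ε / 16) * X) ≤ n := by
        rw [← e4]
        exact mul_le_mul_of_nonneg_right e3 (Real.exp_pos _).le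
      calc ((m : ℝ) + 1) * b0 * r ≤ _ := e1
        _ = _ := e2
        _ ≤ ε * n := mul_le_mul_of_nonneg_left e5 hε.le
    have hfinr : ((A.numColours l G * s + (m + 1) * b0 * r : ℕ) : ℝ) < n := by
      push_cast
      have e1 : (A.numColours l G : ℝ) * s
          ≤ (A.numColours l G : ℝ) * ((2 * β + 2 * ε) * LL p n) :=
        mul_le_mul_of_nonneg_left hs3 hnum0
      linarith
    exact_mod_cast hfinr
  refine hmain.trans ?_
  have e0' : (n : ℝ) ^ (-(a + 3)) ≤ (n : ℝ) ^ (-(a + 1)) :=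
    Real.rpow_le_rpow_of_exponent_le (by linarith) (by linarith)
  have e2 : (n : ℝ) ^ (-a) = (n : ℝ) ^ (-(a + 1)) * n := by
    have : (-a) = -(a + 1) + 1 := by ring
    rw [this, Real.rpow_add hn0, Real.rpow_one]
  have e3 : 0 ≤ (n : ℝ) ^ (-(a + 1)) := by positivity
  rw [e2]
  have e5 := mul_le_mul_of_nonneg_left hn4 e3
  linarith

end Pool.Agent.SD81
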