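import Pool.Agent.SD81.Classes

/-!
Orders of the pairs and bijections with the positions; the number of bijections with prescribed
sets of positions.
-/

set_option autoImplicit false

namespace Pool.Agent.SD81

open Finset Pool.Agent.SB81

section count

variable {X : Type} [Fintype X] [DecidableEq X] {N : ℕ}

/-- switching -/
theorem switch_le (T : Finset X) (a : X) (ha : a ∉ T) (I : X → Finset (Fin N)) {B : ℕ}
    (hI : (I a).card ≤ B) :
    (univ.filter fun π : X ≃ Fin N => ∀ x ∈ insert a T, π x ∈ I x).card * (univ \ T).card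
      ≤ (univ.filter fun π : X ≃ Fin N => ∀ x ∈ T, π x ∈ I x).card * B := by
  classical
  set L := univ.filter fun π : X ≃ Fin N => ∀ x ∈ insert a T, π x ∈ I x with hL
  set R := univ.filter fun π : X ≃ Fin N => ∀ x ∈ T, π x ∈ I x with hR
  rw [← card_product]
  have h1 : (L ×ˢ (univ \ T)).card ≤ (R.biUnion fun π' =>
      (univ.filter fun b : X => π' b ∈ I a).image fun b => (π', b)).card := by
    refine card_le_card_of_injOn (fun x => ((Equiv.swap a x.2).trans x.1, x.2)) ?_ ?_
    · rintro ⟨π, b⟩ hx
      rw [mem_coe, mem_product, mem_filter, mem_sdiff] at hx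
      obtain ⟨⟨_, h2⟩, _, h3⟩ := hx
      rw [mem_coe, mem_biUnion]
      refine ⟨(Equiv.swap a b).trans π, mem_filter.2 ⟨mem_univ _, fun x hx => ?_⟩,
        mem_image.2 ⟨b, mem_filter.2 ⟨mem_univ _, ?_⟩, rfl⟩⟩
      · have e1 : Equiv.swap a b x = x := by
          refine Equiv.swap_apply_of_ne_of_ne ?_ ?_
          · rintro rfl
            exact ha hx
          · rintro rfl
            exact h3 hx
        rw [Equiv.trans_apply, e1]
        exact h2 x (mem_insert_of_mem hx)
      · rw [Equiv.trans_apply, Equiv.swap_apply_right]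
        exact h2 a (mem_insert_self _ _)
    · rintro ⟨π, b⟩ _ ⟨π', b'⟩ _ h
      simp only [Prod.mk.injEq] at h
      obtain ⟨h2, rfl⟩ := h
      have h3 : π = π' := by
        ext x
        have := congrArg (fun e : X ≃ Fin N => e (Equiv.swap a b x)) h2
        simp only [Equiv.trans_apply, Equiv.swap_apply_self] at this
        rw [this]
      rw [h3]
  refine h1.trans (card_biUnion_le_card_mul _ _ _ fun π' _ => ?_)
  refine card_image_le.trans (le_trans ?_ hI)
  refine card_le_card_of_injOn (fun b => π' b) (fun b hb => ?_) (π'.injective.injOn)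
  rw [mem_coe, mem_filter] at hb
  exact hb.2

theorem card_equiv_le (hX : Fintype.card X = N) (I : X → Finset (Fin N)) {B : ℕ}
    (hI : ∀ x, (I x).card ≤ B) (T : Finset X) :
    (univ.filter fun π : X ≃ Fin N => ∀ x ∈ T, π x ∈ I x).card * (N - T.card) ^ T.card
      ≤ N.factorial * B ^ T.card := by
  classical
  induction T using Finset.induction_on with
  | empty =>
    rw [card_empty, pow_zero, pow_zero, mul_one, mul_one]
    refine (card_filter_le _ _).trans ?_
    have h2 : Fintype.card (X ≃ Fin N) = N.factorial := by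
      have e : X ≃ Fin N := Fintype.equivFinOfCardEq hX
      rw [Fintype.card_equiv e, hX]
    rw [card_univ, h2]
  | insert a T ha ih =>
    have h1 := switch_le T a ha I (hI a)
    have h2 : (univ \ T).card = N - T.card := by
      rw [card_univ_sdiff, hX]
    rw [h2] at h1
    rw [card_insert_of_notMem ha]
    set L := (univ.filter fun π : X ≃ Fin N => ∀ x ∈ insert a T, π x ∈ I x).card
    set R := (univ.filter fun π : X ≃ Fin N => ∀ x ∈ T, π x ∈ I x).card
    have h3 : (N - (T.card + 1)) ^ (T.card + 1) ≤ (N - T.card) ^ T.card * (N - T.card) := by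
      rw [pow_succ]
      exact Nat.mul_le_mul (Nat.pow_le_pow_left (by omega) _) (by omega)
    calc L * (N - (T.card + 1)) ^ (T.card + 1)
        ≤ L * ((N - T.card) ^ T.card * (N - T.card)) := Nat.mul_le_mul_left _ h3
      _ = (L * (N - T.card)) * (N - T.card) ^ T.card := by ring
      _ ≤ (R * B) * (N - T.card) ^ T.card := Nat.mul_le_mul_right _ h1
      _ = (R * (N - T.card) ^ T.card) * B := by ring
      _ ≤ (N.factorial * B ^ T.card) * B := Nat.mul_le_mul_right _ ih
      _ = _ := by ring

end count

/-! ### orders -/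

variable {n : ℕ}

/-- the pairs of different vertices -/
abbrev Xp (n : ℕ) : Type := {e : Sym2 (Fin n) // ¬ e.IsDiag}

/-- the order with given positions -/
def toL {N : ℕ} (π : Xp n ≃ Fin N) : List (Sym2 (Fin n)) := List.ofFn fun i => (π.symm i).1

theorem length_toL {N : ℕ} (π : Xp n ≃ Fin N) : (toL π).length = N := List.length_ofFn

theorem isOrder_toL {N : ℕ} (π : Xp n ≃ Fin N) : IsOrder (toL π) := by
  refine ⟨?_, fun e => ?_⟩
  · unfold toL
    rw [List.nodup_ofFn]
    intro i j h
    exact π.symm.injective (Subtype.ext h)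
  · unfold toL
    rw [List.mem_ofFn]
    constructor
    · rintro ⟨i, rfl⟩
      exact (π.symm i).2
    · intro h
      exact ⟨π ⟨e, h⟩, by rw [Equiv.symm_apply_apply]⟩

theorem idxOf_toL {N : ℕ} (π : Xp n ≃ Fin N) (x : Xp n) : (toL π).idxOf x.1 = (π x : ℕ) := by
  have h1 : ((π x : Fin N) : ℕ) < (toL π).length := by
    rw [length_toL]
    exact (π x).2
  have h2 : (toL π)[((π x : Fin N) : ℕ)] = x.1 := by
    unfold toL
    rw [List.getElem_ofFn]
    simp
  have h3 := (isOrder_toL π).1.idxOf_getElem _ h1
  rw [h2] at h3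
  exact h3

theorem toL_injective {N : ℕ} : Function.Injective (toL : (Xp n ≃ Fin N) → _) := by
  intro π π' h
  ext x
  rw [← idxOf_toL π x, ← idxOf_toL π' x, h]

theorem card_order {l : List (Sym2 (Fin n))} (hl : IsOrder l) :
    l.length = Fintype.card (Xp n) := by
  classical
  rw [Fintype.card_subtype, ← List.toFinset_card_of_nodup hl.1]
  congr 1
  ext e
  rw [List.mem_toFinset, hl.2 e]
  simp

theorem exists_toL {l : List (Sym2 (Fin n))} (hl : IsOrder l) :
    ∃ π : Xp n ≃ Fin (Fintype.card (Xp n)), toL π = l := by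
  classical
  have hlen := card_order hl
  have hlt : ∀ x : Xp n, l.idxOf x.1 < Fintype.card (Xp n) := by
    intro x
    rw [← hlen]
    exact List.idxOf_lt_length_of_mem ((hl.2 _).2 x.2)
  set f : Xp n → Fin (Fintype.card (Xp n)) := fun x => ⟨l.idxOf x.1, hlt x⟩ with hf
  have hinj : Function.Injective f := by
    intro x y h
    have h1 : l.idxOf x.1 = l.idxOf y.1 := congrArg Fin.val h
    exact Subtype.ext ((List.idxOf_inj ((hl.2 _).2 x.2)).1 h1)
  have hbij : Function.Bijective f :=
    (Fintype.bijective_iff_injective_and_card f).2 ⟨hinj, by rw [Fintype.card_fin]⟩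
  refine ⟨Equiv.ofBijective f hbij, ?_⟩
  refine List.ext_getElem (by rw [length_toL, hlen]) fun i h1 h2 => ?_
  have h3 : ¬ (l[i]).IsDiag := (hl.2 _).1 (List.getElem_mem h2)
  have h4 := idxOf_toL (Equiv.ofBijective f hbij) ⟨l[i], h3⟩
  have h5 : ((Equiv.ofBijective f hbij ⟨l[i], h3⟩ : Fin _) : ℕ) = i := by
    change l.idxOf l[i] = i
    exact hl.1.idxOf_getElem _ h2
  rw [h5] at h4
  have h6 := List.getElem_idxOf (show (toL (Equiv.ofBijective f hbij)).idxOf l[i]
      < (toL (Equiv.ofBijective f hbij)).length by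
    rw [h4]
    exact h1)
  simp only [h4] at h6
  exact h6

open Classical in
theorem ncard_orders (P : List (Sym2 (Fin n)) → Prop) :
    {l : List (Sym2 (Fin n)) | IsOrder l ∧ P l}.ncard
      = (univ.filter fun π : Xp n ≃ Fin (Fintype.card (Xp n)) => P (toL π)).card := by
  have h : {l : List (Sym2 (Fin n)) | IsOrder l ∧ P l} =
      (fun π : Xp n ≃ Fin (Fintype.card (Xp n)) => toL π) ''
      ((univ.filter fun π : Xp n ≃ Fin (Fintype.card (Xp n)) => P (toL π) :
        Finset (Xp n ≃ Fin (Fintype.card (Xp n)))) :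
        Set (Xp n ≃ Fin (Fintype.card (Xp n)))) := by
    ext l
    constructor
    · rintro ⟨h1, h2⟩
      obtain ⟨π, rfl⟩ := exists_toL h1
      exact ⟨π, by simpa using h2, rfl⟩
    · rintro ⟨π, h1, rfl⟩
      exact ⟨isOrder_toL π, by simpa using h1⟩
  rw [h, Set.ncard_image_of_injective _ toL_injective, Set.ncard_coe_finset]

theorem ncard_all_orders :
    {l : List (Sym2 (Fin n)) | IsOrder l}.ncard = (Fintype.card (Xp n)).factorial := by
  classical
  have h := ncard_orders (n := n) (fun _ => True)
  simp only [and_true] at h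
  rw [h, filter_true, card_univ, Fintype.card_equiv (Fintype.equivFin (Xp n))]

end Pool.Agent.SD81
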