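import Pool.Agent.SD81.LowerD

/-!
The lower bound for the approximation ratio, for almost all orders.
-/

set_option autoImplicit false

namespace Pool.Agent.SD81

open Finset Filter Pool.Agent.SB81 Pool.Agent.H72.Karp Pool.Agent.H72.KarpS
  Pool.Agent.H85.Online

variable {p : ℝ}

theorem ratio_lower (h0 : 0 < p) (h1 : p < 1) {β ρ : ℝ} (hβ0 : 0 ≤ β) (hβ1 : β ≤ 1)
    (hρ : 0 ≤ ρ) (hρβ : ρ * β < 1) (a : ℝ) : ∀ᶠ n : ℕ in atTop,
      (({l : List (Sym2 (Fin n)) | IsOrder l ∧ ¬ ∀ (Q : Type) [Fintype Q],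
        (Fintype.card Q : ℝ) ≤ 2 ^ ((n : ℝ) ^ (1 + β)) → ∀ A : PassAlg n Q,
          Prob p (fun G => A.Proper l G ∧
            (A.numColours l G : ℝ) ≤ ρ * G.chromaticNumber.toNat) ≤ (n : ℝ) ^ (-a)}.ncard : ℕ) : ℝ)
        ≤ (n : ℝ) ^ (-a) * (({l : List (Sym2 (Fin n)) | IsOrder l}.ncard : ℕ) : ℝ) := by
  have hlam := neg_log_pos h0 h1
  have hθ : 0 < 1 - ρ * β := by linarith
  set ε : ℝ := min 1 ((1 - ρ * β) / (8 * (1 + ρ))) with hεdef
  have hε : 0 < ε := lt_min one_pos (by positivity)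
  have hε1 : ε ≤ 1 := min_le_left _ _
  have hε2 : ε * (8 * (1 + ρ)) ≤ 1 - ρ * β := by
    have := min_le_right (1 : ℝ) ((1 - ρ * β) / (8 * (1 + ρ)))
    rw [← hεdef, le_div_iff₀ (by positivity)] at this
    exact this
  have hkey : ρ * ((1 / 2 + ε) * (2 * β + 2 * ε)) < 1 - ε := by
    have e1 : ε * ε ≤ ε * 1 := mul_le_mul_of_nonneg_left hε1 hε.le
    have e2 : ρ * (ε * ε) ≤ ρ * (ε * 1) := mul_le_mul_of_nonneg_left e1 hρ
    have e3 : ρ * β * ε ≤ 1 * ε := mul_le_mul_of_nonneg_right hρβ.le hε.le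
    nlinarith
  set a0 : ℝ := max a 0 + 1 with ha0def
  have ha0 : 0 ≤ a0 := by
    have := le_max_right a 0
    linarith
  have haa : a + 1 ≤ a0 := by
    have := le_max_left a 0
    linarith
  -- the number of phases
  obtain ⟨m, hm8, hm⟩ : ∃ m : ℕ, 8 < m ∧ -Real.log (1 - p) / (2 * β + ε) + 2
      ≤ ε / 64 * Real.log (m / 8) := by
    have h : Tendsto (fun m : ℕ => ε / 64 * Real.log ((m : ℝ) / 8)) atTop atTop :=
      (Real.tendsto_log_atTop.comp (tendsto_natCast_atTop_atTop.atTop_div_const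
        (by norm_num))).const_mul_atTop (by positivity)
    obtain ⟨m, hm⟩ := ((h.eventually_ge_atTop (-Real.log (1 - p) / (2 * β + ε) + 2)).and
      (eventually_gt_atTop 8)).exists
    exact ⟨m, hm.2, hm.1⟩
  have hfew := few_bad (p := p) h0 h1 (x := 2 * β + ε) (ρ := ε / 64) (by positivity)
    (by positivity) (by linarith) hm8 hm a
  filter_upwards [hfew, lower_good h0 h1 hβ0 hβ1 hε hε1 ha0 (m := m) (by omega),
    chi_upper (p := p) h0 h1 (δ := ε) hε ha0, eventually_ge_atTop 2] with n hn1 hn hchi hn2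
  refine le_trans ?_ hn1
  have hfinite : {l : List (Sym2 (Fin n)) | IsOrder l}.Finite := by
    refine Set.finite_of_ncard_ne_zero ?_
    rw [ncard_all_orders]
    exact (Nat.factorial_pos _).ne'
  have hsub : {l : List (Sym2 (Fin n)) | IsOrder l ∧ ¬ ∀ (Q : Type) [Fintype Q],
        (Fintype.card Q : ℝ) ≤ 2 ^ ((n : ℝ) ^ (1 + β)) → ∀ A : PassAlg n Q,
          Prob p (fun G => A.Proper l G ∧
            (A.numColours l G : ℝ) ≤ ρ * G.chromaticNumber.toNat) ≤ (n : ℝ) ^ (-a)}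
      ⊆ {l : List (Sym2 (Fin n)) | IsOrder l ∧ ¬ Spread (ph l (bF m n))
        (sF p (2 * β + ε) n) (kF (ε / 64) (sF p (2 * β + ε) n))} := by
    rintro l ⟨hl, hbad⟩
    refine ⟨hl, fun hsp => hbad ?_⟩
    intro Q _ hQ A
    have hnr2 : (2 : ℝ) ≤ n := by exact_mod_cast hn2
    have hn0 : (0 : ℝ) < n := by linarith
    have hL : 0 < LL p n := by
      rw [LL_eq]
      exact div_pos (Real.log_pos (by linarith)) hlam
    have h3 : Prob p (fun G : SimpleGraph (Fin n) => A.Proper l G ∧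
        (A.numColours l G : ℝ) ≤ ρ * G.chromaticNumber.toNat)
        ≤ (n : ℝ) ^ (-a0) + (n : ℝ) ^ (-a0) := by
      refine le_trans (Prob_mono h0 h1 fun G hG => ?_)
        ((Prob_or h0 h1 _ _).trans (add_le_add hchi (hn l hl hsp Q hQ A)))
      by_cases hc2 : (G.chromaticNumber.toNat : ℝ) ≤ (1 / 2 + ε) * (n / LL p n)
      · right
        refine ⟨hG.1, ?_⟩
        have e0 : (A.numColours l G : ℝ) ≤ ρ * ((1 / 2 + ε) * (n / LL p n)) :=
          hG.2.trans (mul_le_mul_of_nonneg_left hc2 hρ)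
        have e1 : 0 ≤ (2 * β + 2 * ε) * LL p n := by positivity
        calc (A.numColours l G : ℝ) * ((2 * β + 2 * ε) * LL p n)
            ≤ ρ * ((1 / 2 + ε) * (n / LL p n)) * ((2 * β + 2 * ε) * LL p n) :=
              mul_le_mul_of_nonneg_right e0 e1
          _ = ρ * ((1 / 2 + ε) * (2 * β + 2 * ε)) * n := by
              field_simp
          _ < (1 - ε) * n := mul_lt_mul_of_pos_right hkey hn0
      · exact Or.inl hc2
    refine h3.trans ?_
    have e1 : (n : ℝ) ^ (-a0) ≤ (n : ℝ) ^ (-(a + 1)) :=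
      Real.rpow_le_rpow_of_exponent_le (by linarith) (by linarith)
    have e2 : (n : ℝ) ^ (-a) = (n : ℝ) ^ (-(a + 1)) * n := by
      have : (-a) = -(a + 1) + 1 := by ring
      rw [this, Real.rpow_add hn0, Real.rpow_one]
    have e3 : 0 ≤ (n : ℝ) ^ (-(a + 1)) := by positivity
    rw [e2]
    nlinarith
  exact_mod_cast Set.ncard_le_ncard hsub (hfinite.subset fun l hl => hl.1)

end Pool.Agent.SD81
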