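import Pool.Agent.SD81.Chain
import Pool.Agent.H61S.Basic

/-!
Given an event, the graphs which satisfy it are divided into parts, such that in each part the
pairs outside a small set are nearly as random as in the whole space.
-/

set_option autoImplicit false

namespace Pool.Agent.SD81

open Finset Pool.Agent.H85.Online Pool.Agent.H72.Karp

variable {n : ℕ} {p : ℝ}

/-- no pair of `F` is an edge -/
def Non (F : Finset (Sym2 (Fin n))) (G : SimpleGraph (Fin n)) : Prop := ∀ e ∈ F, e ∉ G.edgeSet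

/-- the graphs agree on the pairs in `R` -/
def Same (R : Finset (Sym2 (Fin n))) (G H : SimpleGraph (Fin n)) : Prop :=
  ∀ e ∈ R, (e ∈ G.edgeSet ↔ e ∈ H.edgeSet)

theorem Same.symm {R : Finset (Sym2 (Fin n))} {G H : SimpleGraph (Fin n)} (h : Same R G H) :
    Same R H G := fun e he => (h e he).symm

theorem Non.congr {R F : Finset (Sym2 (Fin n))} (hF : F ⊆ R) {G H : SimpleGraph (Fin n)}
    (h : Same R G H) : Non F G ↔ Non F H :=
  forall_congr' fun e => forall_congr' fun he => not_congr (h e (hF he))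

theorem Prob_split (A B : SimpleGraph (Fin n) → Prop) :
    Prob p A = Prob p (fun G => A G ∧ B G) + Prob p (fun G => A G ∧ ¬ B G) := by
  classical
  unfold Prob
  rw [← sum_add_distrib]
  refine sum_congr rfl fun G _ => ?_
  by_cases hA : A G <;> by_cases hB : B G <;> simp [hA, hB]

theorem Prob_non (h1 : p < 1) {F : Finset (Sym2 (Fin n))} (hF : ∀ e ∈ F, ¬ e.IsDiag) :
    Prob p (Non F) = (1 - p) ^ F.card := by
  have h := Prob_and_no_edges (p := p) (fun _ : SimpleGraph (Fin n) => True) F (by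
    intro u v huv
    refine ⟨?_, fun G => Iff.rfl⟩
    have := hF _ huv
    rwa [Sym2.mk_isDiag_iff] at this)
  rw [Prob_true h1, mul_one] at h
  rw [← h]
  exact Prob_congr fun G => ⟨fun hG => ⟨trivial, hG⟩, fun hG => hG.2⟩

theorem exists_restore (h0 : 0 < p) (h1 : p < 1) {θ : ℝ} (hθ : 0 < θ)
    (A : SimpleGraph (Fin n) → Prop) (R : Finset (Sym2 (Fin n))) :
    ∃ I ⊆ R, θ ^ I.card * Prob p A ≤ Prob p (fun G => A G ∧ Non I G) ∧
      ∀ J ⊆ R, Disjoint J I → Prob p (fun G => (A G ∧ Non I G) ∧ Non J G)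
        ≤ θ ^ J.card * Prob p (fun G => A G ∧ Non I G) := by
  classical
  set F : Finset (Finset (Sym2 (Fin n))) := R.powerset.filter fun I =>
    θ ^ I.card * Prob p A ≤ Prob p (fun G => A G ∧ Non I G) with hF
  have hne : F.Nonempty := by
    refine ⟨∅, mem_filter.2 ⟨empty_mem_powerset _, ?_⟩⟩
    rw [card_empty, pow_zero, one_mul]
    exact Prob_mono h0 h1 fun G hG => ⟨hG, fun e he => absurd he (notMem_empty e)⟩
  obtain ⟨I, hI, hmax⟩ := F.exists_max_image (fun I => I.card) hne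
  obtain ⟨hIR, hI2⟩ := mem_filter.1 hI
  rw [mem_powerset] at hIR
  refine ⟨I, hIR, hI2, fun J hJ hd => ?_⟩
  rcases J.eq_empty_or_nonempty with rfl | hJne
  · rw [card_empty, pow_zero, one_mul]
    exact Prob_mono h0 h1 fun G hG => hG.1
  by_contra hcon
  rw [not_le] at hcon
  have h3 : I ∪ J ∈ F := by
    refine mem_filter.2 ⟨mem_powerset.2 (union_subset hIR hJ), ?_⟩
    rw [card_union_of_disjoint hd.symm, pow_add]
    have e1 : Prob p (fun G => (A G ∧ Non I G) ∧ Non J G)
        ≤ Prob p (fun G => A G ∧ Non (I ∪ J) G) :=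
      Prob_mono h0 h1 fun G hG => ⟨hG.1.1, fun e he =>
        (mem_union.1 he).elim (fun h => hG.1.2 e h) (fun h => hG.2 e h)⟩
    calc θ ^ I.card * θ ^ J.card * Prob p A = θ ^ J.card * (θ ^ I.card * Prob p A) := by ring
      _ ≤ θ ^ J.card * Prob p (fun G => A G ∧ Non I G) :=
          mul_le_mul_of_nonneg_left hI2 (by positivity)
      _ ≤ _ := hcon.le.trans e1
  have h4 := hmax _ h3
  rw [card_union_of_disjoint hd.symm] at h4
  have := hJne.card_pos
  omega

theorem card_restore_le (h0 : 0 < p) (h1 : p < 1) {θ w : ℝ} (hθ : 1 - p < θ) (hw : 0 < w)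
    {A : SimpleGraph (Fin n) → Prop} (hA : w ≤ Prob p A) {I : Finset (Sym2 (Fin n))}
    (hI : ∀ e ∈ I, ¬ e.IsDiag)
    (h : θ ^ I.card * Prob p A ≤ Prob p (fun G => A G ∧ Non I G)) :
    (I.card : ℝ) * Real.log (θ / (1 - p)) ≤ Real.log (1 / w) := by
  have hq0 : 0 < 1 - p := by linarith
  have hθ0 : 0 < θ := by linarith
  have e1 : Prob p (fun G => A G ∧ Non I G) ≤ (1 - p) ^ I.card := by
    rw [← Prob_non h1 hI]
    exact Prob_mono h0 h1 fun G hG => hG.2
  have e2 : θ ^ I.card * w ≤ (1 - p) ^ I.card :=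
    (mul_le_mul_of_nonneg_left hA (by positivity)).trans (h.trans e1)
  have e3 : (θ / (1 - p)) ^ I.card ≤ 1 / w := by
    rw [div_pow, div_le_div_iff₀ (by positivity) hw, one_mul]
    exact e2
  rw [← Real.log_pow]
  exact Real.log_le_log (by positivity) e3

open Classical in
/-- The division of an event into parts. -/
theorem restore (h0 : 0 < p) (h1 : p < 1) {θ w : ℝ} (hθ : 1 - p < θ) (hθ1 : θ ≤ 1)
    (hw : 0 < w) (hw1 : w ≤ 1) (R : Finset (Sym2 (Fin n))) (hR : ∀ e ∈ R, ¬ e.IsDiag) :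
    ∀ (N : ℕ) (A : SimpleGraph (Fin n) → Prop), (univ.filter A).card ≤ N →
      ∃ Ef : SimpleGraph (Fin n) → Finset (Sym2 (Fin n)),
        (∀ G, Ef G ⊆ R) ∧
        (∀ G, ((Ef G).card : ℝ) * Real.log (θ / (1 - p)) ≤ Real.log (1 / w)) ∧
        (∀ G H, Same R G H → Ef G = Ef H) ∧
        ∀ Y ⊆ R, ∀ e : ℕ, Prob p (fun G => A G ∧ Non Y G ∧ e ≤ (Y \ Ef G).card)
          ≤ θ ^ e * Prob p A + w := by
  have hq0 : 0 < 1 - p := by linarith
  have hθ0 : 0 < θ := by linarith
  have hsmall : ∀ A : SimpleGraph (Fin n) → Prop, Prob p A ≤ w →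
      ∃ Ef : SimpleGraph (Fin n) → Finset (Sym2 (Fin n)),
        (∀ G, Ef G ⊆ R) ∧
        (∀ G, ((Ef G).card : ℝ) * Real.log (θ / (1 - p)) ≤ Real.log (1 / w)) ∧
        (∀ G H, Same R G H → Ef G = Ef H) ∧
        ∀ Y ⊆ R, ∀ e : ℕ, Prob p (fun G => A G ∧ Non Y G ∧ e ≤ (Y \ Ef G).card)
          ≤ θ ^ e * Prob p A + w := by
    intro A hA
    refine ⟨fun _ => ∅, fun _ => empty_subset _, fun _ => ?_, fun _ _ _ => rfl,
        fun Y _ e => ?_⟩
    · rw [card_empty, Nat.cast_zero, zero_mul]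
      exact Real.log_nonneg (by rw [le_div_iff₀ hw]; linarith)
    · have e1 : Prob p (fun G => A G ∧ Non Y G ∧ e ≤ (Y \ ∅).card) ≤ Prob p A :=
        Prob_mono h0 h1 fun G hG => hG.1
      have e2 : 0 ≤ θ ^ e * Prob p A := mul_nonneg (by positivity) (Prob_nonneg h0 h1 _)
      linarith
  intro N
  induction N with
  | zero =>
    intro A hA
    refine hsmall A ?_
    have e2 : Prob p A = 0 := by
      unfold Prob
      refine sum_eq_zero fun G _ => if_neg fun hG => ?_
      have : 0 < (univ.filter A).card := card_pos.2 ⟨G, mem_filter.2 ⟨mem_univ _, hG⟩⟩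
      omega
    rw [e2]
    exact hw.le
  | succ N ih =>
    intro A hA
    by_cases hAw : Prob p A ≤ w
    · exact hsmall A hAw
    rw [not_le] at hAw
    obtain ⟨I, hIR, hI, hJ⟩ := exists_restore h0 h1 hθ0 A R
    have hpos : 0 < Prob p (fun G => A G ∧ Non I G) :=
      lt_of_lt_of_le (mul_pos (pow_pos hθ0 _) (hw.trans hAw)) hI
    have hex : ∃ G, A G ∧ Non I G := by
      by_contra hcon
      have e2 : Prob p (fun G => A G ∧ Non I G) = 0 := by
        unfold Prob
        exact sum_eq_zero fun G _ => if_neg fun hG => hcon ⟨G, hG⟩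
      linarith
    obtain ⟨G0, hG0, hG0I⟩ := hex
    obtain ⟨E', hE1, hE2, hE3, hE4⟩ := ih (fun G => A G ∧ ¬ Non I G) (by
      have hsub : (univ.filter fun G : SimpleGraph (Fin n) => A G ∧ ¬ Non I G) ⊂
          univ.filter A := by
        rw [ssubset_iff_of_subset (fun G hG => mem_filter.2
          ⟨mem_univ _, (mem_filter.1 hG).2.1⟩)]
        exact ⟨G0, mem_filter.2 ⟨mem_univ _, hG0⟩, fun hG => (mem_filter.1 hG).2.2 hG0I⟩
      have h2 := lt_of_lt_of_le (card_lt_card hsub) hA
      refine Nat.lt_succ_iff.1 (lt_of_eq_of_lt ?_ h2)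
      congr)
    refine ⟨fun G => if Non I G then I else E' G, ?_, ?_, ?_, ?_⟩
    · intro G
      dsimp only
      split_ifs
      · exact hIR
      · exact hE1 G
    · intro G
      dsimp only
      split_ifs
      · exact card_restore_le h0 h1 hθ hw hAw.le (fun e he => hR e (hIR he)) hI
      · exact hE2 G
    · intro G H hGH
      dsimp only
      have h2 := Non.congr hIR hGH
      by_cases h3 : Non I G
      · rw [if_pos h3, if_pos (h2.1 h3)]
      · rw [if_neg h3, if_neg (fun h => h3 (h2.2 h)), hE3 G H hGH]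
    · intro Y hY e
      have e1 : Prob p (fun G => A G ∧ Non Y G ∧ e ≤ (Y \ (if Non I G then I else E' G)).card)
          ≤ Prob p (fun G => (A G ∧ Non I G) ∧ Non Y G ∧ e ≤ (Y \ I).card)
            + Prob p (fun G => (A G ∧ ¬ Non I G) ∧ Non Y G ∧ e ≤ (Y \ E' G).card) := by
        refine (Prob_mono h0 h1 fun G hG => ?_).trans (Prob_or h0 h1 _ _)
        by_cases h3 : Non I G
        · rw [if_pos h3] at hG
          exact Or.inl ⟨⟨hG.1, h3⟩, hG.2⟩
        · rw [if_neg h3] at hG
          exact Or.inr ⟨⟨hG.1, h3⟩, hG.2⟩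
      have e2 : Prob p (fun G => (A G ∧ Non I G) ∧ Non Y G ∧ e ≤ (Y \ I).card)
          ≤ θ ^ e * Prob p (fun G => A G ∧ Non I G) := by
        by_cases he : e ≤ (Y \ I).card
        · have e3 := hJ (Y \ I) (sdiff_subset.trans hY) sdiff_disjoint
          have e4 : θ ^ (Y \ I).card ≤ θ ^ e := pow_le_pow_of_le_one hθ0.le hθ1 he
          calc Prob p (fun G => (A G ∧ Non I G) ∧ Non Y G ∧ e ≤ (Y \ I).card)
              ≤ Prob p (fun G => (A G ∧ Non I G) ∧ Non (Y \ I) G) :=
                Prob_mono h0 h1 fun G hG => ⟨hG.1, fun x hx => hG.2.1 x (mem_sdiff.1 hx).1⟩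
            _ ≤ _ := e3
            _ ≤ _ := mul_le_mul_of_nonneg_right e4 hpos.le
        · have e3 : Prob p (fun G => (A G ∧ Non I G) ∧ Non Y G ∧ e ≤ (Y \ I).card) = 0 := by
            unfold Prob
            exact sum_eq_zero fun G _ => if_neg fun hG => he hG.2.2
          rw [e3]
          positivity
      have e3 := hE4 Y hY e
      have e4 := Prob_split (p := p) A (Non I)
      have e5 : θ ^ e * Prob p A = θ ^ e * Prob p (fun G => A G ∧ Non I G)
          + θ ^ e * Prob p (fun G => A G ∧ ¬ Non I G) := by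
        rw [← mul_add, ← e4]
      linarith

/-- Events about the pairs in `R` are independent of events about the other pairs. -/
theorem Prob_indep_pairs (R : Finset (Sym2 (Fin n))) (A B : SimpleGraph (Fin n) → Prop)
    (hA : ∀ G H, Same R G H → A G → A H)
    (hB : ∀ G H : SimpleGraph (Fin n),
      (∀ e, e ∉ R → ¬ e.IsDiag → (e ∈ G.edgeSet ↔ e ∈ H.edgeSet)) → B G → B H) :
    Prob p (fun G => A G ∧ B G) = Prob p A * Prob p B := by
  classical
  rw [Prob_eq, Prob_eq, Prob_eq, EG_eq, EG_eq, EG_eq,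
    ← Pool.Agent.H61S.EE_indep_set {e : Prs (Fin n) | e.1 ∈ R}]
  · refine EE_congr fun ω => ?_
    by_cases h : A (gr ω) <;> by_cases h' : B (gr ω) <;> simp [h, h']
  · intro ω ω' h
    have hag : Same R (gr ω) (gr ω') := by
      intro e he
      induction e using Sym2.ind with
      | _ u v =>
      rw [SimpleGraph.mem_edgeSet, SimpleGraph.mem_edgeSet, gr_adj, gr_adj]
      refine exists_congr fun hd => ?_
      rw [h ⟨s(u, v), hd⟩ he]
    have : A (gr ω) ↔ A (gr ω') := ⟨hA _ _ hag, hA _ _ hag.symm⟩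
    simp only [this]
  · intro ω ω' h
    have hag : ∀ e, e ∉ R → ¬ e.IsDiag → (e ∈ (gr ω).edgeSet ↔ e ∈ (gr ω').edgeSet) := by
      intro e he _
      induction e using Sym2.ind with
      | _ u v =>
      rw [SimpleGraph.mem_edgeSet, SimpleGraph.mem_edgeSet, gr_adj, gr_adj]
      refine exists_congr fun hd => ?_
      rw [h ⟨s(u, v), hd⟩ he]
    have : B (gr ω) ↔ B (gr ω') :=
      ⟨hB _ _ hag, hB _ _ fun e he hd => (hag e he hd).symm⟩
    simp only [this]

end Pool.Agent.SD81
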