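import Pool.Agent.SD81.Restore
import Pool.Agent.SB81.Know

/-!
The pairs inside the colour classes which have been presented before a given time are almost
all in a small set which is determined at that time.
-/

set_option autoImplicit false

namespace Pool.Agent.SD81

open Finset Pool.Agent.H85.Online Pool.Agent.SB81

variable {n : ℕ} {Q : Type} {p : ℝ}

open Classical in
/-- the state reached from `q` -/
noncomputable def runFrom (A : PassAlg n Q) (q : Q) (l : List (Sym2 (Fin n)))
    (G : SimpleGraph (Fin n)) : Q :=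
  l.foldl (fun q e => A.step q e (decide (e ∈ G.edgeSet))) q

theorem run_split (A : PassAlg n Q) (l : List (Sym2 (Fin n))) (t : ℕ)
    (G : SimpleGraph (Fin n)) :
    A.run l G = runFrom A (A.run (l.take t) G) (l.drop t) G := by
  classical
  unfold PassAlg.run runFrom
  rw [← List.foldl_append, List.take_append_drop]

theorem runFrom_congr (A : PassAlg n Q) (q : Q) {l : List (Sym2 (Fin n))}
    {G H : SimpleGraph (Fin n)} (h : ∀ e ∈ l, (e ∈ G.edgeSet ↔ e ∈ H.edgeSet)) :
    runFrom A q l G = runFrom A q l H := by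
  classical
  unfold runFrom
  induction l generalizing q with
  | nil => rfl
  | cons a l ih =>
    simp only [List.foldl_cons]
    have h1 : decide (a ∈ G.edgeSet) = decide (a ∈ H.edgeSet) := by
      rw [decide_eq_decide]
      exact h a List.mem_cons_self
    rw [h1]
    exact ih _ fun e he => h e (List.mem_cons_of_mem _ he)

open Classical in
/-- the pairs which have been presented before time `t` -/
noncomputable def Rt (l : List (Sym2 (Fin n))) (t : ℕ) : Finset (Sym2 (Fin n)) :=
  (l.take t).toFinset

theorem mem_Rt {l : List (Sym2 (Fin n))} {t : ℕ} {e : Sym2 (Fin n)} :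
    e ∈ Rt l t ↔ e ∈ l.take t := by
  classical
  exact List.mem_toFinset

open Classical in
/-- the pairs of `R` whose ends have the same colour -/
noncomputable def mono (R : Finset (Sym2 (Fin n))) (c : Fin n → ℕ) : Finset (Sym2 (Fin n)) :=
  R.filter fun e => ∀ u ∈ e, ∀ v ∈ e, c u = c v

theorem mono_subset (R : Finset (Sym2 (Fin n))) (c : Fin n → ℕ) : mono R c ⊆ R := by
  classical
  exact filter_subset _ _

theorem mem_mono {R : Finset (Sym2 (Fin n))} {c : Fin n → ℕ} {u v : Fin n} :
    s(u, v) ∈ mono R c ↔ s(u, v) ∈ R ∧ c u = c v := by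
  classical
  unfold mono
  rw [mem_filter]
  refine and_congr_right fun _ => ⟨fun h => h u (Sym2.mem_mk_left u v) v (Sym2.mem_mk_right u v),
    fun h x hx y hy => ?_⟩
  rcases Sym2.mem_iff.1 hx with rfl | rfl <;> rcases Sym2.mem_iff.1 hy with rfl | rfl
  · rfl
  · exact h
  · exact h.symm
  · rfl

theorem Prob_sum_fiber (h1 : p < 1) {ι : Type} [Fintype ι] (f : SimpleGraph (Fin n) → ι) :
    ∑ i : ι, Prob p (fun G => f G = i) = 1 := by
  have h := Prob_fiber (p := p) f (fun _ : SimpleGraph (Fin n) => True)
  rw [Prob_true h1] at h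
  rw [h]
  exact sum_congr rfl fun i _ => Prob_congr fun G => by simp

/-- There are small sets of pairs, determined by the pairs before time `t`, which contain all but
`e0` of the pairs inside the classes presented before time `t`, if the colouring is proper. -/
theorem exists_known (h0 : 0 < p) (h1 : p < 1) {θ w : ℝ} (hθ : 1 - p < θ) (hθ1 : θ ≤ 1)
    (hw : 0 < w) (hw1 : w ≤ 1) [Fintype Q] (A : PassAlg n Q) {l : List (Sym2 (Fin n))}
    (hl : IsOrder l) (t : ℕ) : ∃ E : SimpleGraph (Fin n) → Finset (Sym2 (Fin n)),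
      (∀ G, E G ⊆ Rt l t) ∧
      (∀ G, ((E G).card : ℝ) * Real.log (θ / (1 - p)) ≤ Real.log (1 / w)) ∧
      (∀ G H, Same (Rt l t) G H → E G = E H) ∧
      ∀ e0 : ℕ, Prob p (fun G => Non (mono (Rt l t) (A.colour (A.run l G))) G ∧
        e0 ≤ (mono (Rt l t) (A.colour (A.run l G)) \ E G).card)
          ≤ θ ^ e0 + Fintype.card Q * w := by
  classical
  have hθ0 : 0 < θ := by linarith
  have hR : ∀ e ∈ Rt l t, ¬ e.IsDiag := by
    intro e he
    exact (hl.2 e).1 (List.mem_of_mem_take (mem_Rt.1 he))
  have hex := fun q : Q => restore h0 h1 hθ hθ1 hw hw1 (Rt l t) hR _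
    (fun G => A.run (l.take t) G = q) le_rfl
  choose Ef hE1 hE2 hE3 hE4 using hex
  have hrun : ∀ G H, Same (Rt l t) G H → A.run (l.take t) G = A.run (l.take t) H := by
    intro G H h
    exact A.run_congr fun e he => h e (mem_Rt.2 he)
  refine ⟨fun G => Ef (A.run (l.take t) G) G, fun G => hE1 _ G, fun G => hE2 _ G,
    fun G H h => ?_, fun e0 => ?_⟩
  · dsimp only
    rw [hrun G H h]
    exact hE3 _ G H h
  set Y : Q → SimpleGraph (Fin n) → Finset (Sym2 (Fin n)) := fun q G =>
    mono (Rt l t) (A.colour (runFrom A q (l.drop t) G)) with hY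
  have hYe : ∀ G, mono (Rt l t) (A.colour (A.run l G)) = Y (A.run (l.take t) G) G := by
    intro G
    rw [hY]
    dsimp only
    rw [← run_split]
  have hdis : ∀ e ∈ l.drop t, e ∉ Rt l t := by
    intro e he he2
    have hnd := hl.1
    rw [← List.take_append_drop t l, List.nodup_append] at hnd
    exact hnd.2.2 e (mem_Rt.1 he2) e he rfl
  have hq : ∀ q : Q, Prob p (fun G => A.run (l.take t) G = q ∧ Non (Y q G) G ∧
      e0 ≤ (Y q G \ Ef q G).card) ≤ θ ^ e0 * Prob p (fun G => A.run (l.take t) G = q) + w := by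
    intro q
    calc Prob p (fun G => A.run (l.take t) G = q ∧ Non (Y q G) G ∧
          e0 ≤ (Y q G \ Ef q G).card)
        ≤ Prob p (fun G => ∃ Z ∈ (univ : Finset (Finset (Sym2 (Fin n)))),
            (A.run (l.take t) G = q ∧ Non Z G ∧ e0 ≤ (Z \ Ef q G).card) ∧ Y q G = Z) :=
          Prob_mono h0 h1 fun G hG => ⟨Y q G, mem_univ _, hG, rfl⟩
      _ ≤ ∑ Z : Finset (Sym2 (Fin n)), Prob p (fun G =>
            (A.run (l.take t) G = q ∧ Non Z G ∧ e0 ≤ (Z \ Ef q G).card) ∧ Y q G = Z) :=
          Prob_exists h0 h1 _ _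
      _ ≤ ∑ Z : Finset (Sym2 (Fin n)), (θ ^ e0 * Prob p (fun G => A.run (l.take t) G = q) + w)
            * Prob p (fun G => Y q G = Z) := by
          refine sum_le_sum fun Z _ => ?_
          by_cases hZ : Z ⊆ Rt l t
          · rw [Prob_indep_pairs (Rt l t)]
            · exact mul_le_mul_of_nonneg_right (hE4 q Z hZ e0) (Prob_nonneg h0 h1 _)
            · rintro G H h ⟨a1, a2, a3⟩
              refine ⟨(hrun G H h).symm.trans a1, (Non.congr hZ h).1 a2, ?_⟩
              rw [← hE3 q G H h]
              exact a3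
            · intro G H h hG
              rw [← hG, hY]
              dsimp only
              rw [runFrom_congr A q fun e he => h e (hdis e he)
                ((hl.2 e).1 (List.mem_of_mem_drop he))]
          · have e1 : Prob p (fun G =>
                (A.run (l.take t) G = q ∧ Non Z G ∧ e0 ≤ (Z \ Ef q G).card) ∧ Y q G = Z) = 0 := by
              unfold Prob
              refine sum_eq_zero fun G _ => if_neg fun hG => hZ ?_
              rw [← hG.2]
              exact mono_subset _ _
            rw [e1]
            have e2 := Prob_nonneg h0 h1 (fun G => A.run (l.take t) G = q)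
            have e3 := Prob_nonneg h0 h1 (fun G => Y q G = Z)
            positivity
      _ = _ := by
          rw [← mul_sum, Prob_sum_fiber h1 (Y q), mul_one]
  calc Prob p (fun G => Non (mono (Rt l t) (A.colour (A.run l G))) G ∧
        e0 ≤ (mono (Rt l t) (A.colour (A.run l G)) \ Ef (A.run (l.take t) G) G).card)
      ≤ Prob p (fun G => ∃ q ∈ (univ : Finset Q), A.run (l.take t) G = q ∧ Non (Y q G) G ∧
          e0 ≤ (Y q G \ Ef q G).card) := by
        refine Prob_mono h0 h1 fun G hG => ⟨_, mem_univ _, rfl, ?_⟩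
        rw [← hYe]
        exact hG
    _ ≤ ∑ q : Q, Prob p (fun G => A.run (l.take t) G = q ∧ Non (Y q G) G ∧
          e0 ≤ (Y q G \ Ef q G).card) := Prob_exists h0 h1 _ _
    _ ≤ ∑ q : Q, (θ ^ e0 * Prob p (fun G => A.run (l.take t) G = q) + w) :=
        sum_le_sum fun q _ => hq q
    _ = _ := by
        rw [sum_add_distrib, ← mul_sum, Prob_sum_fiber h1 (fun G => A.run (l.take t) G), mul_one,
          sum_const, card_univ, nsmul_eq_mul]

end Pool.Agent.SD81
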