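import Pool.Agent.SD81.Perm

/-!
Almost all orders have the spreading property.
-/

set_option autoImplicit false

namespace Pool.Agent.SD81

open Finset Pool.Agent.SB81

variable {n : ℕ}

open Classical in
/-- the positions of the phases before the labels of the ends -/
noncomputable def Ig {N : ℕ} (B : ℕ) (g : Fin n → ℕ) (x : Xp n) : Finset (Fin N) :=
  univ.filter fun i => ∃ v ∈ x.1, g v = (i : ℕ) / B + 1

theorem card_phase_le {N B : ℕ} (hB : 0 < B) (c : ℕ) :
    (univ.filter fun i : Fin N => c = (i : ℕ) / B + 1).card ≤ B := by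
  rcases Nat.eq_zero_or_pos c with rfl | hc
  · rw [filter_false_of_mem (fun i _ h => Nat.succ_ne_zero _ h.symm), card_empty]
    exact Nat.zero_le _
  · have h1 : (Finset.Ico ((c - 1) * B) ((c - 1) * B + B)).card ≤ B := by
      rw [Nat.card_Ico]
      omega
    refine le_trans ?_ h1
    refine card_le_card_of_injOn (fun i : Fin N => (i : ℕ)) (fun i hi => ?_)
      (Fin.val_injective.injOn)
    rw [mem_coe, mem_filter] at hi
    rw [mem_coe, mem_Ico]
    have h2 : (i : ℕ) / B = c - 1 := by rw [hi.2, Nat.add_sub_cancel]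
    have h3 := Nat.div_add_mod' (i : ℕ) B
    have h4 := Nat.mod_lt (i : ℕ) hB
    rw [h2] at h3
    change (c - 1) * B ≤ (i : ℕ) ∧ (i : ℕ) < (c - 1) * B + B
    generalize (i : ℕ) % B = r at h3 h4
    generalize (c - 1) * B = t at h3 ⊢
    omega

theorem card_Ig_le {N B : ℕ} (hB : 0 < B) (g : Fin n → ℕ) (x : Xp n) :
    (Ig B g x : Finset (Fin N)).card ≤ 2 * B := by
  classical
  obtain ⟨e, he⟩ := x
  induction e using Sym2.ind with
  | _ u v =>
  have hsub : (Ig B g ⟨s(u, v), he⟩ : Finset (Fin N)) ⊆
      (univ.filter fun i : Fin N => g u = (i : ℕ) / B + 1) ∪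
        (univ.filter fun i : Fin N => g v = (i : ℕ) / B + 1) := by
    intro i hi
    obtain ⟨w, hw, h⟩ := (mem_filter.1 hi).2
    rw [mem_union, mem_filter, mem_filter]
    rcases Sym2.mem_iff.1 hw with rfl | rfl
    · exact Or.inl ⟨mem_univ _, h⟩
    · exact Or.inr ⟨mem_univ _, h⟩
  refine (card_le_card hsub).trans ((card_union_le _ _).trans ?_)
  have h1 := card_phase_le (N := N) hB (g u)
  have h2 := card_phase_le (N := N) hB (g v)
  omega

open Classical in
/-- the labellings of `S` -/
noncomputable def labels (m : ℕ) (S : Finset (Fin n)) : Finset (Fin n → ℕ) :=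
  Fintype.piFinset fun v => if v ∈ S then range (m + 2) else {0}

theorem card_labels (m : ℕ) (S : Finset (Fin n)) : (labels m S).card = (m + 2) ^ S.card := by
  classical
  unfold labels
  rw [Fintype.card_piFinset]
  have h : ∀ v : Fin n, (if v ∈ S then range (m + 2) else {0} : Finset ℕ).card
      = if v ∈ S then m + 2 else 1 := by
    intro v
    split_ifs
    · rw [card_range]
    · rw [card_singleton]
  simp only [h]
  rw [prod_ite_mem, univ_inter, prod_const]

open Classical in
theorem bad_orders_le {m B s κ : ℕ} (hB : 0 < B) (hm : Fintype.card (Xp n) ≤ m * B) :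
    {l : List (Sym2 (Fin n)) | IsOrder l ∧ ¬ Spread (ph l B) s κ}.ncard
        * (Fintype.card (Xp n) - (κ + 1)) ^ (κ + 1)
      ≤ (n ^ s * ((m + 2) ^ s * 2 ^ (s.choose 2))) * ((2 * B) ^ (κ + 1)
        * {l : List (Sym2 (Fin n)) | IsOrder l}.ncard) := by
  set N := Fintype.card (Xp n) with hN
  set W := (N - (κ + 1)) ^ (κ + 1) with hW
  set bad := univ.filter fun π : Xp n ≃ Fin N => ¬ Spread (ph (toL π) B) s κ with hbad
  have hncard : {l : List (Sym2 (Fin n)) | IsOrder l ∧ ¬ Spread (ph l B) s κ}.ncard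
      = bad.card := by
    rw [ncard_orders, hbad]
    congr
  rw [hncard, ncard_all_orders]
  set PS : Finset (Fin n) → Finset (Finset (Xp n)) := fun S =>
    ((prs S).subtype fun e => ¬ e.IsDiag).powersetCard (κ + 1) with hPS
  set V : (Fin n → ℕ) → Finset (Xp n) → Finset (Xp n ≃ Fin N) := fun g T =>
    univ.filter fun π => ∀ x ∈ T, π x ∈ Ig B g x with hV
  have hsub : bad ⊆ (univ.powersetCard s).biUnion fun S => (labels m S).biUnion fun g =>
      (PS S).biUnion fun T => V g T := by
    intro π hπ
    have h1 := (mem_filter.1 hπ).2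
    unfold Spread at h1
    push Not at h1
    obtain ⟨S, hS, f, hf⟩ := h1
    have h2 : {e ∈ (prs S : Set (Sym2 (Fin n))) | ∃ v ∈ e, f v = ph (toL π) B e + 1}
        = (((prs S).filter fun e => ∃ v ∈ e, f v = ph (toL π) B e + 1 : Finset _) : Set _) := by
      ext e
      simp
    rw [h2, Set.ncard_coe_finset] at hf
    obtain ⟨T, hT, hTc⟩ := exists_subset_card_eq (Nat.succ_le_of_lt hf)
    have hTd : ∀ e ∈ T, ¬ e.IsDiag := by
      intro e he
      have h3 := (mem_filter.1 (hT he)).1
      induction e using Sym2.ind with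
      | _ u v =>
      rw [mem_prs] at h3
      rw [Sym2.mk_isDiag_iff]
      exact h3.1
    set g : Fin n → ℕ := fun v => if v ∈ S then min (f v) (m + 1) else 0 with hg
    refine mem_biUnion.2 ⟨S, mem_powersetCard.2 ⟨subset_univ _, hS⟩, mem_biUnion.2
      ⟨g, ?_, mem_biUnion.2 ⟨T.subtype fun e => ¬ e.IsDiag, ?_, ?_⟩⟩⟩
    · unfold labels
      rw [Fintype.mem_piFinset]
      intro v
      by_cases hv : v ∈ S
      · rw [if_pos hv, mem_range, hg]
        simp only [hv, if_true]
        have := min_le_right (f v) (m + 1)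
        omega
      · rw [if_neg hv, mem_singleton, hg]
        simp only [hv, if_false]
    · rw [hPS, mem_powersetCard]
      refine ⟨?_, ?_⟩
      · intro x hx
        rw [mem_subtype] at hx ⊢
        exact (mem_filter.1 (hT hx)).1
      · rw [card_subtype, filter_true_of_mem hTd, hTc]
    · rw [hV, mem_filter]
      refine ⟨mem_univ _, fun x hx => ?_⟩
      rw [mem_subtype] at hx
      obtain ⟨h3, v, hv, hfv⟩ := mem_filter.1 (hT hx)
      unfold Ig
      rw [mem_filter]
      refine ⟨mem_univ _, v, hv, ?_⟩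
      have h4 : ph (toL π) B x.1 = (π x : ℕ) / B := by
        unfold ph
        rw [idxOf_toL]
      rw [h4] at hfv
      have h5 : (π x : ℕ) / B < m := by
        rw [Nat.div_lt_iff_lt_mul hB]
        exact (π x).2.trans_le hm
      have h6 : v ∈ S := by
        obtain ⟨e, he⟩ := x
        simp only at hv h3
        induction e using Sym2.ind with
        | _ a b =>
        rw [mem_prs] at h3
        rcases Sym2.mem_iff.1 hv with rfl | rfl
        · exact h3.2.1
        · exact h3.2.2
      rw [hg]
      simp only [h6, if_true]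
      rw [hfv, min_eq_left (by omega)]
  have hV1 : ∀ S ∈ (univ : Finset (Fin n)).powersetCard s, ∀ g ∈ labels m S, ∀ T ∈ PS S,
      (V g T).card * W ≤ N.factorial * (2 * B) ^ (κ + 1) := by
    intro S _ g _ T hT
    have h1 := card_equiv_le (X := Xp n) rfl (Ig B g) (card_Ig_le hB g) T
    rw [(mem_powersetCard.1 hT).2] at h1
    exact h1
  have hPSc : ∀ S ∈ (univ : Finset (Fin n)).powersetCard s, (PS S).card ≤ 2 ^ (s.choose 2) := by
    intro S hS
    have h1 : (PS S).card ≤ 2 ^ ((prs S).subtype fun e => ¬ e.IsDiag).card := by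
      rw [hPS]
      dsimp only
      rw [card_powersetCard]
      exact Nat.choose_le_two_pow _ _
    refine h1.trans (Nat.pow_le_pow_right (by norm_num) ?_)
    rw [card_subtype]
    refine (card_filter_le _ _).trans ?_
    rw [card_prs, (mem_powersetCard.1 hS).2]
  have hsum : bad.card ≤ ∑ S ∈ (univ : Finset (Fin n)).powersetCard s, ∑ g ∈ labels m S,
      ∑ T ∈ PS S, (V g T).card := by
    refine (card_le_card hsub).trans (card_biUnion_le.trans (sum_le_sum fun S _ =>
      card_biUnion_le.trans (sum_le_sum fun g _ => card_biUnion_le)))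
  calc bad.card * W ≤ (∑ S ∈ (univ : Finset (Fin n)).powersetCard s, ∑ g ∈ labels m S,
      ∑ T ∈ PS S, (V g T).card) * W := Nat.mul_le_mul_right _ hsum
    _ = ∑ S ∈ (univ : Finset (Fin n)).powersetCard s, ∑ g ∈ labels m S,
      ∑ T ∈ PS S, (V g T).card * W := by
        simp only [sum_mul]
    _ ≤ ∑ S ∈ (univ : Finset (Fin n)).powersetCard s, ∑ g ∈ labels m S,
      ∑ T ∈ PS S, N.factorial * (2 * B) ^ (κ + 1) :=
        sum_le_sum fun S hS => sum_le_sum fun g hg => sum_le_sum fun T hT => hV1 S hS g hg T hT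
    _ ≤ ∑ S ∈ (univ : Finset (Fin n)).powersetCard s, ∑ g ∈ labels m S,
      2 ^ (s.choose 2) * (N.factorial * (2 * B) ^ (κ + 1)) := by
        refine sum_le_sum fun S hS => sum_le_sum fun g _ => ?_
        rw [sum_const, smul_eq_mul]
        exact Nat.mul_le_mul_right _ (hPSc S hS)
    _ = ∑ S ∈ (univ : Finset (Fin n)).powersetCard s,
      (m + 2) ^ s * (2 ^ (s.choose 2) * (N.factorial * (2 * B) ^ (κ + 1))) := by
        refine sum_congr rfl fun S hS => ?_
        rw [sum_const, smul_eq_mul, card_labels, (mem_powersetCard.1 hS).2]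
    _ ≤ n ^ s * ((m + 2) ^ s * (2 ^ (s.choose 2) * (N.factorial * (2 * B) ^ (κ + 1)))) := by
        rw [sum_const, smul_eq_mul, card_powersetCard, card_univ, Fintype.card_fin]
        exact Nat.mul_le_mul_right _ (Nat.choose_le_pow n s)
    _ = _ := by ring

end Pool.Agent.SD81
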